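import Pool.Agent.Lib.EPC.Prim

/-!
# Bounds of the functions on cells
-/

namespace Pool.Agent.Lib.EPC

theorem eU_at {n : ℕ} (hn : n < 16384) {v : ℝ} (hv : (n : ℝ) / 128 ≤ v) :
    U (Real.exp (-v)) (eU n) :=
  (eU_ok hn).mono (Real.exp_le_exp.mpr (by linarith))

theorem eL_at {n : ℕ} (hn : n < 16384) {v : ℝ} (hv : v ≤ (n : ℝ) / 128) :
    L (Real.exp (-v)) (eL n) :=
  (eL_ok hn).mono (Real.exp_le_exp.mpr (by linarith))

theorem gU_at {n : ℕ} (hn : n < 16384) {v : ℝ} (hv : v ≤ (n : ℝ) / 128) :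
    U (Real.exp v) (gU n) :=
  (gU_ok hn).mono (Real.exp_le_exp.mpr hv)

theorem gL_at {n : ℕ} (hn : n < 16384) {v : ℝ} (hv : (n : ℝ) / 128 ≤ v) :
    L (Real.exp v) (gL n) :=
  (gL_ok hn).mono (Real.exp_le_exp.mpr hv)

theorem phU_at {n : ℕ} (hn : n < 16384) {v : ℝ} (hv : (n : ℝ) / 128 ≤ v) :
    U (ph v) (phU n) :=
  (phU_ok hn).mono (ph_anti hv)

theorem kaL_at {n : ℕ} (h0 : 0 < n) (hn : n < 16384) {v : ℝ} (hv : v ≤ (n : ℝ) / 128) :
    L (ka v) (kaL n) :=
  (kaL_ok h0 hn).mono (ka_anti hv)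

theorem taU_at {n : ℕ} (hn : n < 16384) {v : ℝ} (hv : (n : ℝ) / 128 ≤ v) :
    U (ta v) (taU n) :=
  (taU_ok hn).mono (ta_anti hv)

theorem psU_at {n : ℕ} (hn : n < 16384) {v : ℝ} (hv : v ≤ (n : ℝ) / 128) :
    U (ph (-v)) (psU n) :=
  (psU_ok hn).mono (ph_anti (neg_le_neg hv))

theorem psL_at {n : ℕ} (hn : n < 16384) {v : ℝ} (hv : (n : ℝ) / 128 ≤ v) :
    L (ph (-v)) (psL n) :=
  (psL_ok hn).mono (ph_anti (neg_le_neg hv))

theorem chL_at {n : ℕ} (hn : n < 16384) {v : ℝ} (hv : (n : ℝ) / 128 ≤ v) :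
    L (ph (-v) - ka (-v)) (chL n) :=
  (chL_ok hn).mono (chi_mono hv)

theorem kmL_at {n : ℕ} (hn : n < 16384) {v : ℝ} (hv : (n : ℝ) / 128 ≤ v) :
    L (ka (-v)) (kmL n) :=
  (kmL_ok hn).mono (ka_anti (neg_le_neg hv))

theorem tmU_at {n : ℕ} (hn : n < 16384) {v : ℝ} (hv : v ≤ (n : ℝ) / 128) :
    U (ta (-v)) (tmU n) :=
  (tmU_ok hn).mono (ta_anti (neg_le_neg hv))

/-- the final comparison: `c (uP - uN) + P - N > 0` -/
theorem final_lt {c uP uN P N : ℝ} {cl ch up un p n : ℕ} (h1 : L c cl) (h2 : U c ch)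
    (h3 : L uP up) (h4 : U uN un) (h5 : L P p) (h6 : U N n)
    (h : n + mU ch (un - up) < p + mL cl (up - un)) : 0 < c * (uP - uN) + P - N := by
  have hO := ONE_pos
  -- the case distinction
  have h7 : ((p : ℝ) + mL cl (up - un)) ≤ (P + c * max (uP - uN) 0) * (ONE : ℕ) := by
    have h8 : L (max (uP - uN) 0) (up - un) := by
      unfold L at *
      refine cast_sub_le ?_ (mul_nonneg (le_max_right _ _) hO.le)
      have : (uP - uN) * (ONE : ℕ) ≤ max (uP - uN) 0 * (ONE : ℕ) :=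
        mul_le_mul_of_nonneg_right (le_max_left _ _) hO.le
      unfold U at h4
      linarith
    have h9 := h5.add (h1.mul h8)
    unfold L at h9
    push_cast at h9
    exact h9
  have h8 : (N + c * max (uN - uP) 0) * (ONE : ℕ) ≤ (n : ℝ) + mU ch (un - up) := by
    have h8 : U (max (uN - uP) 0) (un - up) := by
      unfold U at *
      unfold L at h3
      have h10 := cast_sub_ge un up
      have h11 : (0 : ℝ) ≤ ((un - up : ℕ) : ℝ) := Nat.cast_nonneg _
      rcases le_total (uN - uP) 0 with hh | hh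
      · rw [max_eq_right hh]; linarith
      · rw [max_eq_left hh]; linarith
    have h9 := h6.add (h2.mul (le_max_right _ _) h8)
    unfold U at h9
    push_cast at h9
    exact h9
  have h9 : ((n : ℝ) + mU ch (un - up)) < (p : ℝ) + mL cl (up - un) := by exact_mod_cast h
  have h10 : (N + c * max (uN - uP) 0) * (ONE : ℕ) < (P + c * max (uP - uN) 0) * (ONE : ℕ) := by
    linarith
  have h11 := lt_of_mul_lt_mul_right h10 hO.le
  have h12 : c * max (uP - uN) 0 - c * max (uN - uP) 0 = c * (uP - uN) := by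
    rcases le_total uP uN with hh | hh
    · rw [max_eq_right (by linarith), max_eq_left (by linarith)]; ring
    · rw [max_eq_left (by linarith), max_eq_right (by linarith)]; ring
  linarith

end Pool.Agent.Lib.EPC
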