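import Pool.Agent.Lib.EPC.Defs
import Pool.Agent.Lib.EPH.Lay

/-!
# Sums over a box of vectors and a remainder

The box is the image of `bx : Fin 7 × Fin 7 × Fin 7 → (Fin 3 → ℤ)` (all entries between `-3` and `3`).

PROOF of `tsum_le_box`: `f ≤ U'` pointwise with `U' x = (if x in the box then U x else 0) + ε e^{-|x|²/4}`
(in the box use `0 ≤ ε e^{..}`), `U'` summable (a function with finite support plus a Gaussian), the sum of the first
part is `∑ i, U (bx i)` (`bx` injective, e.g. `tsum_eq_sum` over `Finset.univ.map`), and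
`∑' x, e^{-(x0² + x1² + x2²)/4} = (∑' n : ℤ, e^{-n²/4})³ ≤ 45`: `EPH.gth_zero_le` with `a = 1/4`
gives `≤ 1.001 √(4π) ≤ 3.5501`, cube `≤ 44.8` (as in `EPH.plane_sum`; `EPH.e3 : (ℤ × ℤ) × ℤ ≃ (Fin 3 → ℤ)`).
`keyP`, `keyQ` are `4 pp`, `4 qq` as natural numbers; the cardinalities by `decide +kernel` over `Fin 7 × Fin 7 × Fin 7`.
`key_ge`: some `|x j| ≥ 4`; `x0 = (v2+v3)/2`, ... so `x j² ≤ (P+Q)/2`.
`key_small`, `key_smallF`: by `key_ge` the vector is in the box, then `decide +kernel`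
over `Fin 7 × Fin 7 × Fin 7` (`keyP + 2 keyQ < 16` implies `keyP + keyQ < 32`).
-/

namespace Pool.Agent.Lib.EPC

open Pool.Agent.Lib.EpZ Pool.Agent.Lib.EPS Pool.Agent.Lib.EPL

/-- the vectors with entries between `-3` and `3` -/
def bx (i : Fin 7 × Fin 7 × Fin 7) : Fin 3 → ℤ :=
  ![(i.1.val : ℤ) - 3, (i.2.1.val : ℤ) - 3, (i.2.2.val : ℤ) - 3]

/-- the integer `4 pp x` -/
def keyP (x : Fin 3 → ℤ) : ℕ :=
  (-(x 0) + x 1 + x 2).natAbs ^ 2 + (x 0 - x 1 + x 2).natAbs ^ 2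

/-- the integer `4 qq x` -/
def keyQ (x : Fin 3 → ℤ) : ℕ := (x 0 + x 1 - x 2).natAbs ^ 2

namespace BoxSAux

theorem nat_sq (a : ℤ) : ((a.natAbs : ℝ)) ^ 2 = (a : ℝ) ^ 2 := by
  rw [Nat.cast_natAbs, ← sq_abs (a : ℝ)]
  push_cast
  rfl

theorem keyP_real (x : Fin 3 → ℤ) : (keyP x : ℝ) =
    (-(x 0 : ℝ) + x 1 + x 2) ^ 2 + ((x 0 : ℝ) - x 1 + x 2) ^ 2 := by
  unfold keyP
  push_cast
  rw [nat_sq, nat_sq]
  push_cast
  rfl

theorem keyQ_real (x : Fin 3 → ℤ) : (keyQ x : ℝ) = ((x 0 : ℝ) + x 1 - x 2) ^ 2 := by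
  unfold keyQ
  push_cast
  rw [nat_sq]
  push_cast
  rfl

theorem mem_of {x : Fin 3 → ℤ} (h : ∀ j, -3 ≤ x j ∧ x j ≤ 3) : ∃ i, bx i = x := by
  have h0 := h 0
  have h1 := h 1
  have h2 := h 2
  refine ⟨(⟨(x 0 + 3).toNat, by omega⟩, ⟨(x 1 + 3).toNat, by omega⟩,
    ⟨(x 2 + 3).toNat, by omega⟩), funext fun j => ?_⟩
  fin_cases j
  · show ((x 0 + 3).toNat : ℤ) - 3 = x 0
    omega
  · show ((x 1 + 3).toNat : ℤ) - 3 = x 1
    omega
  · show ((x 2 + 3).toNat : ℤ) - 3 = x 2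
    omega

theorem bx_inj : Function.Injective bx := by
  intro i j h
  have h0 : ((i.1.val : ℤ) - 3) = (j.1.val : ℤ) - 3 := congrFun h 0
  have h1 : ((i.2.1.val : ℤ) - 3) = (j.2.1.val : ℤ) - 3 := congrFun h 1
  have h2 : ((i.2.2.val : ℤ) - 3) = (j.2.2.val : ℤ) - 3 := congrFun h 2
  refine Prod.ext (Fin.ext (by omega)) (Prod.ext (Fin.ext (by omega)) (Fin.ext (by omega)))

theorem gauss3 : ∃ G : ℝ, G ≤ 45 ∧ HasSum (fun x : Fin 3 → ℤ =>
    Real.exp (-(((x 0 : ℝ) ^ 2 + (x 1 : ℝ) ^ 2 + (x 2 : ℝ) ^ 2) / 4))) G := by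
  have hs := EPH.summable_gth (β := 1 / 4) (by norm_num) 0
  refine ⟨EPH.gth (1 / 4) 0 * EPH.gth (1 / 4) 0 * EPH.gth (1 / 4) 0, ?_, ?_⟩
  · have h1 := EPH.gth_zero_le (a := 1 / 4) (by norm_num) (by norm_num)
    have h0 : 0 ≤ EPH.gth (1 / 4) 0 := tsum_nonneg fun _ => (Real.exp_pos _).le
    have h2 : √(Real.pi / (1 / 4)) ≤ 355 / 100 := by
      rw [Real.sqrt_le_left (by norm_num)]
      have := Real.pi_lt_d2
      norm_num
      linarith
    have h3 : EPH.gth (1 / 4) 0 ≤ 35536 / 10000 := by linarith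
    have h4 := mul_le_mul (mul_le_mul h3 h3 h0 (by norm_num)) h3 h0 (by norm_num)
    refine h4.trans ?_
    norm_num
  · have hm := hs.mul_of_nonneg hs (fun _ => (Real.exp_pos _).le) (fun _ => (Real.exp_pos _).le)
    have h2 := hs.hasSum.mul hs.hasSum hm
    have hm2 := h2.summable.mul_of_nonneg hs
      (fun _ => mul_nonneg (Real.exp_pos _).le (Real.exp_pos _).le) (fun _ => (Real.exp_pos _).le)
    have h3 := h2.mul hs.hasSum hm2
    have e : ((fun x : Fin 3 → ℤ =>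
        Real.exp (-(((x 0 : ℝ) ^ 2 + (x 1 : ℝ) ^ 2 + (x 2 : ℝ) ^ 2) / 4))) ∘ EPH.e3) =
        fun p : (ℤ × ℤ) × ℤ => Real.exp (-(1 / 4 * ((p.1.1 : ℝ) - 0) ^ 2)) *
          Real.exp (-(1 / 4 * ((p.1.2 : ℝ) - 0) ^ 2)) *
          Real.exp (-(1 / 4 * ((p.2 : ℝ) - 0) ^ 2)) := by
      funext p
      show Real.exp (-(((p.1.1 : ℝ) ^ 2 + (p.1.2 : ℝ) ^ 2 + (p.2 : ℝ) ^ 2) / 4)) =
        Real.exp (-(1 / 4 * ((p.1.1 : ℝ) - 0) ^ 2)) * Real.exp (-(1 / 4 * ((p.1.2 : ℝ) - 0) ^ 2)) *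
          Real.exp (-(1 / 4 * ((p.2 : ℝ) - 0) ^ 2))
      rw [← Real.exp_add, ← Real.exp_add]
      congr 1
      ring
    rw [← EPH.e3.hasSum_iff, e]
    exact h3

end BoxSAux

open BoxSAux

theorem pp_key (x : Fin 3 → ℤ) : pp x = keyP x / 4 := by
  rw [keyP_real]
  rfl

theorem qq_key (x : Fin 3 → ℤ) : qq x = keyQ x / 4 := by
  rw [keyQ_real]
  rfl

/-- vectors outside of the box are long -/
theorem key_ge {x : Fin 3 → ℤ} (hx : ∀ i, bx i ≠ x) : 32 ≤ keyP x + keyQ x := by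
  have h1 : ∃ j, ¬ (-3 ≤ x j ∧ x j ≤ 3) := by
    by_contra hcon
    push Not at hcon
    obtain ⟨i, hi⟩ := mem_of (x := x) (fun j => by
      have := hcon j
      constructor
      · exact this.1
      · exact this.2)
    exact hx i hi
  have h2 : ((keyP x + keyQ x : ℕ) : ℤ) =
      (-(x 0) + x 1 + x 2) ^ 2 + (x 0 - x 1 + x 2) ^ 2 + (x 0 + x 1 - x 2) ^ 2 := by
    unfold keyP keyQ
    push_cast
    simp only [sq_abs]
  have h3 : (32 : ℤ) ≤ ((keyP x + keyQ x : ℕ) : ℤ) := by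
    rw [h2]
    obtain ⟨j, hj⟩ := h1
    have h4 : 16 ≤ x j ^ 2 := by
      by_cases h5 : -3 ≤ x j
      · have h6 : 4 ≤ x j := by
          by_contra h7
          exact hj ⟨h5, by omega⟩
        nlinarith
      · have h6 : x j ≤ -4 := by omega
        nlinarith
    fin_cases j
    · have h5 : 16 ≤ x 0 ^ 2 := h4
      nlinarith [sq_nonneg (x 1 - x 2), sq_nonneg (x 0 - x 1), sq_nonneg (x 0 - x 2),
        sq_nonneg (-(x 0) + x 1 + x 2)]
    · have h5 : 16 ≤ x 1 ^ 2 := h4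
      nlinarith [sq_nonneg (x 0 - x 2), sq_nonneg (x 0 - x 1), sq_nonneg (x 1 - x 2),
        sq_nonneg (x 0 - x 1 + x 2)]
    · have h5 : 16 ≤ x 2 ^ 2 := h4
      nlinarith [sq_nonneg (x 0 - x 1), sq_nonneg (x 0 - x 2), sq_nonneg (x 1 - x 2),
        sq_nonneg (x 0 + x 1 - x 2)]
  exact_mod_cast h3

/-- the norm `|v|²` dominates `|x|²` -/
theorem key_norm (x : Fin 3 → ℤ) :
    (x 0 : ℝ) ^ 2 + (x 1 : ℝ) ^ 2 + (x 2 : ℝ) ^ 2 ≤ (keyP x : ℝ) + keyQ x := by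
  rw [keyP_real, keyQ_real]
  nlinarith [sq_nonneg ((x 0 : ℝ) - x 1), sq_nonneg ((x 0 : ℝ) - x 2),
    sq_nonneg ((x 1 : ℝ) - x 2)]

theorem card_A : (Finset.univ.filter fun i => keyP (bx i) = 2 ∧ keyQ (bx i) = 1).card = 8 := by
  decide +kernel

theorem card_C : (Finset.univ.filter fun i => keyP (bx i) = 0 ∧ keyQ (bx i) = 4).card = 2 := by
  decide +kernel

theorem card_D : (Finset.univ.filter fun i => keyP (bx i) = 4 ∧ keyQ (bx i) = 4).card = 8 := by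
  decide +kernel

theorem card_F : (Finset.univ.filter fun i => keyP (bx i) = 2 ∧ keyQ (bx i) = 9).card = 8 := by
  decide +kernel

theorem card_G : (Finset.univ.filter fun i => keyP (bx i) = 10 ∧ keyQ (bx i) = 1).card = 16 := by
  decide +kernel

namespace BoxSAux

theorem small_fin : ∀ i, keyQ (bx i) ≠ 0 → keyP (bx i) + keyQ (bx i) < 16 →
    (keyP (bx i) = 2 ∧ keyQ (bx i) = 1) ∨ (keyP (bx i) = 0 ∧ keyQ (bx i) = 4) ∨
      (keyP (bx i) = 4 ∧ keyQ (bx i) = 4) ∨ (keyP (bx i) = 2 ∧ keyQ (bx i) = 9) ∨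
      (keyP (bx i) = 10 ∧ keyQ (bx i) = 1) ∨ (keyP (bx i) = 8 ∧ keyQ (bx i) = 4) := by
  decide +kernel

end BoxSAux

/-- the keys with a small norm -/
theorem key_small {x : Fin 3 → ℤ} (hQ : keyQ x ≠ 0) (h : keyP x + keyQ x < 16) :
    (keyP x = 2 ∧ keyQ x = 1) ∨ (keyP x = 0 ∧ keyQ x = 4) ∨ (keyP x = 4 ∧ keyQ x = 4) ∨
      (keyP x = 2 ∧ keyQ x = 9) ∨ (keyP x = 10 ∧ keyQ x = 1) ∨ (keyP x = 8 ∧ keyQ x = 4) := by
  by_cases hx : ∃ i, bx i = x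
  · obtain ⟨i, rfl⟩ := hx
    exact small_fin i hQ h
  · push Not at hx
    have := key_ge hx
    omega

theorem key_smallF {x : Fin 3 → ℤ} (hQ : keyQ x ≠ 0) (h : keyP x + 2 * keyQ x < 16) :
    (keyP x = 2 ∧ keyQ x = 1) ∨ (keyP x = 0 ∧ keyQ x = 4) ∨ (keyP x = 4 ∧ keyQ x = 4) ∨
      (keyP x = 10 ∧ keyQ x = 1) := by
  have h1 := key_small hQ (by omega)
  omega

/-- a function of the box which takes the value `c` on a class -/
theorem sum_class {p : Fin 7 × Fin 7 × Fin 7 → Prop} [DecidablePred p] (c : ℝ) :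
    ∑ i, (if p i then c else 0) = ((Finset.univ.filter p).card : ℝ) * c := by
  rw [← Finset.sum_filter, Finset.sum_const, nsmul_eq_mul]

theorem tsum_le_box {f U : (Fin 3 → ℤ) → ℝ} (hf : Summable f) {ε : ℝ} (hε : 0 ≤ ε)
    (h1 : ∀ i, f (bx i) ≤ U (bx i))
    (h2 : ∀ x, (∀ i, bx i ≠ x) →
      f x ≤ ε * Real.exp (-(((x 0 : ℝ) ^ 2 + (x 1 : ℝ) ^ 2 + (x 2 : ℝ) ^ 2) / 4))) :
    ∑' x, f x ≤ ∑ i, U (bx i) + 45 * ε := by
  classical
  obtain ⟨G, hG, hGs⟩ := gauss3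
  set S : Finset (Fin 3 → ℤ) := Finset.univ.image bx with hS
  have hU : HasSum (fun x => if x ∈ S then U x else 0) (∑ i, U (bx i)) := by
    have e1 : HasSum (fun x => if x ∈ S then U x else 0)
        (∑ x ∈ S, (if x ∈ S then U x else 0)) :=
      hasSum_sum_of_ne_finset_zero (fun x hx => by rw [if_neg hx])
    have e2 : ∑ x ∈ S, (if x ∈ S then U x else 0) = ∑ i, U (bx i) := by
      rw [Finset.sum_congr rfl (fun x hx => if_pos hx), hS,
        Finset.sum_image (fun a _ b _ hab => bx_inj hab)]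
    rw [e2] at e1
    exact e1
  have hT := hU.add (hGs.mul_left ε)
  have hle := hasSum_le (fun x => ?_) hf.hasSum hT
  · refine hle.trans ?_
    have := mul_le_mul_of_nonneg_left hG hε
    linarith
  · have hpos := mul_nonneg hε
      (Real.exp_pos (-(((x 0 : ℝ) ^ 2 + (x 1 : ℝ) ^ 2 + (x 2 : ℝ) ^ 2) / 4))).le
    by_cases hx : x ∈ S
    · rw [if_pos hx]
      rw [hS, Finset.mem_image] at hx
      obtain ⟨i, -, rfl⟩ := hx
      have := h1 i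
      linarith
    · rw [if_neg hx, zero_add]
      refine h2 x fun i hi => hx ?_
      rw [hS, Finset.mem_image]
      exact ⟨i, Finset.mem_univ i, hi⟩

end Pool.Agent.Lib.EPC
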