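import Pool.Agent.Lib.EPL.Sec
import Pool.Agent.Lib.FCC.Base

/-!
# The body-centred tetragonal forms between bcc and fcc

`Qt a c` has value `a (v1² + v2²) + c v3²` where `v = (-x0+x1+x2, x0-x1+x2, x0+x1-x2)` runs over
the integer triples with equal parities. `Qt 1 1` is bcc, `Qt 1 2` is fcc.

`pp = (v1² + v2²)/4`, `qq = v3²/4`; `r = 4 t a`, `g = 4 t c`, so that `t * Qt a c [x] = r pp + g qq`.
-/

open Matrix

namespace Pool.Agent.Lib.EPC

open Pool.Agent.Lib.EpZ Pool.Agent.Lib.EPS Pool.Agent.Lib.EPL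

/-- the body-centred tetragonal form -/
def Qt (a c : ℝ) : Mx 3 :=
  !![2 * a + c, c - 2 * a, -c; c - 2 * a, 2 * a + c, -c; -c, -c, 2 * a + c]

/-- a quarter of `v1² + v2²` -/
noncomputable def pp (x : Fin 3 → ℤ) : ℝ :=
  ((-(x 0 : ℝ) + x 1 + x 2) ^ 2 + ((x 0 : ℝ) - x 1 + x 2) ^ 2) / 4

/-- a quarter of `v3²` -/
noncomputable def qq (x : Fin 3 → ℤ) : ℝ := ((x 0 : ℝ) + x 1 - x 2) ^ 2 / 4

/-- the Gaussian weights -/
noncomputable def ex (r g : ℝ) (x : Fin 3 → ℤ) : ℝ := Real.exp (-(r * pp x + g * qq x))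

/-- the function which has to be negative -/
noncomputable def GG (c r g : ℝ) : ℝ :=
  ∑' x : Fin 3 → ℤ, ((r * pp x - 2 * (g * qq x)) * (r * pp x - g * qq x) -
    (r * pp x + 2 * (g * qq x)) - c * (r * pp x - 2 * (g * qq x))) * ex r g x

/-- the multiplier, as a function of `x = g / r` -/
noncomputable def cc (x : ℝ) : ℝ :=
  2 / (x - 1) - 4 / (2 - x) + 9 / 4 + 3 * (2 / x - x)

theorem pp_nonneg (x : Fin 3 → ℤ) : 0 ≤ pp x := by unfold pp; positivity

theorem qq_nonneg (x : Fin 3 → ℤ) : 0 ≤ qq x := by unfold qq; positivity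

theorem qf_Qt (a c : ℝ) (x : Fin 3 → ℤ) : qf (Qt a c) x = 4 * (a * pp x + c * qq x) := by
  unfold qf
  rw [qr_eq]
  simp only [Fin.sum_univ_three, Qt, pp, qq, rv]
  simp
  ring

theorem Qt_symm (a c : ℝ) : (Qt a c).IsSymm := by
  unfold Matrix.IsSymm Qt
  ext i j
  fin_cases i <;> fin_cases j <;> simp [Matrix.transpose]

theorem Qt_det (a c : ℝ) : (Qt a c).det = 16 * a ^ 2 * c := by
  rw [Matrix.det_fin_three]
  simp [Qt]
  ring

theorem Qt_qr (a c : ℝ) (w : Fin 3 → ℝ) : qr (Qt a c) w =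
    a * ((-w 0 + w 1 + w 2) ^ 2 + (w 0 - w 1 + w 2) ^ 2) + c * (w 0 + w 1 - w 2) ^ 2 := by
  rw [qr_eq]
  simp only [Fin.sum_univ_three, Qt]
  simp
  ring

theorem Qt_pd {a c : ℝ} (ha : 0 < a) (hc : 0 < c) : PD (Qt a c) := by
  refine ⟨Qt_symm a c, fun w hw => ?_⟩
  rw [Qt_qr]
  have h : (-w 0 + w 1 + w 2 ≠ 0) ∨ (w 0 - w 1 + w 2 ≠ 0) ∨ (w 0 + w 1 - w 2 ≠ 0) := by
    by_contra hcon
    push Not at hcon
    obtain ⟨h1, h2, h3⟩ := hcon
    refine hw (funext fun i => ?_)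
    fin_cases i
    · show w 0 = 0
      linarith
    · show w 1 = 0
      linarith
    · show w 2 = 0
      linarith
  rcases h with h | h | h
  · have : 0 < (-w 0 + w 1 + w 2) ^ 2 := by positivity
    positivity
  · have : 0 < (w 0 - w 1 + w 2) ^ 2 := by positivity
    positivity
  · have : 0 < (w 0 + w 1 - w 2) ^ 2 := by positivity
    positivity

theorem Qt_add (a b c d : ℝ) : Qt a b + Qt c d = Qt (a + c) (b + d) := by
  ext i j
  fin_cases i <;> fin_cases j <;> simp [Qt] <;> ring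

theorem Qt_smul (l a b : ℝ) : l • Qt a b = Qt (l * a) (l * b) := by
  ext i j
  fin_cases i <;> fin_cases j <;> simp [Qt] <;> ring

/-- the forms of the classification -/
theorem formOf_eq (p q : ℝ) : FCC.formOf ![p, p, q, q, q, q] = Qt ((p + q) / 2) q := by
  ext i j
  fin_cases i <;> fin_cases j <;> simp [FCC.formOf, Qt] <;> ring

theorem summable_ex {r g : ℝ} (hr : 0 < r) (hg : 0 < g) : Summable (ex r g) := by
  have h := summable_theta (Qt_pd hr hg) (t := 1 / 4) (by norm_num)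
  refine h.congr fun x => ?_
  rw [qf_Qt]
  unfold ex
  congr 2
  ring

theorem ex_pos (r g : ℝ) (x : Fin 3 → ℤ) : 0 < ex r g x := Real.exp_pos _

end Pool.Agent.Lib.EPC
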