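import Pool.Agent.Lib.EPC.Defs

/-!
# The duality of `GG`

PROOF. `V r g = ∑' x, ex r g x`.
(1) Poisson: `V r g = C (r² g)^(-1/2) V (2π²/r) (4π²/g)`, `C = 4 √2... > 0` a constant: `EPS.theta_dual`
 for `Qt r g` at `t = 1/4` (so `t * qf (Qt r g) x = r pp x + g qq x`), `Qt_det`, and the reindexing of the
 inverse form: with `M` the matrix of `v = M x`, `(Qt a c)⁻¹ [y] = (u1² + u2²)/(4a) + u3²/(4c)` where
 `u = 2 M⁻ᵀ y`, `M⁻¹ = ½ !![0,1,1;1,0,1;1,1,0]`, i.e. `u = (y1+y2, y0+y2, y0+y1)`; put `w1 = u1 + u2`,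
 `w2 = u1 - u2`, `w3 = u3`: all three have the same parity, `u1² + u2² = (w1² + w2²)/2`, so this is
 `qf (Qt (1/(8a)) (1/(4c))) x'` with `x'` the integral unimodular image of `y` such that
 `v(x') = w` (`x'0 = (w2+w3)/2`, `x'1 = (w1+w3)/2`, `x'2 = (w1+w2)/2`).
(2) Differentiation: for `μ ν : ℝ`, `ε ↦ V (r e^{μ ε}) (g e^{ν ε})` has at every `ε` the derivative
 `-∑' x (μ X + ν Y) e^{-X-Y}`, `X = r e^{με} pp x`, `Y = g e^{νε} qq x`; and
 `ε ↦ ∑' x (X - Y) e^{-X-Y}` has the derivative `∑' x [(μ X - ν Y) - (X - Y)(μ X + ν Y)] e^{-X-Y}`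
 (`hasDerivAt_tsum_of_isPreconnected`, as in `EPL.hasDerivAt_theta`).
(3) With `(μ, ν) = (-1, 1)` at `ε = 0` in (1), for every `r, g > 0`:
 `SV(r,g) := ∑' (X - Y) e^{-X-Y} = P (½ V* - SV(r*, g*))`, `P = C (r² g)^(-1/2)`, `r* = 2π²/r`, `g* = 4π²/g`
 (`P` along `(r e^{-ε}, g e^{ε})` is `P e^{ε/2}`, and `(r*, g*)` becomes `(r* e^{ε}, g* e^{-ε})`).
(4) With `(μ, ν) = (-1, 2)` (here `P` is constant, `(r*, g*)` becomes `(r* e^{ε}, g* e^{-2ε})`), writing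
 `DV = ∑' (X - 2Y) e^{-X-Y}`, `DSV = ∑' [(X - 2Y)(X - Y) - (X + 2Y)] e^{-X-Y}`:
 `DV(r,g) = -P DV(r*,g*)`, and differentiating (3): `DSV(r,g) = P (-½ DV(r*,g*) + DSV(r*,g*))`.
(5) `GG c r g = DSV - c DV = P (DSV* - (½ - c) DV*) = P GG (½ - c) r* g*`.
-/

namespace Pool.Agent.Lib.EPC

open Pool.Agent.Lib.EpZ Pool.Agent.Lib.EPS Pool.Agent.Lib.EPL

namespace DualAux

/-- the moments -/
noncomputable def S (i j : ℕ) (r g : ℝ) : ℝ := ∑' x : Fin 3 → ℤ, pp x ^ i * qq x ^ j * ex r g x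

lemma ex_eq (r g : ℝ) (x : Fin 3 → ℤ) :
    ex r g x = Real.exp (-(r * pp x)) * Real.exp (-(g * qq x)) := by
  unfold ex
  rw [← Real.exp_add]
  congr 1
  ring

lemma summable_S (i j : ℕ) {r g : ℝ} (hr : 0 < r) (hg : 0 < g) :
    Summable fun x : Fin 3 → ℤ => pp x ^ i * qq x ^ j * ex r g x := by
  obtain ⟨C1, hC1, h1⟩ := pow_exp i hr
  obtain ⟨C2, hC2, h2⟩ := pow_exp j hg
  refine Summable.of_nonneg_of_le (fun x => ?_) (fun x => ?_)
    ((summable_ex (half_pos hr) (half_pos hg)).mul_left (C1 * C2))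
  · have := pp_nonneg x
    have := qq_nonneg x
    have := ex_pos r g x
    positivity
  · rw [ex_eq, ex_eq]
    have hp := pp_nonneg x
    have hq := qq_nonneg x
    have e1 := h1 (pp x) hp
    have e2 := h2 (qq x) hq
    calc pp x ^ i * qq x ^ j * (Real.exp (-(r * pp x)) * Real.exp (-(g * qq x)))
        = (pp x ^ i * Real.exp (-(r * pp x))) * (qq x ^ j * Real.exp (-(g * qq x))) := by ring
      _ ≤ (C1 * Real.exp (-(r / 2 * pp x))) * (C2 * Real.exp (-(g / 2 * qq x))) :=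
          mul_le_mul e1 e2 (by positivity) (by positivity)
      _ = _ := by ring

lemma ex_anti {r r' g g' : ℝ} (h : r' ≤ r) (h' : g' ≤ g) (x : Fin 3 → ℤ) :
    ex r g x ≤ ex r' g' x := by
  unfold ex
  refine Real.exp_le_exp.mpr ?_
  have h1 := mul_le_mul_of_nonneg_right h (pp_nonneg x)
  have h2 := mul_le_mul_of_nonneg_right h' (qq_nonneg x)
  linarith

lemma hasDeriv_r (i j : ℕ) {r g : ℝ} (hr : 0 < r) (hg : 0 < g) :
    HasDerivAt (fun r => S i j r g) (-S (i + 1) j r g) r := by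
  have key := hasDerivAt_tsum_of_isPreconnected (𝕜 := ℝ) (y := r) (y₀ := r) (t := Set.Ioi (r / 2))
    (g := fun (x : Fin 3 → ℤ) (r : ℝ) => pp x ^ i * qq x ^ j * ex r g x)
    (g' := fun (x : Fin 3 → ℤ) (r : ℝ) => pp x ^ i * qq x ^ j * (ex r g x * (-pp x)))
    (summable_S (i + 1) j (half_pos hr) hg) isOpen_Ioi isPreconnected_Ioi ?_ ?_ ?_
    (summable_S i j hr hg) ?_
  · unfold S
    convert! key using 1
    rw [← tsum_neg]
    refine tsum_congr fun x => ?_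
    ring
  · intro x s _
    refine HasDerivAt.const_mul _ ?_
    unfold ex
    refine HasDerivAt.exp ?_
    have h1 : HasDerivAt (fun s : ℝ => -(s * pp x + g * qq x)) (-(1 * pp x)) s :=
      (((hasDerivAt_id s).mul_const (pp x)).add_const (g * qq x)).neg
    simpa using h1
  · intro x s hs
    have hs' : r / 2 < s := hs
    have hp := pp_nonneg x
    have hq := qq_nonneg x
    have h1 := ex_anti hs'.le (le_refl g) x
    have h0 := ex_pos s g x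
    rw [Real.norm_eq_abs]
    have h2 : pp x ^ i * qq x ^ j * (ex s g x * -pp x) = -(pp x ^ (i + 1) * qq x ^ j * ex s g x) := by
      ring
    rw [h2, abs_neg, abs_of_nonneg (by positivity)]
    exact mul_le_mul_of_nonneg_left h1 (by positivity)
  · exact half_lt_self hr
  · exact half_lt_self hr

lemma hasDeriv_g (i j : ℕ) {r g : ℝ} (hr : 0 < r) (hg : 0 < g) :
    HasDerivAt (fun g => S i j r g) (-S i (j + 1) r g) g := by
  have key := hasDerivAt_tsum_of_isPreconnected (𝕜 := ℝ) (y := g) (y₀ := g) (t := Set.Ioi (g / 2))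
    (g := fun (x : Fin 3 → ℤ) (g : ℝ) => pp x ^ i * qq x ^ j * ex r g x)
    (g' := fun (x : Fin 3 → ℤ) (g : ℝ) => pp x ^ i * qq x ^ j * (ex r g x * (-qq x)))
    (summable_S i (j + 1) hr (half_pos hg)) isOpen_Ioi isPreconnected_Ioi ?_ ?_ ?_
    (summable_S i j hr hg) ?_
  · unfold S
    convert! key using 1
    rw [← tsum_neg]
    refine tsum_congr fun x => ?_
    ring
  · intro x s _
    refine HasDerivAt.const_mul _ ?_
    unfold ex
    refine HasDerivAt.exp ?_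
    have h1 : HasDerivAt (fun s : ℝ => -(r * pp x + s * qq x)) (-(1 * qq x)) s :=
      (((hasDerivAt_id s).mul_const (qq x)).const_add (r * pp x)).neg
    simpa using h1
  · intro x s hs
    have hs' : g / 2 < s := hs
    have hp := pp_nonneg x
    have hq := qq_nonneg x
    have h1 := ex_anti (le_refl r) hs'.le x
    have h0 := ex_pos r s x
    rw [Real.norm_eq_abs]
    have h2 : pp x ^ i * qq x ^ j * (ex r s x * -qq x) = -(pp x ^ i * qq x ^ (j + 1) * ex r s x) := by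
      ring
    rw [h2, abs_neg, abs_of_nonneg (by positivity)]
    exact mul_le_mul_of_nonneg_left h1 (by positivity)
  · exact half_lt_self hg
  · exact half_lt_self hg

/-- the unimodular substitution -/
def sub3 : (Fin 3 → ℤ) ≃ (Fin 3 → ℤ) where
  toFun y := ![y 1, y 0 + y 1 + y 2, y 1 + y 2]
  invFun x := ![x 1 - x 2, x 0, x 2 - x 0]
  left_inv y := by
    ext i
    fin_cases i <;> simp
  right_inv x := by
    ext i
    fin_cases i <;> simp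

lemma Qt_inv {a c : ℝ} (ha : 0 < a) (hc : 0 < c) : (Qt a c)⁻¹ =
    !![(a⁻¹ + c⁻¹) / 4, c⁻¹ / 4, a⁻¹ / 4; c⁻¹ / 4, (a⁻¹ + c⁻¹) / 4, a⁻¹ / 4;
      a⁻¹ / 4, a⁻¹ / 4, 2 * a⁻¹ / 4] := by
  refine Matrix.inv_eq_right_inv ?_
  ext i j
  fin_cases i <;> fin_cases j <;>
    simp [Qt, Matrix.mul_apply, Fin.sum_univ_three] <;> field_simp <;> ring

lemma qf_inv {r g : ℝ} (hr : 0 < r) (hg : 0 < g) (y : Fin 3 → ℤ) :
    Real.pi ^ 2 / (1 / 4) * qf (Qt r g)⁻¹ y =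
      2 * Real.pi ^ 2 / r * pp (sub3 y) + 4 * Real.pi ^ 2 / g * qq (sub3 y) := by
  rw [Qt_inv hr hg]
  unfold qf
  rw [qr_eq]
  simp only [Fin.sum_univ_three, pp, qq, rv, sub3, Equiv.coe_fn_mk]
  simp
  field_simp
  ring

/-- the constant -/
noncomputable def pc (r g : ℝ) : ℝ :=
  (Real.pi / (1 / 4)) ^ ((3 : ℝ) / 2) * (1 / 4) * r⁻¹ * g ^ (-(1 : ℝ) / 2)

lemma pc_pos {r g : ℝ} (hr : 0 < r) (hg : 0 < g) : 0 < pc r g := by
  have := Real.pi_pos
  unfold pc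
  positivity

lemma poisson {r g : ℝ} (hr : 0 < r) (hg : 0 < g) :
    S 0 0 r g = pc r g * S 0 0 (2 * Real.pi ^ 2 / r) (4 * Real.pi ^ 2 / g) := by
  have h := theta_dual (Qt_pd hr hg) (t := 1 / 4) (by norm_num)
  have h1 : S 0 0 r g = ∑' x : Fin 3 → ℤ, Real.exp (-(1 / 4 * qf (Qt r g) x)) := by
    unfold S
    refine tsum_congr fun x => ?_
    rw [qf_Qt]
    unfold ex
    simp only [pow_zero, one_mul]
    congr 2
    ring
  have h2 : S 0 0 (2 * Real.pi ^ 2 / r) (4 * Real.pi ^ 2 / g) =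
      ∑' y : Fin 3 → ℤ, Real.exp (-(Real.pi ^ 2 / (1 / 4) * qf (Qt r g)⁻¹ y)) := by
    unfold S
    rw [← sub3.tsum_eq]
    refine tsum_congr fun x => ?_
    rw [qf_inv hr hg]
    unfold ex
    simp only [pow_zero, one_mul]
  rw [h1, h2, h, Qt_det]
  congr 1
  unfold pc
  have h3 : (16 * r ^ 2 * g) ^ (-(1 : ℝ) / 2) = 1 / 4 * r⁻¹ * g ^ (-(1 : ℝ) / 2) := by
    rw [show 16 * r ^ 2 * g = (4 * r) ^ 2 * g by ring,
      Real.mul_rpow (by positivity) hg.le, ← Real.rpow_natCast (4 * r) 2,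
      ← Real.rpow_mul (by positivity)]
    have h4 : (4 * r) ^ (((2 : ℕ) : ℝ) * (-(1 : ℝ) / 2)) = 1 / 4 * r⁻¹ := by
      rw [show ((2 : ℕ) : ℝ) * (-(1 : ℝ) / 2) = -1 by norm_num, Real.rpow_neg_one, mul_inv]
      ring
    rw [h4]
  rw [h3]
  ring

lemma pc_r {r g : ℝ} (hr : 0 < r) : HasDerivAt (fun r => pc r g) (-(pc r g / r)) r := by
  unfold pc
  have h1 := ((hasDerivAt_inv hr.ne').const_mul
    ((Real.pi / (1 / 4)) ^ ((3 : ℝ) / 2) * (1 / 4))).mul_const (g ^ (-(1 : ℝ) / 2))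
  convert! h1 using 1
  field_simp

lemma pc_g {r g : ℝ} (hg : 0 < g) : HasDerivAt (fun g => pc r g) (-(pc r g / (2 * g))) g := by
  unfold pc
  have h1 := (Real.hasDerivAt_rpow_const (x := g) (p := -(1 : ℝ) / 2) (Or.inl hg.ne')).const_mul
    ((Real.pi / (1 / 4)) ^ ((3 : ℝ) / 2) * (1 / 4) * r⁻¹)
  convert! h1 using 1
  rw [Real.rpow_sub_one hg.ne']
  field_simp

lemma inv_d (c : ℝ) {r : ℝ} (hr : 0 < r) : HasDerivAt (fun r => c / r) (-(c / r / r)) r := by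
  have h1 := (hasDerivAt_inv hr.ne').const_mul c
  convert! h1 using 1
  field_simp

/-- derivative of the dual moments -/
lemma star_r (i j : ℕ) {r g : ℝ} (hr : 0 < r) (hg : 0 < g) :
    HasDerivAt (fun r => S i j (2 * Real.pi ^ 2 / r) (4 * Real.pi ^ 2 / g))
      (2 * Real.pi ^ 2 / r / r * S (i + 1) j (2 * Real.pi ^ 2 / r) (4 * Real.pi ^ 2 / g)) r := by
  have hpi := Real.pi_pos
  have h1 := hasDeriv_r i j (r := 2 * Real.pi ^ 2 / r) (g := 4 * Real.pi ^ 2 / g) (by positivity)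
    (by positivity)
  have h2 := h1.comp r (inv_d (2 * Real.pi ^ 2) hr)
  convert! h2 using 1
  ring

lemma star_g (i j : ℕ) {r g : ℝ} (hr : 0 < r) (hg : 0 < g) :
    HasDerivAt (fun g => S i j (2 * Real.pi ^ 2 / r) (4 * Real.pi ^ 2 / g))
      (4 * Real.pi ^ 2 / g / g * S i (j + 1) (2 * Real.pi ^ 2 / r) (4 * Real.pi ^ 2 / g)) g := by
  have hpi := Real.pi_pos
  have h1 := hasDeriv_g i j (r := 2 * Real.pi ^ 2 / r) (g := 4 * Real.pi ^ 2 / g) (by positivity)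
    (by positivity)
  have h2 := h1.comp g (inv_d (4 * Real.pi ^ 2) hg)
  convert! h2 using 1
  ring

/-- equality on a neighbourhood gives equality of derivatives -/
lemma deriv_eq {f h : ℝ → ℝ} {a b r : ℝ} (hr : 0 < r) (he : ∀ s, 0 < s → f s = h s)
    (hf : HasDerivAt f a r) (hh : HasDerivAt h b r) : a = b := by
  have h1 : f =ᶠ[nhds r] h := by
    filter_upwards [Ioi_mem_nhds hr] with s hs
    exact he s hs
  exact hf.unique (hh.congr_of_eventuallyEq h1)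

lemma E10 {r g : ℝ} (hr : 0 < r) (hg : 0 < g) : S 1 0 r g = pc r g / r *
    (S 0 0 (2 * Real.pi ^ 2 / r) (4 * Real.pi ^ 2 / g) -
      2 * Real.pi ^ 2 / r * S 1 0 (2 * Real.pi ^ 2 / r) (4 * Real.pi ^ 2 / g)) := by
  have h := deriv_eq hr (fun s hs => poisson hs hg) (hasDeriv_r 0 0 hr hg)
    ((pc_r hr).mul (star_r 0 0 hr hg))
  simp only [zero_add] at h
  linear_combination -h

lemma E01 {r g : ℝ} (hr : 0 < r) (hg : 0 < g) : S 0 1 r g = pc r g / g *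
    (1 / 2 * S 0 0 (2 * Real.pi ^ 2 / r) (4 * Real.pi ^ 2 / g) -
      4 * Real.pi ^ 2 / g * S 0 1 (2 * Real.pi ^ 2 / r) (4 * Real.pi ^ 2 / g)) := by
  have h := deriv_eq hg (fun s hs => poisson hr hs) (hasDeriv_g 0 0 hr hg)
    ((pc_g hg).mul (star_g 0 0 hr hg))
  simp only [zero_add] at h
  have h2 : pc r g / (2 * g) = pc r g / g * (1 / 2) := by field_simp
  rw [h2] at h
  linear_combination -h

lemma E20 {r g : ℝ} (hr : 0 < r) (hg : 0 < g) : r ^ 2 * S 2 0 r g = pc r g *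
    (2 * S 0 0 (2 * Real.pi ^ 2 / r) (4 * Real.pi ^ 2 / g) -
      4 * (2 * Real.pi ^ 2 / r * S 1 0 (2 * Real.pi ^ 2 / r) (4 * Real.pi ^ 2 / g)) +
      (2 * Real.pi ^ 2 / r) ^ 2 * S 2 0 (2 * Real.pi ^ 2 / r) (4 * Real.pi ^ 2 / g)) := by
  have h := deriv_eq hr (fun s hs => E10 hs hg) (hasDeriv_r 1 0 hr hg)
    (((pc_r hr).mul (hasDerivAt_inv hr.ne')).mul ((star_r 0 0 hr hg).sub
      ((inv_d (2 * Real.pi ^ 2) hr).mul (star_r 1 0 hr hg))))
  simp only [zero_add, Nat.reduceAdd, Pi.mul_apply] at h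
  generalize S 0 0 (2 * Real.pi ^ 2 / r) (4 * Real.pi ^ 2 / g) = v at h ⊢
  generalize S 1 0 (2 * Real.pi ^ 2 / r) (4 * Real.pi ^ 2 / g) = a at h ⊢
  generalize S 2 0 (2 * Real.pi ^ 2 / r) (4 * Real.pi ^ 2 / g) = b at h ⊢
  generalize S 2 0 r g = d at h ⊢
  generalize pc r g = p at h ⊢
  have h2 : d = -(-d) := by ring
  rw [h2, h]
  field_simp
  ring

lemma E11 {r g : ℝ} (hr : 0 < r) (hg : 0 < g) : r * g * S 1 1 r g = pc r g *
    (1 / 2 * S 0 0 (2 * Real.pi ^ 2 / r) (4 * Real.pi ^ 2 / g) -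
      1 / 2 * (2 * Real.pi ^ 2 / r * S 1 0 (2 * Real.pi ^ 2 / r) (4 * Real.pi ^ 2 / g)) -
      4 * Real.pi ^ 2 / g * S 0 1 (2 * Real.pi ^ 2 / r) (4 * Real.pi ^ 2 / g) +
      2 * Real.pi ^ 2 / r * (4 * Real.pi ^ 2 / g) *
        S 1 1 (2 * Real.pi ^ 2 / r) (4 * Real.pi ^ 2 / g)) := by
  have h := deriv_eq hg (fun s hs => E10 hr hs) (hasDeriv_g 1 0 hr hg)
    (((pc_g hg).mul_const r⁻¹).mul ((star_g 0 0 hr hg).sub
      ((star_g 1 0 hr hg).const_mul (2 * Real.pi ^ 2 / r))))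
  simp only [zero_add] at h
  generalize S 0 0 (2 * Real.pi ^ 2 / r) (4 * Real.pi ^ 2 / g) = v at h ⊢
  generalize S 1 0 (2 * Real.pi ^ 2 / r) (4 * Real.pi ^ 2 / g) = a at h ⊢
  generalize S 0 1 (2 * Real.pi ^ 2 / r) (4 * Real.pi ^ 2 / g) = a' at h ⊢
  generalize S 1 1 (2 * Real.pi ^ 2 / r) (4 * Real.pi ^ 2 / g) = b at h ⊢
  generalize S 1 1 r g = d at h ⊢
  generalize pc r g = p at h ⊢
  have h2 : d = -(-d) := by ring
  rw [h2, h]
  field_simp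
  ring

lemma E02 {r g : ℝ} (hr : 0 < r) (hg : 0 < g) : g ^ 2 * S 0 2 r g = pc r g *
    (3 / 4 * S 0 0 (2 * Real.pi ^ 2 / r) (4 * Real.pi ^ 2 / g) -
      3 * (4 * Real.pi ^ 2 / g * S 0 1 (2 * Real.pi ^ 2 / r) (4 * Real.pi ^ 2 / g)) +
      (4 * Real.pi ^ 2 / g) ^ 2 * S 0 2 (2 * Real.pi ^ 2 / r) (4 * Real.pi ^ 2 / g)) := by
  have h := deriv_eq hg (fun s hs => E01 hr hs) (hasDeriv_g 0 1 hr hg)
    (((pc_g hg).mul (hasDerivAt_inv hg.ne')).mul (((star_g 0 0 hr hg).const_mul (1 / 2)).sub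
      ((inv_d (4 * Real.pi ^ 2) hg).mul (star_g 0 1 hr hg))))
  simp only [zero_add, Nat.reduceAdd, Pi.mul_apply] at h
  generalize S 0 0 (2 * Real.pi ^ 2 / r) (4 * Real.pi ^ 2 / g) = v at h ⊢
  generalize S 0 1 (2 * Real.pi ^ 2 / r) (4 * Real.pi ^ 2 / g) = a at h ⊢
  generalize S 0 2 (2 * Real.pi ^ 2 / r) (4 * Real.pi ^ 2 / g) = b at h ⊢
  generalize S 0 2 r g = d at h ⊢
  generalize pc r g = p at h ⊢
  have h2 : d = -(-d) := by ring
  rw [h2, h]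
  field_simp
  ring

lemma GG_S (c : ℝ) {r g : ℝ} (hr : 0 < r) (hg : 0 < g) : GG c r g =
    r ^ 2 * S 2 0 r g - 3 * (r * g * S 1 1 r g) + 2 * (g ^ 2 * S 0 2 r g) - r * S 1 0 r g -
      2 * (g * S 0 1 r g) - c * (r * S 1 0 r g - 2 * (g * S 0 1 r g)) := by
  have s20 := (summable_S 2 0 hr hg).hasSum.mul_left (r ^ 2)
  have s11 := (summable_S 1 1 hr hg).hasSum.mul_left (-(3 * (r * g)))
  have s02 := (summable_S 0 2 hr hg).hasSum.mul_left (2 * g ^ 2)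
  have s10 := (summable_S 1 0 hr hg).hasSum.mul_left (-(r * (1 + c)))
  have s01 := (summable_S 0 1 hr hg).hasSum.mul_left (g * (2 * c - 2))
  have h := (((s20.add s11).add s02).add s10).add s01
  unfold GG
  have h2 := h.tsum_eq
  rw [← show (∑' x : Fin 3 → ℤ, (r ^ 2 * (pp x ^ 2 * qq x ^ 0 * ex r g x) +
      -(3 * (r * g)) * (pp x ^ 1 * qq x ^ 1 * ex r g x) +
      2 * g ^ 2 * (pp x ^ 0 * qq x ^ 2 * ex r g x) +
      -(r * (1 + c)) * (pp x ^ 1 * qq x ^ 0 * ex r g x) +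
      g * (2 * c - 2) * (pp x ^ 0 * qq x ^ 1 * ex r g x))) =
      ∑' x : Fin 3 → ℤ, ((r * pp x - 2 * (g * qq x)) * (r * pp x - g * qq x) -
        (r * pp x + 2 * (g * qq x)) - c * (r * pp x - 2 * (g * qq x))) * ex r g x from
      tsum_congr fun x => by ring]
  rw [h2]
  unfold S
  ring

end DualAux

theorem GG_dual {r g : ℝ} (hr : 0 < r) (hg : 0 < g) (c : ℝ) :
    ∃ P : ℝ, 0 < P ∧
      GG c r g = P * GG (1 / 2 - c) (2 * Real.pi ^ 2 / r) (4 * Real.pi ^ 2 / g) := by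
  have hpi := Real.pi_pos
  refine ⟨DualAux.pc r g, DualAux.pc_pos hr hg, ?_⟩
  rw [DualAux.GG_S c hr hg, DualAux.GG_S (1 / 2 - c) (r := 2 * Real.pi ^ 2 / r)
    (g := 4 * Real.pi ^ 2 / g) (by positivity) (by positivity), DualAux.E20 hr hg,
    DualAux.E11 hr hg, DualAux.E02 hr hg]
  have h10 : r * DualAux.S 1 0 r g = DualAux.pc r g *
      (DualAux.S 0 0 (2 * Real.pi ^ 2 / r) (4 * Real.pi ^ 2 / g) -
        2 * Real.pi ^ 2 / r * DualAux.S 1 0 (2 * Real.pi ^ 2 / r) (4 * Real.pi ^ 2 / g)) := by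
    rw [DualAux.E10 hr hg]
    field_simp
  have h01 : g * DualAux.S 0 1 r g = DualAux.pc r g *
      (1 / 2 * DualAux.S 0 0 (2 * Real.pi ^ 2 / r) (4 * Real.pi ^ 2 / g) -
        4 * Real.pi ^ 2 / g * DualAux.S 0 1 (2 * Real.pi ^ 2 / r) (4 * Real.pi ^ 2 / g)) := by
    rw [DualAux.E01 hr hg]
    field_simp
  rw [h10, h01]
  ring

end Pool.Agent.Lib.EPC
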