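import Pool.Agent.Lib.EPC.Tree

/-!
# The cells of the fcc side (kernel computation)
-/

namespace Pool.Agent.Lib.EPC

set_option maxRecDepth 100000

theorem rowsF0 : rows tF 1 0 = true := by decide +kernel

theorem rowsF1 : rows tF 1 1 = true := by decide +kernel

theorem rowsF2 : rows tF 2 2 = true := by decide +kernel

theorem rowsF4 : rows tF 12 4 = true := by decide +kernel

end Pool.Agent.Lib.EPC
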