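import Pool.Agent.Lib.EPC.TreeB
import Pool.Agent.Lib.EPC.TreeF
import Pool.Agent.Lib.EPH.Num

/-!
# The far region and the two main inequalities
-/

namespace Pool.Agent.Lib.EPC

theorem cB_le {r y : ℝ} (hr : 0 < r) (hy : 0 ≤ y) (hyr : 2 * y ≤ r) : cB r y ≤ 15 / 2 := by
  unfold cB
  have h1 : y / r ≤ 1 / 2 := by rw [div_le_div_iff₀ hr (by norm_num)]; linarith
  have h2 : y / (r - y) ≤ 1 := by rw [div_le_one (by linarith)]; linarith
  have h3 : y / (r + y) ≤ 1 / 3 := by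
    rw [div_le_div_iff₀ (by linarith) (by norm_num)]; linarith
  linarith

theorem cF_le {r z : ℝ} (hr : 0 < r) (hzr : 2 * z ≤ r) : cF r z ≤ 9 / 2 := by
  unfold cF
  have h1 : z / r ≤ 1 / 2 := by rw [div_le_div_iff₀ hr (by norm_num)]; linarith
  have h2 : z / (r - z) ≤ 1 := by rw [div_le_one (by linarith)]; linarith
  have h3 : z / (2 * r - z) ≤ 1 / 3 := by
    rw [div_le_div_iff₀ (by linarith) (by norm_num)]; linarith
  linarith

theorem exp4_ge : (109 / 2 : ℝ) ≤ Real.exp 4 := by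
  have h1 := Real.exp_one_gt_d9
  have h2 : Real.exp 4 = Real.exp 1 ^ 4 := by rw [← Real.exp_nat_mul]; norm_num
  rw [h2]
  calc (109 / 2 : ℝ) ≤ 2.7182818283 ^ 4 := by norm_num
    _ ≤ Real.exp 1 ^ 4 := pow_le_pow_left₀ (by norm_num) h1.le 4

theorem exp8_ge {r : ℝ} (hr : 32 ≤ r) : 109 / 2 * (r / 8 - 3) ≤ Real.exp (r / 8) := by
  have h1 := Real.add_one_le_exp (r / 8 - 4)
  have h2 : Real.exp (r / 8) = Real.exp 4 * Real.exp (r / 8 - 4) := by
    rw [← Real.exp_add]; congr 1; ring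
  rw [h2]
  have h3 : r / 8 - 3 ≤ Real.exp (r / 8 - 4) := by linarith
  exact mul_le_mul exp4_ge h3 (by linarith) (Real.exp_pos _).le

theorem exp16_le : Real.exp (-16) ≤ 1 / 8000000 := by
  have h := EPH.exp_neg_nat 16
  push_cast at h
  refine h.trans ?_
  norm_num

/-- `r e^{-r/2}` and `r² e^{-r/2}` are small -/
theorem small_exp {r : ℝ} (hr : 32 ≤ r) :
    Real.exp (-(1 / 2 * r)) ≤ 1 / 8000000 ∧ r * Real.exp (-(1 / 2 * r)) ≤ 1 / 250000 ∧
      r * (r * Real.exp (-(1 / 2 * r))) ≤ 1 / 5000 := by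
  have h0 : Real.exp (-(1 / 2 * r)) ≤ 1 / 8000000 :=
    (Real.exp_le_exp.mpr (by linarith)).trans exp16_le
  have h1 : r * Real.exp (-(1 / 2 * r)) ≤ 32 * Real.exp (-(1 / 2 * 32)) :=
    EPH.mul_exp_anti (by norm_num) (by norm_num) hr
  have h2 : Real.exp (-(1 / 2 * 32 : ℝ)) ≤ 1 / 8000000 := by
    have : (-(1 / 2 * 32) : ℝ) = -16 := by norm_num
    rw [this]; exact exp16_le
  have h3 : r * Real.exp (-(1 / 4 * r)) ≤ 32 * Real.exp (-(1 / 4 * 32)) :=
    EPH.mul_exp_anti (by norm_num) (by norm_num) hr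
  have h4 : r * (r * Real.exp (-(1 / 2 * r))) =
      (r * Real.exp (-(1 / 4 * r))) * (r * Real.exp (-(1 / 4 * r))) := by
    have : Real.exp (-(1 / 2 * r)) = Real.exp (-(1 / 4 * r)) * Real.exp (-(1 / 4 * r)) := by
      rw [← Real.exp_add]; congr 1; ring
    rw [this]; ring
  have h5 : Real.exp (-(1 / 4 * 32 : ℝ)) * Real.exp (-(1 / 4 * 32 : ℝ)) =
      Real.exp (-(1 / 2 * 32 : ℝ)) := by
    rw [← Real.exp_add]; congr 1; ring
  refine ⟨h0, by linarith, ?_⟩
  rw [h4]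
  have h6 : 0 ≤ r * Real.exp (-(1 / 4 * r)) := by
    have : 0 ≤ r := by linarith
    positivity
  have h7 := mul_le_mul h3 h3 h6 (h6.trans h3)
  have h8 : (32 * Real.exp (-(1 / 4 * 32 : ℝ))) * (32 * Real.exp (-(1 / 4 * 32 : ℝ))) =
      1024 * Real.exp (-(1 / 2 * 32 : ℝ)) := by rw [← h5]; ring
  rw [h8] at h7
  linarith

theorem farB {r y : ℝ} (hr : 32 ≤ r) (hy : 0 ≤ y) (hyr : 2 * y ≤ r) :
    1 / 10 < mB (cB r y - 1 / 4) r y := by
  have hr0 : 0 < r := by linarith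
  have hc := cB_nonneg hr0 hy (by linarith : y < r)
  have hge := mB_ge (c := cB r y) hc hr0 hy
  obtain ⟨s0, s1, s2⟩ := small_exp hr
  -- the functions
  have hph : ph y ≤ 1 := by rw [← ph_zero]; exact ph_anti hy
  have hph9 : ph (9 / 4 * y) ≤ 1 := by rw [← ph_zero]; exact ph_anti (by positivity)
  have pph := ph_pos y
  have pph9 := ph_pos (9 / 4 * y)
  have pka := mul_nonneg hy (ka_pos y).le
  have hth := th_le hy
  have he := Real.exp_pos (-y)
  have he1 : Real.exp (-y) ≤ 1 := Real.exp_le_one_iff.mpr (by linarith)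
  have hye : y * Real.exp (-y) ≤ 1 := by
    have h1 := Real.add_one_le_exp y
    have h2 : Real.exp y * Real.exp (-y) = 1 := by rw [← Real.exp_add]; simp
    nlinarith
  have hw : Real.exp (-r) ≤ Real.exp (-(1 / 2 * r)) := Real.exp_le_exp.mpr (by linarith)
  have hw0 := Real.exp_pos (-r)
  have hw7 : Real.exp (-(7 / 4 * r)) ≤ Real.exp (-(1 / 2 * r)) :=
    Real.exp_le_exp.mpr (by linarith)
  have hw70 := Real.exp_pos (-(7 / 4 * r))
  have hE : Real.exp (r / 8) ≤ Real.exp ((r - y) / 4) := Real.exp_le_exp.mpr (by linarith)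
  have hE8 := exp8_ge hr
  set E := Real.exp ((r - y) / 4) with hEd
  set w := Real.exp (-r) with hwd
  set w7 := Real.exp (-(7 / 4 * r)) with hw7d
  set h2 := Real.exp (-(1 / 2 * r)) with hh2
  have rw1 : r * w ≤ 1 / 250000 := (mul_le_mul_of_nonneg_left hw hr0.le).trans s1
  have rw7 : r * w7 ≤ 1 / 250000 := (mul_le_mul_of_nonneg_left hw7 hr0.le).trans s1
  have rrw : r * (r * w) ≤ 1 / 5000 :=
    (mul_le_mul_of_nonneg_left (mul_le_mul_of_nonneg_left hw hr0.le) hr0.le).trans s2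
  have rrw7 : r * (r * w7) ≤ 1 / 5000 :=
    (mul_le_mul_of_nonneg_left (mul_le_mul_of_nonneg_left hw7 hr0.le) hr0.le).trans s2
  have hEr : 109 / 2 * (r / 8 - 3) ≤ E := hE8.trans hE
  -- the coefficient
  have c1 : 0 ≤ (4 * E + 4 * Real.exp (-y) + 8 * w * (2 * Real.exp (-y))) -
      (4 * (r * ph y) + 8 * w * (r * ph y) + 18 * w7 * (4 * (r * ph (9 / 4 * y)))) := by
    have k1 : r * ph y ≤ r := by nlinarith
    have k2 : 8 * w * (r * ph y) ≤ 8 * (r * w) := by
      have : w * (r * ph y) ≤ w * r := mul_le_mul_of_nonneg_left k1 hw0.le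
      linarith
    have k3 : 18 * w7 * (4 * (r * ph (9 / 4 * y))) ≤ 72 * (r * w7) := by
      have k4 : r * ph (9 / 4 * y) ≤ r := by nlinarith
      have : w7 * (r * ph (9 / 4 * y)) ≤ w7 * r := mul_le_mul_of_nonneg_left k4 hw70.le
      linarith
    have k5 : 0 ≤ 8 * w * (2 * Real.exp (-y)) := by positivity
    nlinarith
  have c2 := mul_nonneg hc c1
  -- the rest
  have p1 : (r / 2 - 1) * (109 / 2 * (r / 8 - 3)) ≤ (r - y - 1) * E :=
    mul_le_mul (by linarith) hEr (by nlinarith) (by linarith)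
  have p2 : 0 ≤ 9 * (r * (y * ka y)) := by positivity
  have p3 : 0 ≤ r * Real.exp (-y) := by positivity
  have p4 : 0 ≤ 8 * w * (9 * (r * (y * ka y)) / 4 + 5 * (r * Real.exp (-y)) / 4) := by positivity
  have n1 : 4 * (r * (r * (y * ta y))) ≤ 3 / 5 * r ^ 2 := by
    have : r * (r * (y * ta y)) ≤ r * (r * (3 / 20)) :=
      mul_le_mul_of_nonneg_left (mul_le_mul_of_nonneg_left hth hr0.le) hr0.le
    nlinarith
  have n2 : 8 * w * (r * (r * (ph y + y * ta y)) + 2 * (y * Real.exp (-y)) +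
      Real.exp (-y) / 2) ≤ 1 := by
    have k1 : r * (r * (ph y + y * ta y)) ≤ r * (r * (23 / 20)) :=
      mul_le_mul_of_nonneg_left (mul_le_mul_of_nonneg_left (by linarith) hr0.le) hr0.le
    have k2 : w * (r * (r * (ph y + y * ta y)) + 2 * (y * Real.exp (-y)) + Real.exp (-y) / 2) ≤
        w * (r * (r * (23 / 20)) + 5 / 2) := mul_le_mul_of_nonneg_left (by linarith) hw0.le
    have k3 : w * (r * (r * (23 / 20)) + 5 / 2) = 23 / 20 * (r * (r * w)) + 5 / 2 * w := by ring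
    have k4 : w ≤ 1 / 8000000 := hw.trans s0
    linarith
  have n3 : 18 * w7 * (r * (r * (2 * ph (9 / 4 * y) + 27 / 20)) +
        9 * (y * Real.exp (-y)) / 2 + Real.exp (-y) / 2) ≤ 1 := by
    have k1 : r * (r * (2 * ph (9 / 4 * y) + 27 / 20)) ≤ r * (r * (67 / 20)) :=
      mul_le_mul_of_nonneg_left (mul_le_mul_of_nonneg_left (by linarith) hr0.le) hr0.le
    have k2 : w7 * (r * (r * (2 * ph (9 / 4 * y) + 27 / 20)) +
        9 * (y * Real.exp (-y)) / 2 + Real.exp (-y) / 2) ≤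
        w7 * (r * (r * (67 / 20)) + 5) := mul_le_mul_of_nonneg_left (by linarith) hw70.le
    have k3 : w7 * (r * (r * (67 / 20)) + 5) = 67 / 20 * (r * (r * w7)) + 5 * w7 := by ring
    have k4 : w7 ≤ 1 / 8000000 := hw7.trans s0
    linarith
  have fin : 3 / 5 * r ^ 2 + 1 + 4 + 1 + 1 + 1 < (r / 2 - 1) * (109 / 2 * (r / 8 - 3)) := by
    nlinarith
  linarith

theorem farF {r z : ℝ} (hr : 32 ≤ r) (hz : 0 ≤ z) (hzr : 2 * z ≤ r) :
    mF (cF r z + 1 / 4) r z < -(3 / 5) := by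
  have hr0 : 0 < r := by linarith
  have hc := cF_nonneg hr0 hz (by linarith : z < r)
  have hc' := cF_le hr0 hzr
  obtain ⟨s0, s1, s2⟩ := small_exp hr
  rw [mF_eq]
  have hchi := chi_ineq (v := z / 4) (by positivity)
  have hps : 1 ≤ ph (-(z / 4)) := by rw [← ph_zero]; exact ph_anti (by linarith)
  have hkap := ka_pos (-z)
  have pphz := ph_pos (-z)
  have ptaz := ta_pos (-z)
  have hEz := Real.exp_pos z
  have hEv := Real.exp_pos (z / 4)
  have hv1 : 1 ≤ Real.exp (z / 4) := Real.one_le_exp (by positivity)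
  -- functions at `-z`
  have f1 : ph (-z) ≤ Real.exp z := by
    rw [ph_neg]
    have : ph z ≤ 1 := by rw [← ph_zero]; exact ph_anti hz
    nlinarith
  have f2 : z * ta (-z) ≤ 3 / 20 * Real.exp z := by
    rw [ta_neg]
    have := th_le hz
    nlinarith
  have f3 : 0 ≤ z * ka (-z) := by positivity
  have g0 : Real.exp (-r) * Real.exp z ≤ Real.exp (-(1 / 2 * r)) := by
    rw [← Real.exp_add]
    exact Real.exp_le_exp.mpr (by linarith)
  have g1 : Real.exp (-(2 * r)) * Real.exp z ≤ Real.exp (-(1 / 2 * r)) := by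
    rw [← Real.exp_add]
    exact Real.exp_le_exp.mpr (by linarith)
  have w0 := Real.exp_pos (-r)
  have W0 := Real.exp_pos (-(2 * r))
  set c := cF r z + 1 / 4 with hcd
  set w := Real.exp (-r) with hw
  set W := Real.exp (-(2 * r)) with hW
  set e := Real.exp z with he
  set v := Real.exp (z / 4) with hv
  set q := Real.exp (-(1 / 2 * r)) with hq
  set ψ := ph (-(z / 4)) with hψ
  have hcpos : 0 ≤ c := by rw [hcd]; linarith
  have hcle : c ≤ 19 / 4 := by rw [hcd]; linarith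
  -- the coefficient
  have k1 : 2 * w * (4 * (r * ph (-z))) + 8 * W * (3 * (r * ph (-z))) ≤ 32 * (r * q) := by
    have a1 : w * ph (-z) ≤ q := (mul_le_mul_of_nonneg_left f1 w0.le).trans g0
    have a2 : W * ph (-z) ≤ q := (mul_le_mul_of_nonneg_left f1 W0.le).trans g1
    have a3 : r * (w * ph (-z)) ≤ r * q := mul_le_mul_of_nonneg_left a1 hr0.le
    have a4 : r * (W * ph (-z)) ≤ r * q := mul_le_mul_of_nonneg_left a2 hr0.le
    nlinarith
  have k2 : c * (2 * w * (4 * (r * ph (-z))) + 8 * W * (3 * (r * ph (-z)))) ≤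
      152 * (r * q) := by
    have a1 : 0 ≤ 2 * w * (4 * (r * ph (-z))) + 8 * W * (3 * (r * ph (-z))) := by positivity
    have a2 := mul_le_mul hcle k1 a1 (by norm_num)
    linarith
  have k3 : c * (r * ψ) ≤ 19 / 4 * (r * ψ) :=
    mul_le_mul_of_nonneg_right hcle (by positivity)
  have k4 : 0 ≤ c * (4 * v + 2 * w * (2 * e) + 8 * W * (2 * e)) := by positivity
  -- the positive part
  have k5 : 2 * w * (8 * (r * (r * (z * ta (-z)))) + 2 * (z * e)) ≤
      12 / 5 * (r * (r * q)) + 2 * (r * q) := by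
    have a1 : w * (z * ta (-z)) ≤ 3 / 20 * q := by
      have := mul_le_mul_of_nonneg_left f2 w0.le
      have a2 : w * (3 / 20 * e) = 3 / 20 * (w * e) := by ring
      linarith
    have a3 : r * (r * (w * (z * ta (-z)))) ≤ r * (r * (3 / 20 * q)) :=
      mul_le_mul_of_nonneg_left (mul_le_mul_of_nonneg_left a1 hr0.le) hr0.le
    have a4 : z * (w * e) ≤ r / 2 * q :=
      mul_le_mul (by linarith) g0 (by positivity) (by linarith)
    nlinarith
  have k6 : 8 * W * (6 * (r * (r * (z * ta (-z)))) + (r * e + 2 * (z * e))) ≤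
      36 / 5 * (r * (r * q)) + 16 * (r * q) := by
    have a1 : W * (z * ta (-z)) ≤ 3 / 20 * q := by
      have := mul_le_mul_of_nonneg_left f2 W0.le
      have a2 : W * (3 / 20 * e) = 3 / 20 * (W * e) := by ring
      linarith
    have a3 : r * (r * (W * (z * ta (-z)))) ≤ r * (r * (3 / 20 * q)) :=
      mul_le_mul_of_nonneg_left (mul_le_mul_of_nonneg_left a1 hr0.le) hr0.le
    have a4 : z * (W * e) ≤ r / 2 * q :=
      mul_le_mul (by linarith) g1 (by positivity) (by linarith)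
    have a5 : r * (W * e) ≤ r * q := mul_le_mul_of_nonneg_left g1 hr0.le
    nlinarith
  -- the negative part
  have k7 : 0 ≤ 2 * w * (8 * (r * (z * ka (-z)))) := by positivity
  have k8 : 0 ≤ 8 * W * (3 * (r * (r * ph (-z))) + 6 * (r * (z * ka (-z)))) := by positivity
  have k9 : z * v ≤ r / 2 * v := mul_le_mul_of_nonneg_right (by linarith) hEv.le
  -- the main comparison
  have hχ0 : 0 ≤ ψ - ka (-(z / 4)) := by
    have := ka_le_ph (-(z / 4))
    linarith
  have k10 : 7 * (r * ψ) ≤ r * (r * (ψ - ka (-(z / 4)))) + r * v / 2 := by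
    have a1 : 32 * (ψ - ka (-(z / 4))) ≤ r * (ψ - ka (-(z / 4))) :=
      mul_le_mul_of_nonneg_right hr hχ0
    have a2 : 7 * ψ ≤ r * (ψ - ka (-(z / 4))) + v / 2 := by linarith
    have := mul_le_mul_of_nonneg_left a2 hr0.le
    linarith
  have k11 : r ≤ r * ψ := by nlinarith
  nlinarith

theorem rows_get {t : ℕ → ℕ → ℕ → ℕ → Bool} : ∀ n J : ℕ, rows t n J = true →
    ∀ J', J ≤ J' → J' < J + n → ∀ I < 32, tree t 5 (32 * I) (32 * J') = true := by
  intro n
  induction n with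
  | zero => intro J _ J' h1 h2; omega
  | succ n ih =>
    intro J h J' h1 h2 I hI
    have e : rows t (n + 1) J =
        ((List.range 32).all (fun I => tree t 5 (32 * I) (32 * J)) && rows t n (J + 1)) := rfl
    rw [e, Bool.and_eq_true] at h
    rcases Nat.eq_or_lt_of_le h1 with h3 | h3
    · subst h3
      have h4 := List.all_eq_true.mp h.1 I (List.mem_range.mpr hI)
      exact h4
    · exact ih (J + 1) h.2 J' h3 (by omega) I hI

theorem cover {t : ℕ → ℕ → ℕ → ℕ → Bool} {G : ℝ → ℝ → Prop}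
    (ht : ∀ i0 i1 j0 j1, t i0 i1 j0 j1 = true → ∀ r y : ℝ, (i0 : ℝ) / 32 ≤ r → r ≤ (i1 : ℝ) / 32 →
      (j0 : ℝ) / 32 ≤ y → y ≤ (j1 : ℝ) / 32 → G r y)
    (h0 : rows t 1 0 = true) (h1 : rows t 1 1 = true) (h2 : rows t 2 2 = true)
    (h4 : rows t 12 4 = true) {r y : ℝ} (hr : 0 ≤ r) (hr32 : r < 32) (hy : 0 ≤ y)
    (hyr : 2 * y ≤ r) : G r y := by
  set I := ⌊r⌋₊ with hI
  set J := ⌊y⌋₊ with hJ
  have a1 : (I : ℝ) ≤ r := Nat.floor_le hr
  have a2 : r < (I : ℝ) + 1 := Nat.lt_floor_add_one r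
  have b1 : (J : ℝ) ≤ y := Nat.floor_le hy
  have b2 : y < (J : ℝ) + 1 := Nat.lt_floor_add_one y
  have hI32 : I < 32 := by
    have : (I : ℝ) < 32 := by linarith
    exact_mod_cast this
  have hJ16 : J < 16 := by
    have : (J : ℝ) < 16 := by linarith
    exact_mod_cast this
  have hT : tree t 5 (32 * I) (32 * J) = true := by
    rcases Nat.lt_or_ge J 1 with c | c
    · exact rows_get 1 0 h0 J (by omega) (by omega) I hI32
    rcases Nat.lt_or_ge J 2 with c2 | c2
    · exact rows_get 1 1 h1 J (by omega) (by omega) I hI32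
    rcases Nat.lt_or_ge J 4 with c3 | c3
    · exact rows_get 2 2 h2 J (by omega) (by omega) I hI32
    · exact rows_get 12 4 h4 J (by omega) (by omega) I hI32
  refine tree_sound ht 5 (32 * I) (32 * J) hT r y ?_ ?_ ?_ ?_
  · push_cast; linarith
  · push_cast; linarith
  · push_cast; linarith
  · push_cast; linarith

/-- the main inequality of the bcc side -/
theorem mainB {r y : ℝ} (hr : 0 < r) (hy : 0 ≤ y) (hyr : 2 * y ≤ r)
    (hreg : 124 ≤ r ^ 2 * (r + y)) : 1 / 10 < mB (cB r y - 1 / 4) r y := by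
  rcases le_or_gt 32 r with h32 | h32
  · exact farB h32 hy hyr
  · have h := cover (t := tB) (G := fun r y => 2 * y ≤ r → 124 ≤ r ^ 2 * (r + y) →
      1 / 10 < mB (cB r y - 1 / 4) r y)
      (fun i0 i1 j0 j1 h r y h1 h2 h3 h4 h5 h6 => tB_sound i0 i1 j0 j1 h r y h1 h2 h3 h4 h5 h6)
      rowsB0 rowsB1 rowsB2 rowsB4 hr.le h32 hy hyr
    exact h hyr hreg

/-- the main inequality of the fcc side -/
theorem mainF {r z : ℝ} (hr : 0 < r) (hz : 0 ≤ z) (hzr : 2 * z ≤ r)
    (hreg : 124 ≤ r ^ 2 * (2 * r - z)) : mF (cF r z + 1 / 4) r z < -(3 / 5) := by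
  rcases le_or_gt 32 r with h32 | h32
  · exact farF h32 hz hzr
  · have h := cover (t := tF) (G := fun r z => 2 * z ≤ r → 124 ≤ r ^ 2 * (2 * r - z) →
      mF (cF r z + 1 / 4) r z < -(3 / 5))
      (fun i0 i1 j0 j1 h r y h1 h2 h3 h4 h5 h6 => tF_sound i0 i1 j0 j1 h r y h1 h2 h3 h4 h5 h6)
      rowsF0 rowsF1 rowsF2 rowsF4 hr.le h32 hz hzr
    exact h hzr hreg

end Pool.Agent.Lib.EPC
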