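import Pool.Agent.Lib.EPC.FnD

/-!
# Fixed point numbers

Natural numbers with the scale `ONE = 2 ^ 50`; `U X a`: `a` is an upper bound of `X`, `L X a`: `a` is a
lower bound.
-/

namespace Pool.Agent.Lib.EPC

/-- the scale -/
def ONE : ℕ := 1125899906842624

theorem ONE_pos : (0 : ℝ) < (ONE : ℕ) := by
  unfold ONE; norm_num

/-- upper bound -/
def U (X : ℝ) (a : ℕ) : Prop := X * (ONE : ℕ) ≤ (a : ℝ)

/-- lower bound -/
def L (X : ℝ) (a : ℕ) : Prop := (a : ℝ) ≤ X * (ONE : ℕ)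

theorem U.mono {X Y : ℝ} {a : ℕ} (h : U X a) (hY : Y ≤ X) : U Y a :=
  (mul_le_mul_of_nonneg_right hY ONE_pos.le).trans h

theorem L.mono {X Y : ℝ} {a : ℕ} (h : L X a) (hY : X ≤ Y) : L Y a :=
  h.trans (mul_le_mul_of_nonneg_right hY ONE_pos.le)

theorem U.add {X Y : ℝ} {a b : ℕ} (h : U X a) (h' : U Y b) : U (X + Y) (a + b) := by
  unfold U at *; push_cast; linarith

theorem L.add {X Y : ℝ} {a b : ℕ} (h : L X a) (h' : L Y b) : L (X + Y) (a + b) := by
  unfold L at *; push_cast; linarith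

theorem U.nmul {X : ℝ} {a : ℕ} (n : ℕ) (h : U X a) : U (n * X) (n * a) := by
  unfold U at *; push_cast
  have := mul_le_mul_of_nonneg_left h (Nat.cast_nonneg (α := ℝ) n)
  linarith

theorem L.nmul {X : ℝ} {a : ℕ} (n : ℕ) (h : L X a) : L (n * X) (n * a) := by
  unfold L at *; push_cast
  have := mul_le_mul_of_nonneg_left h (Nat.cast_nonneg (α := ℝ) n)
  linarith

theorem U.pos_of {X : ℝ} {a : ℕ} (h : U X a) (hX : 0 < X) : 0 < a := by
  unfold U at h
  have h1 := mul_pos hX ONE_pos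
  have h2 : (0 : ℝ) < a := lt_of_lt_of_le h1 h
  exact_mod_cast h2

theorem L.nonneg {X : ℝ} {a : ℕ} (h : L X a) : 0 ≤ X := by
  unfold L at h
  have h1 : 0 ≤ X * (ONE : ℕ) := (Nat.cast_nonneg a).trans h
  exact nonneg_of_mul_nonneg_left h1 ONE_pos

theorem div_up (a n : ℕ) (hn : 0 < n) : (a : ℝ) / n ≤ ((a / n + 1 : ℕ) : ℝ) := by
  rw [div_le_iff₀ (by exact_mod_cast hn)]
  have h := Nat.lt_mul_div_succ a hn
  have h2 : a ≤ (a / n + 1) * n := by
    rw [mul_comm]; exact h.le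
  exact_mod_cast h2

theorem div_lo (a n : ℕ) : ((a / n : ℕ) : ℝ) ≤ (a : ℝ) / n := Nat.cast_div_le

/-- division of an upper bound -/
theorem U.div {X : ℝ} {a : ℕ} {n : ℕ} (hn : 0 < n) (h : U X a) : U (X / n) (a / n + 1) := by
  unfold U at *
  refine le_trans ?_ (div_up a n hn)
  have hn' : (0 : ℝ) < n := by exact_mod_cast hn
  rw [div_mul_eq_mul_div]
  exact div_le_div_of_nonneg_right h hn'.le

theorem L.div {X : ℝ} {a : ℕ} (n : ℕ) (h : L X a) : L (X / n) (a / n) := by
  unfold L at *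
  refine (div_lo a n).trans ?_
  rw [div_mul_eq_mul_div]
  exact div_le_div_of_nonneg_right h (Nat.cast_nonneg n)

/-- product, upper -/
def mU (a b : ℕ) : ℕ := a * b / ONE + 1

/-- product, lower -/
def mL (a b : ℕ) : ℕ := a * b / ONE

theorem ONE_pos' : 0 < ONE := by unfold ONE; norm_num

theorem U.mul {X Y : ℝ} {a b : ℕ} (hY : 0 ≤ Y) (h : U X a) (h' : U Y b) :
    U (X * Y) (mU a b) := by
  unfold U mU at *
  refine le_trans ?_ (div_up (a * b) ONE ONE_pos')
  rw [le_div_iff₀ ONE_pos]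
  push_cast
  have h1 := mul_le_mul h h' (mul_nonneg hY ONE_pos.le) (Nat.cast_nonneg a)
  linarith

theorem L.mul {X Y : ℝ} {a b : ℕ} (h : L X a) (h' : L Y b) : L (X * Y) (mL a b) := by
  have hX := h.nonneg
  have hY := h'.nonneg
  unfold L mL at *
  refine (div_lo (a * b) ONE).trans ?_
  rw [div_le_iff₀ ONE_pos]
  push_cast
  have h1 := mul_le_mul h h' (Nat.cast_nonneg b) (mul_nonneg hX ONE_pos.le)
  linarith

/-- multiplication by a real number below `i / 32` -/
def rU (i a : ℕ) : ℕ := i * a / 32 + 1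

/-- multiplication by a real number above `i / 32` -/
def rL (i a : ℕ) : ℕ := i * a / 32

theorem U.rmul {X r : ℝ} {a i : ℕ} (hX : 0 ≤ X) (hr : r ≤ i / 32) (h : U X a) :
    U (r * X) (rU i a) := by
  have h1 : U (((i : ℕ) * X) / (32 : ℕ)) (i * a / 32 + 1) := (h.nmul i).div (by norm_num)
  refine U.mono h1 ?_
  push_cast
  rw [mul_div_right_comm]
  exact mul_le_mul_of_nonneg_right hr hX

theorem L.rmul {X r : ℝ} {a i : ℕ} (hr : (i : ℝ) / 32 ≤ r) (h : L X a) :
    L (r * X) (rL i a) := by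
  have hX := h.nonneg
  have h1 : L (((i : ℕ) * X) / (32 : ℕ)) (i * a / 32) := (h.nmul i).div 32
  refine L.mono h1 ?_
  push_cast
  rw [mul_div_right_comm]
  exact mul_le_mul_of_nonneg_right hr hX

/-- powers, upper -/
def pU (b : ℕ) : ℕ → ℕ → ℕ
  | 0, _ => ONE
  | f + 1, n => cond (Nat.beq (n % 2) 0) ((pU b f (n / 2)) ^ 2 / ONE + 1)
      (((pU b f (n / 2)) ^ 2 / ONE + 1) * b / ONE + 1)

/-- powers, lower -/
def pL (b : ℕ) : ℕ → ℕ → ℕ
  | 0, _ => ONE
  | f + 1, n => cond (Nat.beq (n % 2) 0) ((pL b f (n / 2)) ^ 2 / ONE)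
      ((pL b f (n / 2)) ^ 2 / ONE * b / ONE)

theorem pow_split (β : ℝ) (n : ℕ) : β ^ n = (β ^ (n / 2)) ^ 2 * β ^ (n % 2) := by
  rw [← pow_mul, ← pow_add]
  congr 1
  omega

theorem pU_ok {β : ℝ} (hβ : 0 ≤ β) {b : ℕ} (hb : U β b) :
    ∀ f n : ℕ, n < 2 ^ f → U (β ^ n) (pU b f n) := by
  intro f
  induction f with
  | zero =>
    intro n hn
    have : n = 0 := by simpa using hn
    subst this
    simp [U, pU]
  | succ f ih =>
    intro n hn
    have h1 := ih (n / 2) (by rw [pow_succ] at hn; omega)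
    have h2 : U ((β ^ (n / 2)) ^ 2) ((pU b f (n / 2)) ^ 2 / ONE + 1) := by
      have := U.mul (pow_nonneg hβ _) h1 h1
      rw [← sq] at this
      unfold mU at this
      rwa [← sq] at this
    rw [pow_split]
    rcases Nat.mod_two_eq_zero_or_one n with h | h
    · rw [h, pow_zero, mul_one]
      have e : pU b (f + 1) n = (pU b f (n / 2)) ^ 2 / ONE + 1 := by
        simp only [pU, h]; rfl
      rw [e]; exact h2
    · rw [h, pow_one]
      have e : pU b (f + 1) n = ((pU b f (n / 2)) ^ 2 / ONE + 1) * b / ONE + 1 := by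
        simp only [pU, h]; rfl
      rw [e]
      exact U.mul hβ h2 hb

theorem pL_ok {β : ℝ} {b : ℕ} (hb : L β b) :
    ∀ f n : ℕ, n < 2 ^ f → L (β ^ n) (pL b f n) := by
  intro f
  induction f with
  | zero =>
    intro n hn
    have : n = 0 := by simpa using hn
    subst this
    simp [L, pL]
  | succ f ih =>
    intro n hn
    have h1 := ih (n / 2) (by rw [pow_succ] at hn; omega)
    have h2 : L ((β ^ (n / 2)) ^ 2) ((pL b f (n / 2)) ^ 2 / ONE) := by
      have := L.mul h1 h1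
      rw [← sq] at this
      unfold mL at this
      rwa [← sq] at this
    rw [pow_split]
    rcases Nat.mod_two_eq_zero_or_one n with h | h
    · rw [h, pow_zero, mul_one]
      have e : pL b (f + 1) n = (pL b f (n / 2)) ^ 2 / ONE := by
        simp only [pL, h]; rfl
      rw [e]; exact h2
    · rw [h, pow_one]
      have e : pL b (f + 1) n = (pL b f (n / 2)) ^ 2 / ONE * b / ONE := by
        simp only [pL, h]; rfl
      rw [e]
      exact L.mul h2 hb

/-- `e^{-n/128}`, upper -/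
def eU (n : ℕ) : ℕ := pU 1117138084254789 14 n

/-- `e^{-n/128}`, lower -/
def eL (n : ℕ) : ℕ := pL 1117138084254788 14 n

/-- `e^{n/128}`, upper -/
def gU (n : ℕ) : ℕ := pU 1134730449256722 14 n

/-- `e^{n/128}`, lower -/
def gL (n : ℕ) : ℕ := pL 1134730449256721 14 n

theorem exp_base (x : ℝ) (hx : |x| = 1 / 128) :
    |Real.exp x - (1 + x + x ^ 2 / 2 + x ^ 3 / 6 + x ^ 4 / 24 + x ^ 5 / 120 + x ^ 6 / 720
      + x ^ 7 / 5040)| ≤ 1 / 10 ^ 20 := by
  have h := Real.exp_bound (x := x) (by rw [hx]; norm_num) (n := 8) (by norm_num)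
  have e : ∑ m ∈ Finset.range 8, x ^ m / (m.factorial : ℝ) =
      1 + x + x ^ 2 / 2 + x ^ 3 / 6 + x ^ 4 / 24 + x ^ 5 / 120 + x ^ 6 / 720 + x ^ 7 / 5040 := by
    simp [Finset.sum_range_succ, Nat.factorial]
  rw [e] at h
  refine h.trans ?_
  rw [hx]
  norm_num [Nat.factorial]

theorem base_e : L (Real.exp (-(1 / 128))) 1117138084254788 ∧
    U (Real.exp (-(1 / 128))) 1117138084254789 := by
  have h := abs_le.mp (exp_base (-(1 / 128)) (by norm_num))
  unfold L U ONE
  constructor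
  · have := h.1
    norm_num at this ⊢
    linarith
  · have := h.2
    norm_num at this ⊢
    linarith

theorem base_g : L (Real.exp (1 / 128)) 1134730449256721 ∧
    U (Real.exp (1 / 128)) 1134730449256722 := by
  have h := abs_le.mp (exp_base (1 / 128) (by norm_num))
  unfold L U ONE
  constructor
  · have := h.1
    norm_num at this ⊢
    linarith
  · have := h.2
    norm_num at this ⊢
    linarith

theorem exp_neg_pow (n : ℕ) : Real.exp (-(n / 128 : ℝ)) = Real.exp (-(1 / 128)) ^ n := by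
  rw [← Real.exp_nat_mul]; congr 1; ring

theorem exp_pos_pow (n : ℕ) : Real.exp ((n / 128 : ℝ)) = Real.exp (1 / 128) ^ n := by
  rw [← Real.exp_nat_mul]; congr 1; ring

theorem eU_ok {n : ℕ} (hn : n < 16384) : U (Real.exp (-(n / 128 : ℝ))) (eU n) := by
  rw [exp_neg_pow]
  exact pU_ok (Real.exp_pos _).le base_e.2 14 n (by norm_num; exact hn)

theorem eL_ok {n : ℕ} (hn : n < 16384) : L (Real.exp (-(n / 128 : ℝ))) (eL n) := by
  rw [exp_neg_pow]
  exact pL_ok base_e.1 14 n (by norm_num; exact hn)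

theorem gU_ok {n : ℕ} (hn : n < 16384) : U (Real.exp (n / 128 : ℝ)) (gU n) := by
  rw [exp_pos_pow]
  exact pU_ok (Real.exp_pos _).le base_g.2 14 n (by norm_num; exact hn)

theorem gL_ok {n : ℕ} (hn : n < 16384) : L (Real.exp (n / 128 : ℝ)) (gL n) := by
  rw [exp_pos_pow]
  exact pL_ok base_g.1 14 n (by norm_num; exact hn)

end Pool.Agent.Lib.EPC
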