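import Pool.Agent.Lib.EPC.FnD

/-!
# The functions `φ`, `κ`, `τ`

`φ(v) = ∫₀¹ e^{-tv}`, `κ(v) = ∫₀¹ t e^{-tv}`, `τ(v) = ∫₀¹ t (1-t) e^{-tv}` for all real `v`
(for negative `v` they are the functions `(e^w - 1)/w` etc. with `w = -v`).

PROOFS. Interval integrals of continuous functions.
* `ph_mul`: derivative of `-e^{-tv}` in `t` is `v e^{-tv}`; `intervalIntegral.integral_eq_sub_of_hasDerivAt`.
* `ka_mul`: derivative of `-t e^{-tv}` in `t` is `t v e^{-tv} - e^{-tv}`.
* `ta_mul`: derivative of `-t (1-t) e^{-tv}` in `t` is `t (1-t) v e^{-tv} - (1 - 2t) e^{-tv}`.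
* antitone: `intervalIntegral.integral_mono_on` (or `setIntegral_mono`), weights `≥ 0`.
* `th_le`: put `θ = v * ta v`; by `ph_mul`, `ka_mul`, `ta_mul`: `v² θ = v - 2 + (v + 2) e^{-v}`, so for
  `v > 0` it is enough that `G(v) = e^v (2 - v + 3/20 v²) - v - 2 ≥ 0`; `G(0) = G'(0) = 0`,
  `G'' = e^v (3/10 - 2/5 v + 3/20 v²) > 0` (discriminant < 0).
* `chi_ineq`: with `χ = ph (-v) - ka (-v)`, `v² χ = e^v - 1 - v`, `v ph (-v) = e^v - 1`; for `v > 0` it is
  enough that `F(v) = 32 (e^v - 1 - v) + v²/2 e^v - 7 v (e^v - 1) ≥ 0`; `F(0) = F'(0) = 0`,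
  `F'' = e^v (19 - 5 v + v²/2) > 0` (discriminant < 0). `v = 0`: `16 + 1/2 ≥ 7`.
-/

open MeasureTheory intervalIntegral Set

namespace Pool.Agent.Lib.EPC

namespace FnAux

theorem ii {g : ℝ → ℝ} (hg : Continuous g) (v : ℝ) :
    IntervalIntegrable (fun t : ℝ => g t * Real.exp (-(t * v))) volume 0 1 :=
  Continuous.intervalIntegrable (by fun_prop) _ _

theorem ii0 (v : ℝ) : IntervalIntegrable (fun t : ℝ => Real.exp (-(t * v))) volume 0 1 :=
  Continuous.intervalIntegrable (by fun_prop) _ _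

theorem iik (v : ℝ) : IntervalIntegrable (fun t : ℝ => t * Real.exp (-(t * v))) volume 0 1 :=
  Continuous.intervalIntegrable (by fun_prop) _ _

theorem iit (v : ℝ) :
    IntervalIntegrable (fun t : ℝ => t * (1 - t) * Real.exp (-(t * v))) volume 0 1 :=
  Continuous.intervalIntegrable (by fun_prop) _ _

theorem der (v t : ℝ) : HasDerivAt (fun t : ℝ => Real.exp (-(t * v)))
    (-v * Real.exp (-(t * v))) t := by
  have h1 : HasDerivAt (fun t : ℝ => -(t * v)) (-(1 * v)) t :=
    ((hasDerivAt_id t).mul_const v).neg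
  exact h1.exp.congr_deriv (by ring)

theorem mvt {f f' : ℝ → ℝ} {C t t' : ℝ} (h : ∀ x, HasDerivAt f (f' x) x)
    (hC : ∀ x, t ≤ x → x ≤ t' → C ≤ f' x) (htt : t ≤ t') : C * (t' - t) ≤ f t' - f t := by
  refine (convex_Icc t t').mul_sub_le_image_sub_of_le_deriv
    (fun x _ => (h x).continuousAt.continuousWithinAt)
    (fun x _ => (h x).differentiableAt.differentiableWithinAt) ?_ t ⟨le_rfl, htt⟩ t'
    ⟨htt, le_rfl⟩ htt
  intro x hx
  rw [interior_Icc] at hx
  rw [(h x).deriv]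
  exact hC x hx.1.le hx.2.le

theorem two {f f' f'' : ℝ → ℝ} (h1 : ∀ x, HasDerivAt f (f' x) x)
    (h2 : ∀ x, HasDerivAt f' (f'' x) x) (h3 : ∀ x, 0 ≤ x → 0 ≤ f'' x) (f0 : f 0 = 0)
    (f'0 : f' 0 = 0) {x : ℝ} (hx : 0 ≤ x) : 0 ≤ f x := by
  have h4 : ∀ y, 0 ≤ y → 0 ≤ f' y := by
    intro y hy
    have := mvt (C := 0) h2 (fun z hz _ => h3 z hz) hy
    rw [f'0] at this
    linarith
  have := mvt (C := 0) h1 (fun z hz _ => h4 z hz) hx
  rw [f0] at this
  linarith

theorem refl (f : ℝ → ℝ) : ∫ t in (0 : ℝ)..1, f t = ∫ t in (0 : ℝ)..1, f (1 - t) := by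
  rw [intervalIntegral.integral_comp_sub_left f 1]
  norm_num

theorem G_nonneg {v : ℝ} (hv : 0 ≤ v) :
    0 ≤ Real.exp v * (2 - v + 3 / 20 * v ^ 2) - v - 2 := by
  refine two (f := fun v => Real.exp v * (2 - v + 3 / 20 * v ^ 2) - v - 2)
    (f' := fun v => Real.exp v * (1 - 7 / 10 * v + 3 / 20 * v ^ 2) - 1)
    (f'' := fun v => Real.exp v * (3 / 10 - 2 / 5 * v + 3 / 20 * v ^ 2)) (fun x => ?_)
    (fun x => ?_) (fun x _ => ?_) (by simp) (by simp) hv
  · have h1 : HasDerivAt (fun v : ℝ => 2 - v + 3 / 20 * v ^ 2) (-1 + 3 / 20 * (2 * x)) x := by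
      have := ((hasDerivAt_const x (2 : ℝ)).sub (hasDerivAt_id x)).add
        ((hasDerivAt_pow 2 x).const_mul (3 / 20 : ℝ))
      exact this.congr_deriv (by norm_num)
    have h2 := (((Real.hasDerivAt_exp x).mul h1).sub (hasDerivAt_id x)).sub_const 2
    exact h2.congr_deriv (by ring)
  · have h1 : HasDerivAt (fun v : ℝ => 1 - 7 / 10 * v + 3 / 20 * v ^ 2)
        (-(7 / 10) + 3 / 20 * (2 * x)) x := by
      have := ((hasDerivAt_const x (1 : ℝ)).sub ((hasDerivAt_id x).const_mul (7 / 10 : ℝ))).add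
        ((hasDerivAt_pow 2 x).const_mul (3 / 20 : ℝ))
      exact this.congr_deriv (by norm_num)
    have h2 := ((Real.hasDerivAt_exp x).mul h1).sub_const 1
    exact h2.congr_deriv (by ring)
  · refine mul_nonneg (Real.exp_pos x).le ?_
    nlinarith [sq_nonneg (x - 4 / 3)]

theorem F_nonneg {v : ℝ} (hv : 0 ≤ v) :
    0 ≤ 32 * (Real.exp v - 1 - v) + v ^ 2 / 2 * Real.exp v - 7 * v * (Real.exp v - 1) := by
  refine two
    (f := fun v => 32 * (Real.exp v - 1 - v) + v ^ 2 / 2 * Real.exp v - 7 * v * (Real.exp v - 1))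
    (f' := fun v => 25 * (Real.exp v - 1) + (v ^ 2 / 2 - 6 * v) * Real.exp v)
    (f'' := fun v => Real.exp v * (19 - 5 * v + v ^ 2 / 2)) (fun x => ?_)
    (fun x => ?_) (fun x _ => ?_) (by simp) (by simp) hv
  · have h1 : HasDerivAt (fun v : ℝ => v ^ 2 / 2) x x := by
      have := (hasDerivAt_pow 2 x).div_const (2 : ℝ)
      exact this.congr_deriv (by norm_num)
    have h2 : HasDerivAt (fun v : ℝ => Real.exp v - 1) (Real.exp x) x :=
      (Real.hasDerivAt_exp x).sub_const 1
    have h3 : HasDerivAt (fun v : ℝ => 7 * v) 7 x := by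
      have := (hasDerivAt_id x).const_mul (7 : ℝ)
      exact this.congr_deriv (by norm_num)
    have h4 := (((h2.sub (hasDerivAt_id x)).const_mul (32 : ℝ)).add
      (h1.mul (Real.hasDerivAt_exp x))).sub (h3.mul h2)
    exact h4.congr_deriv (by ring)
  · have h1 : HasDerivAt (fun v : ℝ => v ^ 2 / 2 - 6 * v) (x - 6) x := by
      have := ((hasDerivAt_pow 2 x).div_const (2 : ℝ)).sub ((hasDerivAt_id x).const_mul (6 : ℝ))
      exact this.congr_deriv (by norm_num)
    have h2 : HasDerivAt (fun v : ℝ => Real.exp v - 1) (Real.exp x) x :=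
      (Real.hasDerivAt_exp x).sub_const 1
    have h4 := (h2.const_mul (25 : ℝ)).add (h1.mul (Real.hasDerivAt_exp x))
    exact h4.congr_deriv (by ring)
  · refine mul_nonneg (Real.exp_pos x).le ?_
    nlinarith [sq_nonneg (x - 5)]

end FnAux

open FnAux

theorem ph_mul (v : ℝ) : v * ph v = 1 - Real.exp (-v) := by
  have h : ∫ t in (0 : ℝ)..1, v * Real.exp (-(t * v)) =
      -Real.exp (-(1 * v)) - -Real.exp (-(0 * v)) := by
    refine integral_eq_sub_of_hasDerivAt (f := fun t : ℝ => -Real.exp (-(t * v))) (fun t _ => ?_)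
      (Continuous.intervalIntegrable (by fun_prop) _ _)
    exact (der v t).neg.congr_deriv (by ring)
  rw [intervalIntegral.integral_const_mul] at h
  unfold ph
  rw [h, one_mul, zero_mul, neg_zero, Real.exp_zero]
  ring

theorem ka_mul (v : ℝ) : v * ka v = ph v - Real.exp (-v) := by
  have h : ∫ t in (0 : ℝ)..1, (v * (t * Real.exp (-(t * v))) - Real.exp (-(t * v))) =
      -(1 * Real.exp (-(1 * v))) - -(0 * Real.exp (-(0 * v))) := by
    refine integral_eq_sub_of_hasDerivAt (f := fun t : ℝ => -(t * Real.exp (-(t * v))))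
      (fun t _ => ?_) (Continuous.intervalIntegrable (by fun_prop) _ _)
    exact ((hasDerivAt_id t).mul (der v t)).neg.congr_deriv (by simp only [id]; ring)
  rw [intervalIntegral.integral_sub ((iik v).const_mul v) (ii0 v),
    intervalIntegral.integral_const_mul] at h
  unfold ph ka
  rw [one_mul, one_mul, zero_mul, neg_zero, sub_zero] at h
  linarith

theorem ta_mul (v : ℝ) : v * ta v = ph v - 2 * ka v := by
  have h : ∫ t in (0 : ℝ)..1, (v * (t * (1 - t) * Real.exp (-(t * v))) -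
      (Real.exp (-(t * v)) - 2 * (t * Real.exp (-(t * v))))) =
      -(1 * (1 - 1) * Real.exp (-(1 * v))) - -(0 * (1 - 0) * Real.exp (-(0 * v))) := by
    refine integral_eq_sub_of_hasDerivAt (f := fun t : ℝ => -(t * (1 - t) * Real.exp (-(t * v))))
      (fun t _ => ?_) (Continuous.intervalIntegrable (by fun_prop) _ _)
    have h1 : HasDerivAt (fun t : ℝ => t * (1 - t)) (1 - 2 * t) t := by
      have h0 : HasDerivAt (fun t : ℝ => 1 - t) (0 - 1) t :=
        (hasDerivAt_const t (1 : ℝ)).sub (hasDerivAt_id t)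
      exact ((hasDerivAt_id t).mul h0).congr_deriv (by simp only [id]; ring)
    exact (h1.mul (der v t)).neg.congr_deriv (by ring)
  rw [intervalIntegral.integral_sub ((iit v).const_mul v) ((ii0 v).sub ((iik v).const_mul 2)),
    intervalIntegral.integral_sub (ii0 v) ((iik v).const_mul 2),
    intervalIntegral.integral_const_mul, intervalIntegral.integral_const_mul] at h
  unfold ph ka ta
  rw [sub_self, mul_zero, zero_mul, zero_mul, zero_mul, neg_zero, sub_zero] at h
  linarith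

theorem ph_anti : Antitone ph := by
  intro v w hvw
  refine intervalIntegral.integral_mono_on zero_le_one (ii0 w) (ii0 v) fun t ht => ?_
  refine Real.exp_le_exp.mpr ?_
  have := mul_le_mul_of_nonneg_left hvw ht.1
  linarith

theorem ka_anti : Antitone ka := by
  intro v w hvw
  refine intervalIntegral.integral_mono_on zero_le_one (iik w) (iik v) fun t ht => ?_
  refine mul_le_mul_of_nonneg_left (Real.exp_le_exp.mpr ?_) ht.1
  have := mul_le_mul_of_nonneg_left hvw ht.1
  linarith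

theorem ta_anti : Antitone ta := by
  intro v w hvw
  refine intervalIntegral.integral_mono_on zero_le_one (iit w) (iit v) fun t ht => ?_
  refine mul_le_mul_of_nonneg_left (Real.exp_le_exp.mpr ?_)
    (mul_nonneg ht.1 (by linarith [ht.2]))
  have := mul_le_mul_of_nonneg_left hvw ht.1
  linarith

theorem ph_zero : ph 0 = 1 := by
  unfold ph
  simp

theorem ka_zero : ka 0 = 1 / 2 := by
  unfold ka
  simp

theorem ta_zero : ta 0 = 1 / 6 := by
  unfold ta
  have h : ∫ t in (0 : ℝ)..1, t * (1 - t) * Real.exp (-(t * 0)) =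
      ((1 : ℝ) ^ 2 / 2 - 1 ^ 3 / 3) - (0 ^ 2 / 2 - 0 ^ 3 / 3) := by
    refine integral_eq_sub_of_hasDerivAt (f := fun t : ℝ => t ^ 2 / 2 - t ^ 3 / 3)
      (fun t _ => ?_) (Continuous.intervalIntegrable (by fun_prop) _ _)
    have := ((hasDerivAt_pow 2 t).div_const (2 : ℝ)).sub ((hasDerivAt_pow 3 t).div_const (3 : ℝ))
    exact this.congr_deriv (by norm_num; ring)
  rw [h]
  norm_num

theorem ph_pos (v : ℝ) : 0 < ph v :=
  intervalIntegral.intervalIntegral_pos_of_pos_on (ii0 v) (fun _ _ => Real.exp_pos _) one_pos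

theorem ka_pos (v : ℝ) : 0 < ka v :=
  intervalIntegral.intervalIntegral_pos_of_pos_on (iik v)
    (fun _ ht => mul_pos ht.1 (Real.exp_pos _)) one_pos

theorem ta_pos (v : ℝ) : 0 < ta v :=
  intervalIntegral.intervalIntegral_pos_of_pos_on (iit v)
    (fun _ ht => mul_pos (mul_pos ht.1 (by linarith [ht.2])) (Real.exp_pos _)) one_pos

theorem ka_le_ph (v : ℝ) : ka v ≤ ph v := by
  refine intervalIntegral.integral_mono_on zero_le_one (iik v) (ii0 v) fun t ht => ?_
  have := mul_le_mul_of_nonneg_right ht.2 (Real.exp_pos (-(t * v))).le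
  linarith

/-- for `v ≥ 0`: `v τ(v) ≤ 3/20` -/
theorem th_le {v : ℝ} (hv : 0 ≤ v) : v * ta v ≤ 3 / 20 := by
  rcases hv.eq_or_lt with h0 | hpos
  · rw [← h0, zero_mul]
    norm_num
  have h1 := ph_mul v
  have h2 := ka_mul v
  have h3 := ta_mul v
  have h4 : v ^ 2 * (v * ta v) = v - 2 + (v + 2) * Real.exp (-v) := by
    rw [h3]
    linear_combination (v - 2) * h1 - 2 * v * h2
  have h5 := G_nonneg hv
  have h6 : Real.exp v * Real.exp (-v) = 1 := by
    rw [← Real.exp_add]; simp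
  have h7 : 0 ≤ (Real.exp v * (2 - v + 3 / 20 * v ^ 2) - v - 2) * Real.exp (-v) :=
    mul_nonneg h5 (Real.exp_pos _).le
  have h8 : (Real.exp v * (2 - v + 3 / 20 * v ^ 2) - v - 2) * Real.exp (-v) =
      (2 - v + 3 / 20 * v ^ 2) - (v + 2) * Real.exp (-v) := by
    linear_combination (2 - v + 3 / 20 * v ^ 2) * h6
  rw [h8] at h7
  have h9 : v ^ 2 * (v * ta v) ≤ v ^ 2 * (3 / 20) := by
    rw [h4]
    linarith
  exact le_of_mul_le_mul_left h9 (by positivity)

/-- `e^v φ(v) = φ(-v)` -/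
theorem ph_neg (v : ℝ) : ph (-v) = Real.exp v * ph v := by
  unfold ph
  rw [refl, ← intervalIntegral.integral_const_mul]
  refine intervalIntegral.integral_congr fun t _ => ?_
  show Real.exp (-((1 - t) * -v)) = Real.exp v * Real.exp (-(t * v))
  rw [← Real.exp_add]
  congr 1
  ring

/-- `e^v (φ(v) - κ(v)) = κ(-v)` -/
theorem ka_neg (v : ℝ) : ka (-v) = Real.exp v * (ph v - ka v) := by
  unfold ph ka
  rw [refl, ← intervalIntegral.integral_sub (ii0 v) (iik v),
    ← intervalIntegral.integral_const_mul]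
  refine intervalIntegral.integral_congr fun t _ => ?_
  show (1 - t) * Real.exp (-((1 - t) * -v)) =
    Real.exp v * (Real.exp (-(t * v)) - t * Real.exp (-(t * v)))
  have h : Real.exp (-((1 - t) * -v)) = Real.exp v * Real.exp (-(t * v)) := by
    rw [← Real.exp_add]
    congr 1
    ring
  rw [h]
  ring

/-- `e^v τ(v) = τ(-v)` -/
theorem ta_neg (v : ℝ) : ta (-v) = Real.exp v * ta v := by
  unfold ta
  rw [refl, ← intervalIntegral.integral_const_mul]
  refine intervalIntegral.integral_congr fun t _ => ?_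
  show (1 - t) * (1 - (1 - t)) * Real.exp (-((1 - t) * -v)) =
    Real.exp v * (t * (1 - t) * Real.exp (-(t * v)))
  have h : Real.exp (-((1 - t) * -v)) = Real.exp v * Real.exp (-(t * v)) := by
    rw [← Real.exp_add]
    congr 1
    ring
  rw [h]
  ring

/-- for the far region -/
theorem chi_ineq {v : ℝ} (hv : 0 ≤ v) :
    7 * ph (-v) ≤ 32 * (ph (-v) - ka (-v)) + Real.exp v / 2 := by
  rcases hv.eq_or_lt with h0 | hpos
  · rw [← h0, neg_zero, ph_zero, ka_zero, Real.exp_zero]
    norm_num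
  have h1 := ph_mul (-v)
  have h2 := ka_mul (-v)
  rw [neg_neg] at h1 h2
  have h5 := F_nonneg hv
  have h3 : v ^ 2 * (ph (-v) - ka (-v)) = Real.exp v - 1 - v := by
    linear_combination (-v - 1) * h1 + v * h2
  have h4 : v ^ 2 * ph (-v) = v * (Real.exp v - 1) := by
    linear_combination (-v) * h1
  have h6 : v ^ 2 * (7 * ph (-v)) ≤ v ^ 2 * (32 * (ph (-v) - ka (-v)) + Real.exp v / 2) := by
    have e1 : v ^ 2 * (7 * ph (-v)) = 7 * (v ^ 2 * ph (-v)) := by ring
    have e2 : v ^ 2 * (32 * (ph (-v) - ka (-v)) + Real.exp v / 2) =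
        32 * (v ^ 2 * (ph (-v) - ka (-v))) + v ^ 2 * Real.exp v / 2 := by ring
    rw [e1, e2, h3, h4]
    linarith
  exact le_of_mul_le_mul_left h6 (by positivity)

/-- `χ(v) = φ(-v) - κ(-v) = ∫₀¹ (1-t) e^{tv}` is increasing -/
theorem chi_mono : Monotone fun v : ℝ => ph (-v) - ka (-v) := by
  intro v w hvw
  show ph (-v) - ka (-v) ≤ ph (-w) - ka (-w)
  unfold ph ka
  rw [← intervalIntegral.integral_sub (ii0 (-v)) (iik (-v)),
    ← intervalIntegral.integral_sub (ii0 (-w)) (iik (-w))]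
  refine intervalIntegral.integral_mono_on zero_le_one ((ii0 _).sub (iik _))
    ((ii0 _).sub (iik _)) fun t ht => ?_
  have h1 : Real.exp (-(t * -v)) ≤ Real.exp (-(t * -w)) := by
    refine Real.exp_le_exp.mpr ?_
    have := mul_le_mul_of_nonneg_left hvw ht.1
    linarith
  have h2 : 0 ≤ 1 - t := by linarith [ht.2]
  have h3 := mul_le_mul_of_nonneg_left h1 h2
  linarith

end Pool.Agent.Lib.EPC
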