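import Mathlib

/-!
# The functions `φ`, `κ`, `τ`
-/

open MeasureTheory intervalIntegral Set

namespace Pool.Agent.Lib.EPC

/-- `∫₀¹ e^{-tv} dt` -/
noncomputable def ph (v : ℝ) : ℝ := ∫ t in (0 : ℝ)..1, Real.exp (-(t * v))

/-- `∫₀¹ t e^{-tv} dt` -/
noncomputable def ka (v : ℝ) : ℝ := ∫ t in (0 : ℝ)..1, t * Real.exp (-(t * v))

/-- `∫₀¹ t (1 - t) e^{-tv} dt` -/
noncomputable def ta (v : ℝ) : ℝ := ∫ t in (0 : ℝ)..1, t * (1 - t) * Real.exp (-(t * v))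

end Pool.Agent.Lib.EPC
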