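import Pool.Agent.Lib.EPC.Defs

/-!
# Two sums which vanish by symmetry
-/

namespace Pool.Agent.Lib.EPC

open Pool.Agent.Lib.EpZ Pool.Agent.Lib.EPS Pool.Agent.Lib.EPL

/-- polynomial weights are summable -/
theorem summable_poly {r g : ℝ} (hr : 0 < r) (hg : 0 < g) (i j : ℕ) :
    Summable fun x : Fin 3 → ℤ => pp x ^ i * qq x ^ j * ex r g x := by
  have hs := (summable_ex (r := r / 2) (g := g / 2) (by positivity) (by positivity)).mul_left
    ((i.factorial : ℝ) * (2 / r) ^ i * ((j.factorial : ℝ) * (2 / g) ^ j))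
  refine Summable.of_nonneg_of_le (fun x => ?_) (fun x => ?_) hs
  · have h1 := pp_nonneg x
    have h2 := qq_nonneg x
    have h3 := (ex_pos r g x).le
    positivity
  · have h1 := pp_nonneg x
    have h2 := qq_nonneg x
    have k1 : pp x ^ i ≤ (i.factorial : ℝ) * (2 / r) ^ i * Real.exp (r / 2 * pp x) := by
      have h := Real.pow_div_factorial_le_exp (r / 2 * pp x) (by positivity) i
      rw [div_le_iff₀ (by positivity), mul_pow] at h
      have e : pp x ^ i = (2 / r) ^ i * ((r / 2) ^ i * pp x ^ i) := by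
        rw [← mul_assoc, ← mul_pow]
        have : 2 / r * (r / 2) = 1 := by field_simp
        rw [this, one_pow, one_mul]
      rw [e]
      calc (2 / r) ^ i * ((r / 2) ^ i * pp x ^ i) ≤
          (2 / r) ^ i * (Real.exp (r / 2 * pp x) * (i.factorial : ℝ)) :=
            mul_le_mul_of_nonneg_left h (by positivity)
        _ = _ := by ring
    have k2 : qq x ^ j ≤ (j.factorial : ℝ) * (2 / g) ^ j * Real.exp (g / 2 * qq x) := by
      have h := Real.pow_div_factorial_le_exp (g / 2 * qq x) (by positivity) j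
      rw [div_le_iff₀ (by positivity), mul_pow] at h
      have e : qq x ^ j = (2 / g) ^ j * ((g / 2) ^ j * qq x ^ j) := by
        rw [← mul_assoc, ← mul_pow]
        have : 2 / g * (g / 2) = 1 := by field_simp
        rw [this, one_pow, one_mul]
      rw [e]
      calc (2 / g) ^ j * ((g / 2) ^ j * qq x ^ j) ≤
          (2 / g) ^ j * (Real.exp (g / 2 * qq x) * (j.factorial : ℝ)) :=
            mul_le_mul_of_nonneg_left h (by positivity)
        _ = _ := by ring
    have k3 : ex r g x * (Real.exp (r / 2 * pp x) * Real.exp (g / 2 * qq x)) =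
        ex (r / 2) (g / 2) x := by
      unfold ex
      rw [← Real.exp_add, ← Real.exp_add]
      congr 1
      ring
    have k4 := mul_le_mul k1 k2 (by positivity) (by positivity)
    calc pp x ^ i * qq x ^ j * ex r g x ≤
        ((i.factorial : ℝ) * (2 / r) ^ i * Real.exp (r / 2 * pp x) *
          ((j.factorial : ℝ) * (2 / g) ^ j * Real.exp (g / 2 * qq x))) * ex r g x :=
          mul_le_mul_of_nonneg_right k4 (ex_pos r g x).le
      _ = ((i.factorial : ℝ) * (2 / r) ^ i * ((j.factorial : ℝ) * (2 / g) ^ j)) *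
          (ex r g x * (Real.exp (r / 2 * pp x) * Real.exp (g / 2 * qq x))) := by ring
      _ = _ := by rw [k3]

/-- reindexing with a permutation of the coordinates -/
def prm (σ : Equiv.Perm (Fin 3)) : (Fin 3 → ℤ) ≃ (Fin 3 → ℤ) :=
  Equiv.arrowCongr σ (Equiv.refl ℤ)

theorem prm_apply (σ : Equiv.Perm (Fin 3)) (x : Fin 3 → ℤ) (i : Fin 3) :
    prm σ x i = x (σ.symm i) := rfl

theorem zero_bcc {r : ℝ} (hr : 0 < r) (a b : ℝ) :
    HasSum (fun x : Fin 3 → ℤ => (pp x - 2 * qq x) * (a + b * (pp x + qq x)) *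
      Real.exp (-(r * (pp x + qq x)))) 0 := by
  -- the weight
  set h : (Fin 3 → ℤ) → ℝ := fun x => (a + b * (pp x + qq x)) * ex r r x with hh
  have hs : Summable fun x => qq x * h x := by
    have s1 := (summable_poly hr hr 0 1).mul_left a
    have s2 := (summable_poly hr hr 1 1).mul_left b
    have s3 := (summable_poly hr hr 0 2).mul_left b
    refine ((s1.add s2).add s3).congr fun x => ?_
    rw [hh]; ring
  obtain ⟨S, hS⟩ := hs
  have hN : ∀ (σ : Equiv.Perm (Fin 3)) (x : Fin 3 → ℤ), pp (prm σ x) + qq (prm σ x) = pp x + qq x := by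
    intro σ x
    have e : ∀ y : Fin 3 → ℤ, pp y + qq y =
        (3 * ∑ i, (y i : ℝ) ^ 2 - (2 * ((∑ i, (y i : ℝ)) ^ 2 - ∑ i, (y i : ℝ) ^ 2)) / 2) / 4 := by
      intro y
      simp only [Fin.sum_univ_three]
      unfold pp qq
      ring
    rw [e, e]
    have e1 : ∑ i, ((prm σ x i : ℤ) : ℝ) = ∑ i, (x i : ℝ) := by
      simp only [prm_apply]
      exact Equiv.sum_comp σ.symm fun i => (x i : ℝ)
    have e2 : ∑ i, ((prm σ x i : ℤ) : ℝ) ^ 2 = ∑ i, (x i : ℝ) ^ 2 := by
      simp only [prm_apply]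
      exact Equiv.sum_comp σ.symm fun i => (x i : ℝ) ^ 2
    rw [e1, e2]
  have hex : ∀ x, ex r r x = Real.exp (-(r * (pp x + qq x))) := by
    intro x; unfold ex; congr 1; ring
  have hhσ : ∀ (σ : Equiv.Perm (Fin 3)) (x : Fin 3 → ℤ), h (prm σ x) = h x := by
    intro σ x
    rw [hh]
    simp only
    rw [hex, hex, hN]
  have h1 := (prm (Equiv.swap 0 2)).hasSum_iff.mpr hS
  have h2 := (prm (Equiv.swap 1 2)).hasSum_iff.mpr hS
  have h3 := (h1.add h2).sub (hS.mul_left 2)
  have e0 : S + S - 2 * S = 0 := by ring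
  rw [e0] at h3
  refine (funext fun x => ?_ : _ = fun x : Fin 3 → ℤ => (pp x - 2 * qq x) *
    (a + b * (pp x + qq x)) * Real.exp (-(r * (pp x + qq x)))) ▸ h3
  simp only [Function.comp]
  rw [hhσ, hhσ]
  have q1 : qq (prm (Equiv.swap 0 2) x) = (-(x 0 : ℝ) + x 1 + x 2) ^ 2 / 4 := by
    unfold qq
    have a0 : prm (Equiv.swap 0 2) x 0 = x 2 := rfl
    have a1 : prm (Equiv.swap 0 2) x 1 = x 1 := rfl
    have a2 : prm (Equiv.swap 0 2) x 2 = x 0 := rfl
    rw [a0, a1, a2]
    ring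
  have q2 : qq (prm (Equiv.swap 1 2) x) = ((x 0 : ℝ) - x 1 + x 2) ^ 2 / 4 := by
    unfold qq
    have a0 : prm (Equiv.swap 1 2) x 0 = x 0 := rfl
    have a1 : prm (Equiv.swap 1 2) x 1 = x 2 := rfl
    have a2 : prm (Equiv.swap 1 2) x 2 = x 1 := rfl
    rw [a0, a1, a2]
    ring
  have q3 : qq (prm (Equiv.swap 0 2) x) + qq (prm (Equiv.swap 1 2) x) = pp x := by
    rw [q1, q2]; unfold pp; ring
  rw [← hex]
  have e1 : qq (prm (Equiv.swap 0 2) x) * h x + qq (prm (Equiv.swap 1 2) x) * h x -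
      2 * (qq x * h x) =
      ((qq (prm (Equiv.swap 0 2) x) + qq (prm (Equiv.swap 1 2) x)) - 2 * qq x) * h x := by ring
  rw [e1, q3, hh]
  ring

/-- the involutions of the fcc side -/
def inv1 : (Fin 3 → ℤ) ≃ (Fin 3 → ℤ) where
  toFun x := ![x 0, x 1, x 0 + x 1 - x 2]
  invFun x := ![x 0, x 1, x 0 + x 1 - x 2]
  left_inv x := by
    funext i
    fin_cases i
    · rfl
    · rfl
    · show x 0 + x 1 - (x 0 + x 1 - x 2) = x 2
      ring
  right_inv x := by
    funext i
    fin_cases i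
    · rfl
    · rfl
    · show x 0 + x 1 - (x 0 + x 1 - x 2) = x 2
      ring

/-- the second involution: exchanges `z2` and `z3` -/
def inv2 : (Fin 3 → ℤ) ≃ (Fin 3 → ℤ) where
  toFun x := ![x 0, x 2 - x 1, x 2]
  invFun x := ![x 0, x 2 - x 1, x 2]
  left_inv x := by
    funext i
    fin_cases i
    · rfl
    · show x 2 - (x 2 - x 1) = x 1
      ring
    · rfl
  right_inv x := by
    funext i
    fin_cases i
    · rfl
    · show x 2 - (x 2 - x 1) = x 1
      ring
    · rfl

theorem zero_fcc {r : ℝ} (hr : 0 < r) (a b : ℝ) :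
    HasSum (fun x : Fin 3 → ℤ => (pp x - 4 * qq x) * (a + b * (pp x + 2 * qq x)) *
      Real.exp (-(r * (pp x + 2 * qq x)))) 0 := by
  have hr2 : 0 < 2 * r := by positivity
  set h : (Fin 3 → ℤ) → ℝ := fun x => (a + b * (pp x + 2 * qq x)) * ex r (2 * r) x with hh
  have hs : Summable fun x => qq x * h x := by
    have s1 := (summable_poly hr hr2 0 1).mul_left a
    have s2 := (summable_poly hr hr2 1 1).mul_left b
    have s3 := (summable_poly hr hr2 0 2).mul_left (2 * b)
    refine ((s1.add s2).add s3).congr fun x => ?_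
    rw [hh]; ring
  obtain ⟨S, hS⟩ := hs
  have hex : ∀ x, ex r (2 * r) x = Real.exp (-(r * (pp x + 2 * qq x))) := by
    intro x; unfold ex; congr 1; ring
  have n1 : ∀ x, pp (inv1 x) + 2 * qq (inv1 x) = pp x + 2 * qq x := by
    intro x
    have a0 : inv1 x 0 = x 0 := rfl
    have a1 : inv1 x 1 = x 1 := rfl
    have a2 : inv1 x 2 = x 0 + x 1 - x 2 := rfl
    unfold pp qq
    rw [a0, a1, a2]
    push_cast
    ring
  have n2 : ∀ x, pp (inv2 x) + 2 * qq (inv2 x) = pp x + 2 * qq x := by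
    intro x
    have a0 : inv2 x 0 = x 0 := rfl
    have a1 : inv2 x 1 = x 2 - x 1 := rfl
    have a2 : inv2 x 2 = x 2 := rfl
    unfold pp qq
    rw [a0, a1, a2]
    push_cast
    ring
  have hs1 : ∀ x, h (inv1 x) = h x := by
    intro x
    rw [hh]
    simp only
    rw [hex, hex, n1]
  have hs2 : ∀ x, h (inv2 x) = h x := by
    intro x
    rw [hh]
    simp only
    rw [hex, hex, n2]
  have h1 := inv1.hasSum_iff.mpr hS
  have h2 := inv2.hasSum_iff.mpr hS
  have h3 := ((h1.add h2).mul_left 2).sub (hS.mul_left 4)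
  have e0 : 2 * (S + S) - 4 * S = 0 := by ring
  rw [e0] at h3
  refine (funext fun x => ?_ : _ = fun x : Fin 3 → ℤ => (pp x - 4 * qq x) *
    (a + b * (pp x + 2 * qq x)) * Real.exp (-(r * (pp x + 2 * qq x)))) ▸ h3
  simp only [Function.comp]
  rw [hs1, hs2]
  have q3 : 2 * (qq (inv1 x) + qq (inv2 x)) = pp x := by
    have a0 : inv1 x 0 = x 0 := rfl
    have a1 : inv1 x 1 = x 1 := rfl
    have a2 : inv1 x 2 = x 0 + x 1 - x 2 := rfl
    have b0 : inv2 x 0 = x 0 := rfl
    have b1 : inv2 x 1 = x 2 - x 1 := rfl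
    have b2 : inv2 x 2 = x 2 := rfl
    unfold pp qq
    rw [a0, a1, a2, b0, b1, b2]
    push_cast
    ring
  rw [← hex]
  have e1 : 2 * (qq (inv1 x) * h x + qq (inv2 x) * h x) - 4 * (qq x * h x) =
      (2 * (qq (inv1 x) + qq (inv2 x)) - 4 * qq x) * h x := by ring
  rw [e1, q3, hh]
  ring

end Pool.Agent.Lib.EPC
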