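import Pool.Agent.Lib.EPC.RepD
import Pool.Agent.Lib.EPC.Fn
import Pool.Agent.Lib.EPC.Zero

/-!
# The two termwise representations of `GG`

PROOF (bcc side). Put `g = r + y`, `N = p + q`, `A = p - 2 q`, `v = q y`, `E = e^{-v}`, `c1 = cB r y - 1/4`;
then `ex r g x = e^{-rN} E`. POINTWISE identity for `p, q ≥ 0` (`p = pp x`, `q = qq x`), with
`a = r (2 (r+y)/y - c1)`, `b = -r²`:
  `-(y e^{-r}) * hB c1 r y p q = G(p,q) e^{-rN} E + A (a + b N) e^{-rN}`,
`G(p,q) = (X-2Y)(X-Y) - (X+2Y) - cc(g/r)(X-2Y)`, `X = r p`, `Y = g q`.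
For `q ≠ 0` use `v ph v = 1 - E`, `v (v ka v) = v ph v - v E`, `v ta v = ph v - 2 ka v`
(so `ph v = (1-E)/v`, `v ka v = (1-E)/v - E`, `v ta v = (1-E)/v - 2 ((1-E)/v - E)/v`), then `field_simp; ring`
(`y e^{-r} * q e^{-(N-1) r} = v e^{-rN}`); for `q = 0` both sides are `0` because
`2 (r+y)/y - 1 - cc((r+y)/r) - c1 = 0`. Sum over `x` with `zero_bcc` and `summable_poly`.

(fcc side) the same with `g = 2 r - z`, `N = p + 2 q`, `A = p - 4 q`, `v = q z`, `E = e^{v}`,
`ex r g x = e^{-rN} E`, `m1 = cF r z + 1/4`; `zero_fcc`, and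
  `z e^{-r} * hF m1 r z p q = G(p,q) e^{-rN} E + A (a + b N) e^{-rN}` with suitable `a`, `b`
(`b = -r²`; `a` from `q = 0`: there `N = A = p` and both sides vanish iff `a = r (1 + cc((2r-z)/r))`;
likewise in the bcc case `a = r (1 + cc((r+y)/r)) = r (2 (r+y)/y - c1)`).
Here `w ph w = 1 - e^{-w}`, `w ka w = ph w - e^{-w}`, `w ta w = ph w - 2 ka w` are used at `w = -v`.
Both representations are tested numerically to 15 digits.
-/

namespace Pool.Agent.Lib.EPC

open Pool.Agent.Lib.EpZ Pool.Agent.Lib.EPS Pool.Agent.Lib.EPL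

namespace RepAux

theorem pB (c1 r y p q : ℝ) (hy : y ≠ 0) :
    -(y * Real.exp (-r)) * hB c1 r y p q =
      ((r * p - 2 * ((r + y) * q)) * (r * p - (r + y) * q) - (r * p + 2 * ((r + y) * q)) -
        (2 * (r + y) / y - 1 - c1) * (r * p - 2 * ((r + y) * q))) *
          Real.exp (-(r * p + (r + y) * q)) +
      (p - 2 * q) * (r * (2 * (r + y) / y - c1) + -r ^ 2 * (p + q)) *
        Real.exp (-(r * (p + q))) := by
  unfold hB
  have hE1 : Real.exp (-(r * p + (r + y) * q)) = Real.exp (-(r * (p + q))) * Real.exp (-(q * y)) := by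
    rw [← Real.exp_add]; congr 1; ring
  have hE2 : Real.exp (-r) * Real.exp (-((p + q - 1) * r)) = Real.exp (-(r * (p + q))) := by
    rw [← Real.exp_add]; congr 1; ring
  have h1 := ph_mul (q * y)
  have h2 := ka_mul (q * y)
  have h3 := ta_mul (q * y)
  rw [hE1]
  set M := Real.exp (-(r * (p + q))) with hM
  set E := Real.exp (-(q * y)) with hE
  set P := ph (q * y) with hP
  set K := ka (q * y) with hK
  set T := ta (q * y) with hT
  rw [show ∀ Z : ℝ, -(y * Real.exp (-r)) * (q * Real.exp (-((p + q - 1) * r)) * Z) =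
    -(y * q * (Real.exp (-r) * Real.exp (-((p + q - 1) * r))) * Z) from fun Z => by ring, hE2]
  by_cases hq : q = 0
  · have hE0 : E = 1 := by rw [hE, hq]; simp
    rw [hE0, hq]
    ring
  · have hv : q * y ≠ 0 := mul_ne_zero hq hy
    have e3 : T = (P - 2 * K) / (q * y) := by rw [eq_div_iff hv]; linarith
    have e2 : K = (P - E) / (q * y) := by rw [eq_div_iff hv]; linarith
    have e1 : P = (1 - E) / (q * y) := by rw [eq_div_iff hv]; linarith
    rw [e3, e2, e1]
    field_simp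
    ring

theorem pF (m1 r z p q : ℝ) (hz : z ≠ 0) :
    (z * Real.exp (-r)) * hF m1 r z p q =
      ((r * p - 2 * ((2 * r - z) * q)) * (r * p - (2 * r - z) * q) - (r * p + 2 * ((2 * r - z) * q)) -
        (m1 + 1 - 4 * r / z) * (r * p - 2 * ((2 * r - z) * q))) *
          Real.exp (-(r * p + (2 * r - z) * q)) +
      (p - 4 * q) * (r * (m1 + 2 - 4 * r / z) + -r ^ 2 * (p + 2 * q)) *
        Real.exp (-(r * (p + 2 * q))) := by
  unfold hF
  have hE1 : Real.exp (-(r * p + (2 * r - z) * q)) =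
      Real.exp (-(r * (p + 2 * q))) * Real.exp (q * z) := by
    rw [← Real.exp_add]; congr 1; ring
  have hE2 : Real.exp (-r) * Real.exp (-((p + 2 * q - 1) * r)) = Real.exp (-(r * (p + 2 * q))) := by
    rw [← Real.exp_add]; congr 1; ring
  have h1 := ph_mul (-(q * z))
  have h2 := ka_mul (-(q * z))
  have h3 := ta_mul (-(q * z))
  rw [neg_neg] at h1 h2
  rw [hE1]
  set M := Real.exp (-(r * (p + 2 * q))) with hM
  set E := Real.exp (q * z) with hE
  set P := ph (-(q * z)) with hP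
  set K := ka (-(q * z)) with hK
  set T := ta (-(q * z)) with hT
  rw [show ∀ Z : ℝ, (z * Real.exp (-r)) * (q * Real.exp (-((p + 2 * q - 1) * r)) * Z) =
    z * q * (Real.exp (-r) * Real.exp (-((p + 2 * q - 1) * r))) * Z from fun Z => by ring, hE2]
  by_cases hq : q = 0
  · have hE0 : E = 1 := by rw [hE, hq]; simp
    rw [hE0, hq]
    ring
  · have hv : q * z ≠ 0 := mul_ne_zero hq hz
    have e3 : T = -(P - 2 * K) / (q * z) := by rw [eq_div_iff hv]; linarith
    have e2 : K = -(P - E) / (q * z) := by rw [eq_div_iff hv]; linarith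
    have e1 : P = -(1 - E) / (q * z) := by rw [eq_div_iff hv]; linarith
    rw [e3, e2, e1]
    field_simp
    ring

theorem cc_B {r y : ℝ} (hr : 0 < r) (hy : 0 < y) (hyr : y < r) :
    cc ((r + y) / r) = 2 * (r + y) / y - 1 - (cB r y - 1 / 4) := by
  unfold cc cB
  have h1 : r - y ≠ 0 := (sub_pos.mpr hyr).ne'
  have h2 : r + y ≠ 0 := by positivity
  have e1 : (r + y) / r - 1 = y / r := by field_simp; ring
  have e2 : 2 - (r + y) / r = (r - y) / r := by field_simp; ring
  rw [e1, e2]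
  field_simp
  ring

theorem cc_F {r z : ℝ} (hr : 0 < r) (hz : 0 < z) (hzr : z < r) :
    cc ((2 * r - z) / r) = (cF r z + 1 / 4) + 1 - 4 * r / z := by
  unfold cc cF
  have h1 : r - z ≠ 0 := (sub_pos.mpr hzr).ne'
  have h2 : 2 * r - z ≠ 0 := (by linarith : 0 < 2 * r - z).ne'
  have e1 : (2 * r - z) / r - 1 = (r - z) / r := by field_simp; ring
  have e2 : 2 - (2 * r - z) / r = z / r := by field_simp; ring
  rw [e1, e2]
  field_simp
  ring

/-- the summand of `GG` is summable -/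
theorem summable_G {r g : ℝ} (hr : 0 < r) (hg : 0 < g) (c : ℝ) :
    Summable fun x : Fin 3 → ℤ => ((r * pp x - 2 * (g * qq x)) * (r * pp x - g * qq x) -
    (r * pp x + 2 * (g * qq x)) - c * (r * pp x - 2 * (g * qq x))) * ex r g x := by
  have h20 := (summable_poly hr hg 2 0).mul_left (r ^ 2)
  have h11 := (summable_poly hr hg 1 1).mul_left (-3 * r * g)
  have h02 := (summable_poly hr hg 0 2).mul_left (2 * g ^ 2)
  have h10 := (summable_poly hr hg 1 0).mul_left (-r - c * r)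
  have h01 := (summable_poly hr hg 0 1).mul_left (-2 * g + 2 * c * g)
  refine ((((h20.add h11).add h02).add h10).add h01).congr fun x => ?_
  ring

end RepAux

theorem summable_hB {r y : ℝ} (hr : 0 < r) (hy : 0 < y) (hyr : y < r) :
    Summable fun x : Fin 3 → ℤ => hB (cB r y - 1 / 4) r y (pp x) (qq x) := by
  have hg : 0 < r + y := by positivity
  have h1 := RepAux.summable_G hr hg (2 * (r + y) / y - 1 - (cB r y - 1 / 4))
  have h2 := (zero_bcc hr (r * (2 * (r + y) / y - (cB r y - 1 / 4))) (-r ^ 2)).summable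
  have hk : -(y * Real.exp (-r)) ≠ 0 := neg_ne_zero.mpr (by positivity)
  refine (summable_mul_left_iff hk).mp ((h1.add h2).congr fun x => ?_)
  rw [RepAux.pB _ _ _ _ _ hy.ne']
  rfl

theorem rep_bcc {r y : ℝ} (hr : 0 < r) (hy : 0 < y) (hyr : y < r) :
    GG (cc ((r + y) / r)) r (r + y) =
      -(y * Real.exp (-r) * ∑' x : Fin 3 → ℤ, hB (cB r y - 1 / 4) r y (pp x) (qq x)) := by
  have hg : 0 < r + y := by positivity
  have h1 := RepAux.summable_G hr hg (2 * (r + y) / y - 1 - (cB r y - 1 / 4))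
  have h2 := zero_bcc hr (r * (2 * (r + y) / y - (cB r y - 1 / 4))) (-r ^ 2)
  have h3 := h1.hasSum.add h2
  rw [← neg_mul, ← tsum_mul_left, RepAux.cc_B hr hy hyr]
  unfold GG
  rw [add_zero] at h3
  rw [← h3.tsum_eq]
  refine tsum_congr fun x => ?_
  rw [RepAux.pB _ _ _ _ _ hy.ne']
  rfl

theorem summable_hF {r z : ℝ} (hr : 0 < r) (hz : 0 < z) (hzr : z < r) :
    Summable fun x : Fin 3 → ℤ => hF (cF r z + 1 / 4) r z (pp x) (qq x) := by
  have hg : 0 < 2 * r - z := by linarith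
  have h1 := RepAux.summable_G hr hg ((cF r z + 1 / 4) + 1 - 4 * r / z)
  have h2 := (zero_fcc hr (r * ((cF r z + 1 / 4) + 2 - 4 * r / z)) (-r ^ 2)).summable
  have hk : z * Real.exp (-r) ≠ 0 := by positivity
  refine (summable_mul_left_iff hk).mp ((h1.add h2).congr fun x => ?_)
  rw [RepAux.pF _ _ _ _ _ hz.ne']
  rfl

theorem rep_fcc {r z : ℝ} (hr : 0 < r) (hz : 0 < z) (hzr : z < r) :
    GG (cc ((2 * r - z) / r)) r (2 * r - z) =
      z * Real.exp (-r) * ∑' x : Fin 3 → ℤ, hF (cF r z + 1 / 4) r z (pp x) (qq x) := by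
  have hg : 0 < 2 * r - z := by linarith
  have h1 := RepAux.summable_G hr hg ((cF r z + 1 / 4) + 1 - 4 * r / z)
  have h2 := zero_fcc hr (r * ((cF r z + 1 / 4) + 2 - 4 * r / z)) (-r ^ 2)
  have h3 := h1.hasSum.add h2
  rw [← tsum_mul_left, RepAux.cc_F hr hz hzr]
  unfold GG
  rw [add_zero] at h3
  rw [← h3.tsum_eq]
  refine tsum_congr fun x => ?_
  rw [RepAux.pF _ _ _ _ _ hz.ne']
  rfl

end Pool.Agent.Lib.EPC
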