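import Pool.Agent.Lib.EPC.RepD
import Pool.Agent.Lib.EPC.Fn
import Pool.Agent.Lib.EPC.BoxS

/-!
# The bcc side: main terms and tail

PROOF. `f x = -hB c1 r y (pp x) (qq x)`, apply `tsum_le_box`. Write `p = pp x = P/4`, `q = qq x = Q/4`,
`N = p + q`, `A = p - 2 q`, `v = q y ≥ 0`. Facts for `v ≥ 0`: `0 ≤ ph v ≤ 1` (`ph_anti`, `ph_zero`),
`v ka v = ph v - e^{-v} ∈ [0, ph v]`, `v ta v ∈ [0, 3/20]` (`th_le`, `ta_pos`), `v e^{-v} ≤ 1/2`.
1. `Q = 0`: `hB = 0`.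
2. Keys `(2,1), (0,4), (4,4), (2,9)` are the main terms (cardinalities 8, 2, 8, 8).
3. Key `(10,1)` (`p = 5/2`, `q = 1/4`, `A = 2`): `hB ≥ 0`, the bracket is
   `≥ -1/4 (2 r ph + 2 e^{-v}) + 2 r² (5/2) ph - 4 r ph + (5/2 r - 2 v) e^{-v} ≥ 0` as `r ≥ 4.3`, `v ≤ r/8`.
   Key `(8,4)` (`A = 0`): bracket `= e^{-v} (2 c1 + 2 r - 2 y) ≥ 0`.
4. All other keys have `P + Q ≥ 16` (`key_small`), i.e. `N ≥ 4`. There `|bracket| ≤ 3.2 N² r²`:
   `|A| ≤ 2 N`, so `|bracket| ≤ 29/4 (2 N r + 2) + 2 N r² N + 4 N r + (N r + 1) ≤ 2 N² r² + 19.5 N r + 15.5`,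
   and `N r ≥ 17.2`. Hence `-hB ≤ 3.2 q N² r² e^{-(N-1) r} ≤ 3.2 (4.3)² q N² e^{-4.3 (N-1)}` (for `N ≥ 4` the
   function `r² e^{-(N-1) r}` decreases on `r ≥ 4.3`: `EPH.mul_exp_anti` for `r e^{-(N-1) r / 2}`),
   `= 3.2 (4.3)² /64 * Q (P+Q)² (e^{-1.075})^(P+Q-4)`, and `e^{-1.075} ≤ 0.342` (true .34130).
5. In the box: `∑ i, Q > 0, P + Q ≥ 16: Q (P+Q)² (342/1000)^(P+Q-4)` is a rational number; the total is about
   `.027` (needed: `≤ .09`): multiply by `1000^120` (or bound `(342/1000)^k ≤ n_k / 10^12`) and use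
   `decide +kernel` on natural numbers.
6. Outside the box `P + Q ≥ 32`: the bound of 4. is `≤ ε e^{-(P+Q)/4} ≤ ε e^{-|x|²/4}` (`key_norm`) with
   `ε = 1/10000` (at `P+Q = 32`: `3.2*18.49/64*32^3*(.342)^28 e^8 = 8e-6`; the ratio decreases), `45 ε ≤ .0045`.
The statement has been tested numerically (the true tail is positive, the crude bound is .03).
-/

namespace Pool.Agent.Lib.EPC

open Pool.Agent.Lib.EpZ Pool.Agent.Lib.EPS Pool.Agent.Lib.EPL

namespace TailBAux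

/-- the natural number of a box -/
private def TN (i : Fin 7 × Fin 7 × Fin 7) : ℕ :=
  if 16 ≤ keyP (bx i) + keyQ (bx i) then
    keyQ (bx i) * (keyP (bx i) + keyQ (bx i)) ^ 2 * 7 ^ (keyP (bx i) + keyQ (bx i) - 4) *
      20 ^ (100 - (keyP (bx i) + keyQ (bx i))) else 0

private theorem key_le_100 : ∀ i, keyP (bx i) + keyQ (bx i) ≤ 100 := by
  decide +kernel

private theorem TN_sum : (∑ i, TN i) * 20 ≤ 20 ^ 96 := by
  decide +kernel

/-- the bound for long vectors -/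
private noncomputable def RR (x : Fin 3 → ℤ) : ℝ :=
  if 16 ≤ keyP x + keyQ x then
    (keyQ x : ℝ) * ((keyP x : ℝ) + keyQ x) ^ 2 * (7 / 20) ^ (keyP x + keyQ x - 4) else 0

private theorem RR_nn (x : Fin 3 → ℤ) : 0 ≤ RR x := by
  unfold RR; split_ifs <;> positivity

private theorem RR_TN (i : Fin 7 × Fin 7 × Fin 7) : RR (bx i) * 20 ^ 96 = (TN i : ℝ) := by
  unfold RR TN
  split_ifs with h
  · have h2 := key_le_100 i
    obtain ⟨k, hk⟩ : ∃ k, keyP (bx i) + keyQ (bx i) = 4 + k := ⟨keyP (bx i) + keyQ (bx i) - 4, by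
      omega⟩
    have h3 : (20 : ℝ) ^ 96 = 20 ^ k * 20 ^ (100 - (4 + k)) := by
      rw [← pow_add]; congr 1; omega
    have h4 : (keyP (bx i) : ℝ) + keyQ (bx i) = 4 + k := by exact_mod_cast hk
    rw [hk]
    have h5 : 4 + k - 4 = k := by omega
    rw [h5]
    push_cast
    rw [h3, h4, div_pow]
    field_simp
  · simp

private theorem RR_sum : ∑ i, RR (bx i) ≤ 1 / 20 := by
  have h1 : (∑ i, RR (bx i)) * 20 ^ 96 = ((∑ i, TN i : ℕ) : ℝ) := by
    rw [Finset.sum_mul, Nat.cast_sum]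
    exact Finset.sum_congr rfl fun i _ => RR_TN i
  have h2 : ((∑ i, TN i : ℕ) : ℝ) * 20 ≤ 20 ^ 96 := by exact_mod_cast TN_sum
  rw [← h1] at h2
  have h3 : (0 : ℝ) < 20 ^ 96 := by positivity
  have h4 : (∑ i, RR (bx i)) * 20 * 20 ^ 96 ≤ 1 * 20 ^ 96 := by linarith
  have h5 := le_of_mul_le_mul_right h4 h3
  linarith

private theorem e1 : Real.exp (-1) ≤ 3679 / 10000 := by
  have := Real.exp_neg_one_lt_d9
  norm_num at this ⊢
  linarith

private theorem e1075 : Real.exp (-(43 / 40)) ≤ 7 / 20 := by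
  have h1 : Real.exp (-(43 / 40)) = Real.exp (-1) * Real.exp (-(3 / 40)) := by
    rw [← Real.exp_add]; congr 1; norm_num
  have h2 : Real.exp (-(3 / 40)) ≤ 40 / 43 := by
    rw [Real.exp_neg]
    have : (43 / 40 : ℝ) ≤ Real.exp (3 / 40) := by
      have := Real.add_one_le_exp (3 / 40 : ℝ)
      linarith
    rw [inv_le_comm₀ (Real.exp_pos _) (by norm_num)]
    linarith
  rw [h1]
  have := mul_le_mul e1 h2 (Real.exp_pos _).le (by norm_num)
  linarith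

private theorem e14 : 7 / 9 ≤ Real.exp (-(1 / 4)) := by
  have h1 : Real.exp (1 / 4) ≤ 9 / 7 := by
    have h2 : Real.exp (1 / 4) ^ 4 = Real.exp 1 := by
      rw [← Real.exp_nat_mul]; norm_num
    have h3 := Real.exp_one_lt_d9
    by_contra hc
    push Not at hc
    have h4 : (9 / 7 : ℝ) ^ 4 ≤ Real.exp (1 / 4) ^ 4 := pow_le_pow_left₀ (by norm_num) hc.le 4
    rw [h2] at h4
    norm_num at h4 h3
    linarith
  rw [Real.exp_neg]
  rw [le_inv_comm₀ (by norm_num) (Real.exp_pos _)]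
  linarith

/-- the size of the bracket -/
private theorem bracket {c1 r y p q : ℝ} (hr : 43 / 10 ≤ r) (hy : 0 ≤ y)
    (hc : -(1 / 4) ≤ c1) (hc' : c1 ≤ 29 / 4) (hp : 0 ≤ p) (hq : 0 ≤ q) (hN : 4 ≤ p + q) :
    -(16 / 5 * ((p + q) * r) ^ 2) ≤
      c1 * ((p - 2 * q) * r * ph (q * y) + 2 * Real.exp (-(q * y))) +
      (p - 2 * q) * r ^ 2 * (p * ph (q * y) + q * (q * y * ta (q * y))) -
      2 * (p - 2 * q) * r * (q * y * ka (q * y)) +
      (p * r - 2 * (q * y)) * Real.exp (-(q * y)) := by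
  obtain ⟨v, hv⟩ : ∃ v, v = q * y := ⟨_, rfl⟩
  rw [← hv]
  have v0 : 0 ≤ v := by rw [hv]; positivity
  obtain ⟨f, hf⟩ : ∃ f, f = ph v := ⟨_, rfl⟩
  obtain ⟨e, he⟩ : ∃ e, e = Real.exp (-v) := ⟨_, rfl⟩
  obtain ⟨k, hk⟩ : ∃ k, k = v * ka v := ⟨_, rfl⟩
  obtain ⟨s, hs⟩ : ∃ s, s = v * ta v := ⟨_, rfl⟩
  rw [← hf, ← he, ← hk, ← hs]
  have f0 : 0 ≤ f := by rw [hf]; exact (ph_pos v).le
  have f1 : f ≤ 1 := by rw [hf, ← ph_zero]; exact ph_anti v0
  have e0 : 0 ≤ e := by rw [he]; exact (Real.exp_pos _).le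
  have e1 : e ≤ 1 := by rw [he]; exact Real.exp_le_one_iff.2 (by linarith)
  have k0 : 0 ≤ k := by rw [hk]; exact mul_nonneg v0 (ka_pos v).le
  have k1 : k ≤ 1 := by
    have : k = f - e := by rw [hk, hf, he]; exact ka_mul v
    linarith
  have s0 : 0 ≤ s := by rw [hs]; exact mul_nonneg v0 (ta_pos v).le
  have s1 : s ≤ 3 / 20 := by rw [hs]; exact th_le v0
  have ve : v * e ≤ 1 / 2 := by
    rw [he]
    have h1 : v * Real.exp (-v) ≤ 1 / 2 := by
      have h2 : v * 2 ≤ Real.exp v := by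
        have h3 := Real.add_one_le_exp (v - 1)
        have h4 : Real.exp v = Real.exp (v - 1) * Real.exp 1 := by
          rw [← Real.exp_add]; congr 1; ring
        have h5 : 2 ≤ Real.exp 1 := by
          have := Real.add_one_le_exp (1 : ℝ)
          linarith
        have h6 : v ≤ Real.exp (v - 1) := by linarith
        rw [h4]
        exact mul_le_mul h6 h5 (by norm_num) (Real.exp_pos _).le
      rw [Real.exp_neg]
      rw [← div_eq_mul_inv, div_le_iff₀ (Real.exp_pos _)]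
      linarith
    exact h1
  obtain ⟨u, hu⟩ : ∃ u, u = (p + q) * r := ⟨_, rfl⟩
  have u1 : 172 / 10 ≤ u := by rw [hu]; nlinarith
  have hA : |p - 2 * q| ≤ 2 * (p + q) := by
    rw [abs_le]; constructor <;> linarith
  have r0 : 0 < r := by linarith
  have c0 : |c1| ≤ 29 / 4 := by rw [abs_le]; constructor <;> linarith
  -- first term
  have t1 : |c1 * ((p - 2 * q) * r * f + 2 * e)| ≤ 29 / 4 * (2 * u + 2) := by
    rw [abs_mul]
    refine mul_le_mul c0 ?_ (abs_nonneg _) (by norm_num)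
    refine (abs_add_le _ _).trans ?_
    have a1 : |(p - 2 * q) * r * f| ≤ 2 * u := by
      rw [abs_mul, abs_mul, abs_of_pos r0, abs_of_nonneg f0]
      calc |p - 2 * q| * r * f ≤ |p - 2 * q| * r * 1 :=
            mul_le_mul_of_nonneg_left f1 (by positivity)
        _ ≤ 2 * (p + q) * r * 1 := by
            rw [mul_one, mul_one]
            exact mul_le_mul_of_nonneg_right hA r0.le
        _ = 2 * u := by rw [hu]; ring
    have a2 : |2 * e| ≤ 2 := by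
      rw [abs_of_nonneg (by linarith)]; linarith
    linarith
  have t2 : |(p - 2 * q) * r ^ 2 * (p * f + q * s)| ≤ 2 * u ^ 2 := by
    have b1 : |p * f + q * s| ≤ p + q := by
      rw [abs_of_nonneg (by positivity)]
      have : p * f ≤ p * 1 := mul_le_mul_of_nonneg_left f1 hp
      have : q * s ≤ q * 1 := mul_le_mul_of_nonneg_left (by linarith) hq
      linarith
    rw [abs_mul, abs_mul, abs_of_pos (by positivity : 0 < r ^ 2)]
    calc |p - 2 * q| * r ^ 2 * |p * f + q * s| ≤ 2 * (p + q) * r ^ 2 * (p + q) :=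
          mul_le_mul (mul_le_mul_of_nonneg_right hA (by positivity)) b1 (abs_nonneg _)
            (by positivity)
      _ = 2 * u ^ 2 := by rw [hu]; ring
  have t3 : |2 * (p - 2 * q) * r * k| ≤ 4 * u := by
    rw [abs_mul, abs_mul, abs_mul, abs_of_pos r0, abs_of_nonneg k0, abs_of_pos (by norm_num : (0 : ℝ) < 2)]
    calc 2 * |p - 2 * q| * r * k ≤ 2 * |p - 2 * q| * r * 1 :=
          mul_le_mul_of_nonneg_left k1 (by positivity)
      _ ≤ 2 * (2 * (p + q)) * r * 1 := by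
          rw [mul_one, mul_one]
          exact mul_le_mul_of_nonneg_right (by linarith) r0.le
      _ = 4 * u := by rw [hu]; ring
  have t4 : -1 ≤ (p * r - 2 * v) * e := by
    have : 0 ≤ p * r * e := by positivity
    nlinarith
  have m1 := (abs_le.1 t1).1
  have m2 := (abs_le.1 t2).1
  have m3 := (abs_le.1 t3).2
  rw [← hu]
  nlinarith

/-- the bound for long vectors -/
private theorem long {c1 r y : ℝ} (hr : 43 / 10 ≤ r) (hy : 0 ≤ y)
    (hc : -(1 / 4) ≤ c1) (hc' : c1 ≤ 29 / 4) {x : Fin 3 → ℤ} (hx : 16 ≤ keyP x + keyQ x) :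
    -hB c1 r y (pp x) (qq x) ≤ 37 / 40 * RR x := by
  have hp := pp_key x
  have hq := qq_key x
  obtain ⟨P, hP⟩ : ∃ P, P = keyP x := ⟨_, rfl⟩
  obtain ⟨Q, hQ⟩ : ∃ Q, Q = keyQ x := ⟨_, rfl⟩
  unfold RR
  rw [if_pos hx]
  rw [← hP, ← hQ] at hx
  rw [← hP] at hp
  rw [← hQ] at hq
  rw [← hP, ← hQ, hp, hq]
  have hS : (16 : ℝ) ≤ (P : ℝ) + Q := by exact_mod_cast hx
  have P0 : (0 : ℝ) ≤ P := Nat.cast_nonneg _
  have Q0 : (0 : ℝ) ≤ Q := Nat.cast_nonneg _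
  have hb := bracket (c1 := c1) (r := r) (y := y) (p := (P : ℝ) / 4) (q := (Q : ℝ) / 4) hr hy hc hc'
    (by positivity) (by positivity) (by linarith)
  obtain ⟨X, hX⟩ : ∃ X, X = c1 * (((P : ℝ) / 4 - 2 * ((Q : ℝ) / 4)) * r * ph ((Q : ℝ) / 4 * y) +
      2 * Real.exp (-((Q : ℝ) / 4 * y))) +
      ((P : ℝ) / 4 - 2 * ((Q : ℝ) / 4)) * r ^ 2 * ((P : ℝ) / 4 * ph ((Q : ℝ) / 4 * y) +
        (Q : ℝ) / 4 * ((Q : ℝ) / 4 * y * ta ((Q : ℝ) / 4 * y))) -
      2 * ((P : ℝ) / 4 - 2 * ((Q : ℝ) / 4)) * r * ((Q : ℝ) / 4 * y * ka ((Q : ℝ) / 4 * y)) +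
      ((P : ℝ) / 4 * r - 2 * ((Q : ℝ) / 4 * y)) * Real.exp (-((Q : ℝ) / 4 * y)) := ⟨_, rfl⟩
  rw [← hX] at hb
  have hh : hB c1 r y ((P : ℝ) / 4) ((Q : ℝ) / 4) =
      (Q : ℝ) / 4 * Real.exp (-(((P : ℝ) / 4 + (Q : ℝ) / 4 - 1) * r)) * X := by
    rw [hX]; rfl
  rw [hh]
  obtain ⟨N, hN⟩ : ∃ N : ℝ, N = (P : ℝ) / 4 + (Q : ℝ) / 4 := ⟨_, rfl⟩
  rw [← hN] at hb ⊢
  have N4 : 4 ≤ N := by rw [hN]; linarith
  have g1 : r * Real.exp (-((N - 1) / 2 * r)) ≤
      43 / 10 * Real.exp (-((N - 1) / 2 * (43 / 10))) :=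
    EPH.mul_exp_anti (by norm_num) (by linarith) hr
  have g2 := pow_le_pow_left₀ (by positivity) g1 2
  have g3 : (r * Real.exp (-((N - 1) / 2 * r))) ^ 2 = r ^ 2 * Real.exp (-((N - 1) * r)) := by
    rw [mul_pow, ← Real.exp_nat_mul]; congr 2; push_cast; ring
  have g4 : (43 / 10 * Real.exp (-((N - 1) / 2 * (43 / 10)))) ^ 2 =
      (43 / 10) ^ 2 * Real.exp (-(43 / 40)) ^ (P + Q - 4) := by
    obtain ⟨k, hk⟩ : ∃ k, P + Q = 4 + k := ⟨P + Q - 4, by omega⟩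
    have hk' : (P : ℝ) + Q = 4 + k := by exact_mod_cast hk
    have h5 : P + Q - 4 = k := by omega
    rw [mul_pow, ← Real.exp_nat_mul, h5, ← Real.exp_nat_mul]
    congr 2
    have : N = 1 + (k : ℝ) / 4 := by rw [hN]; linarith
    rw [this]
    push_cast
    ring
  rw [g3, g4] at g2
  have g5 : Real.exp (-(43 / 40)) ^ (P + Q - 4) ≤ (7 / 20) ^ (P + Q - 4) :=
    pow_le_pow_left₀ (Real.exp_pos _).le e1075 _
  have g6 : r ^ 2 * Real.exp (-((N - 1) * r)) ≤ (43 / 10) ^ 2 * (7 / 20) ^ (P + Q - 4) :=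
    g2.trans (mul_le_mul_of_nonneg_left g5 (by norm_num))
  have q0 : 0 ≤ (Q : ℝ) / 4 * Real.exp (-((N - 1) * r)) := by positivity
  have g7 := mul_le_mul_of_nonneg_left hb q0
  have g8 : -((Q : ℝ) / 4 * Real.exp (-((N - 1) * r)) * X) ≤
      (Q : ℝ) / 4 * (16 / 5 * N ^ 2) * (r ^ 2 * Real.exp (-((N - 1) * r))) := by
    linarith
  have g9 : (Q : ℝ) / 4 * (16 / 5 * N ^ 2) * (r ^ 2 * Real.exp (-((N - 1) * r))) ≤
      (Q : ℝ) / 4 * (16 / 5 * N ^ 2) * ((43 / 10) ^ 2 * (7 / 20) ^ (P + Q - 4)) :=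
    mul_le_mul_of_nonneg_left g6 (by positivity)
  have hN' : N = ((P : ℝ) + Q) / 4 := by rw [hN]; ring
  have g10 : (Q : ℝ) / 4 * (16 / 5 * N ^ 2) * ((43 / 10) ^ 2 * (7 / 20) ^ (P + Q - 4)) =
      9245 / 10000 * ((Q : ℝ) * ((P : ℝ) + Q) ^ 2 * (7 / 20) ^ (P + Q - 4)) := by
    rw [hN']; ring
  have g11 : 0 ≤ (Q : ℝ) * ((P : ℝ) + Q) ^ 2 * (7 / 20) ^ (P + Q - 4) := by positivity
  linarith

private theorem cube_pow {n : ℕ} (hn : 32 ≤ n) : (n : ℝ) ^ 3 * (9 / 20) ^ n ≤ 3 / 10 ^ 7 := by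
  induction n, hn using Nat.le_induction with
  | base => norm_num
  | succ n hn ih =>
    have h1 : (32 : ℝ) ≤ n := by exact_mod_cast hn
    have h2 : ((n : ℝ) + 1) ^ 3 ≤ 20 / 9 * (n : ℝ) ^ 3 := by nlinarith [sq_nonneg ((n : ℝ) - 32)]
    push_cast
    rw [pow_succ (9 / 20 : ℝ) n]
    have h3 : (0 : ℝ) ≤ (9 / 20) ^ n := by positivity
    have h4 := mul_le_mul_of_nonneg_right h2 h3
    linarith

private theorem far {c1 r y : ℝ} (hr : 43 / 10 ≤ r) (hy : 0 ≤ y)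
    (hc : -(1 / 4) ≤ c1) (hc' : c1 ≤ 29 / 4) {x : Fin 3 → ℤ} (hx : 32 ≤ keyP x + keyQ x) :
    -hB c1 r y (pp x) (qq x) ≤
      1 / 10000 * Real.exp (-(((x 0 : ℝ) ^ 2 + (x 1 : ℝ) ^ 2 + (x 2 : ℝ) ^ 2) / 4)) := by
  have h1 := long hr hy hc hc' (x := x) (by omega)
  have h2 := key_norm x
  obtain ⟨k, hk⟩ : ∃ k, keyP x + keyQ x = 4 + k := ⟨keyP x + keyQ x - 4, by omega⟩
  have hk' : (keyP x : ℝ) + keyQ x = ((keyP x + keyQ x : ℕ) : ℝ) := by push_cast; rfl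
  have h3 : RR x ≤ (160000 / 2401) * (((keyP x + keyQ x : ℕ) : ℝ) ^ 3 * (9 / 20) ^ (keyP x + keyQ x) *
      Real.exp (-(1 / 4)) ^ (keyP x + keyQ x)) := by
    unfold RR
    rw [if_pos (by omega), hk']
    have a1 : (keyQ x : ℝ) ≤ ((keyP x + keyQ x : ℕ) : ℝ) := by push_cast; linarith [(Nat.cast_nonneg (keyP x) : (0 : ℝ) ≤ keyP x)]
    have a2 : ((7 : ℝ) / 20) ^ (keyP x + keyQ x - 4) =
        160000 / 2401 * (7 / 20) ^ (keyP x + keyQ x) := by
      have h5 : keyP x + keyQ x - 4 = k := by omega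
      rw [h5, hk, pow_add]
      norm_num
      ring
    have a3 : ((7 : ℝ) / 20) ^ (keyP x + keyQ x) ≤
        (9 / 20) ^ (keyP x + keyQ x) * Real.exp (-(1 / 4)) ^ (keyP x + keyQ x) := by
      rw [← mul_pow]
      refine pow_le_pow_left₀ (by norm_num) ?_ _
      have := e14
      linarith
    rw [a2]
    obtain ⟨S, hS⟩ : ∃ S : ℕ, S = keyP x + keyQ x := ⟨_, rfl⟩
    rw [← hS] at a1 a3 ⊢
    calc (keyQ x : ℝ) * (S : ℝ) ^ 2 * (160000 / 2401 * (7 / 20) ^ S)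
        ≤ (S : ℝ) * (S : ℝ) ^ 2 * (160000 / 2401 * (7 / 20) ^ S) :=
          mul_le_mul_of_nonneg_right (mul_le_mul_of_nonneg_right a1 (by positivity))
            (by positivity)
      _ = 160000 / 2401 * (S : ℝ) ^ 3 * (7 / 20) ^ S := by ring
      _ ≤ 160000 / 2401 * (S : ℝ) ^ 3 * ((9 / 20) ^ S * Real.exp (-(1 / 4)) ^ S) :=
          mul_le_mul_of_nonneg_left a3 (by positivity)
      _ = _ := by ring
  have h4 := cube_pow hx
  have h5 : Real.exp (-(1 / 4)) ^ (keyP x + keyQ x) ≤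
      Real.exp (-(((x 0 : ℝ) ^ 2 + (x 1 : ℝ) ^ 2 + (x 2 : ℝ) ^ 2) / 4)) := by
    rw [← Real.exp_nat_mul]
    apply Real.exp_le_exp.2
    push_cast
    linarith
  have e0 : 0 ≤ Real.exp (-(1 / 4)) ^ (keyP x + keyQ x) := by positivity
  have h6 := mul_le_mul_of_nonneg_right h4 e0
  have e1 : 0 ≤ Real.exp (-(((x 0 : ℝ) ^ 2 + (x 1 : ℝ) ^ 2 + (x 2 : ℝ) ^ 2) / 4)) := by positivity
  nlinarith

/-- the key `(10, 1)` -/
private theorem keyG {c1 r y : ℝ} (hr : 43 / 10 ≤ r) (hy : 0 ≤ y) (hyr : 2 * y ≤ r)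
    (hc : -(1 / 4) ≤ c1) : 0 ≤ hB c1 r y (5 / 2) (1 / 4) := by
  unfold hB
  obtain ⟨v, hv⟩ : ∃ v, v = 1 / 4 * y := ⟨_, rfl⟩
  rw [← hv]
  have v0 : 0 ≤ v := by rw [hv]; positivity
  obtain ⟨f, hf⟩ : ∃ f, f = ph v := ⟨_, rfl⟩
  obtain ⟨e, he⟩ : ∃ e, e = Real.exp (-v) := ⟨_, rfl⟩
  obtain ⟨k, hk⟩ : ∃ k, k = v * ka v := ⟨_, rfl⟩
  obtain ⟨s, hs⟩ : ∃ s, s = v * ta v := ⟨_, rfl⟩
  rw [← hf, ← he, ← hk, ← hs]
  have f0 : 0 ≤ f := by rw [hf]; exact (ph_pos v).le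
  have e0 : 0 ≤ e := by rw [he]; exact (Real.exp_pos _).le
  have k1 : k = f - e := by rw [hk, hf, he]; exact ka_mul v
  have s0 : 0 ≤ s := by rw [hs]; exact mul_nonneg v0 (ta_pos v).le
  refine mul_nonneg (by positivity) ?_
  have r0 : 0 < r := by linarith
  have t1 : -(1 / 4) * (2 * r * f + 2 * e) ≤ c1 * ((5 / 2 - 2 * (1 / 4)) * r * f + 2 * e) := by
    have : (5 / 2 - 2 * (1 / 4)) * r * f + 2 * e = 2 * r * f + 2 * e := by ring
    rw [this]
    exact mul_le_mul_of_nonneg_right hc (by positivity)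
  have t2 : 5 * r ^ 2 * f ≤ (5 / 2 - 2 * (1 / 4)) * r ^ 2 * (5 / 2 * f + 1 / 4 * s) := by
    have : 0 ≤ r ^ 2 * s := by positivity
    nlinarith
  have t3 : 2 * (5 / 2 - 2 * (1 / 4)) * r * k = 4 * r * f - 4 * r * e := by rw [k1]; ring
  have t4 : 0 ≤ f * (r * (5 * r - 9 / 2)) := by
    have : 0 ≤ 5 * r - 9 / 2 := by linarith
    positivity
  have t5 : 0 ≤ e * (13 / 2 * r - 2 * v - 1 / 2) := by
    have : 0 ≤ 13 / 2 * r - 2 * v - 1 / 2 := by rw [hv]; linarith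
    positivity
  rw [t3]
  nlinarith

/-- the key `(8, 4)` -/
private theorem keyH {c1 r y : ℝ} (hr : 43 / 10 ≤ r) (hyr : 2 * y ≤ r)
    (hc : -(1 / 4) ≤ c1) : 0 ≤ hB c1 r y 2 1 := by
  unfold hB
  have e : c1 * ((2 - 2 * 1) * r * ph (1 * y) + 2 * Real.exp (-(1 * y))) +
      (2 - 2 * 1) * r ^ 2 * (2 * ph (1 * y) + 1 * (1 * y * ta (1 * y))) -
      2 * (2 - 2 * 1) * r * (1 * y * ka (1 * y)) +
      (2 * r - 2 * (1 * y)) * Real.exp (-(1 * y)) =
      (2 * c1 + 2 * r - 2 * y) * Real.exp (-(1 * y)) := by ring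
  rw [e]
  have : 0 ≤ 2 * c1 + 2 * r - 2 * y := by linarith
  positivity

/-- the upper bound on the box -/
private noncomputable def UU (c1 r y : ℝ) (x : Fin 3 → ℤ) : ℝ :=
  (((if keyP x = 2 ∧ keyQ x = 1 then -hB c1 r y (1 / 2) (1 / 4) else 0) +
    (if keyP x = 0 ∧ keyQ x = 4 then -hB c1 r y 0 1 else 0)) +
    (if keyP x = 4 ∧ keyQ x = 4 then -hB c1 r y 1 1 else 0)) +
    (if keyP x = 2 ∧ keyQ x = 9 then -hB c1 r y (1 / 2) (9 / 4) else 0) + 37 / 40 * RR x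

private theorem le_UU {c1 r y : ℝ} (hr : 43 / 10 ≤ r) (hy : 0 ≤ y) (hyr : 2 * y ≤ r)
    (hc : -(1 / 4) ≤ c1) (hc' : c1 ≤ 29 / 4) (x : Fin 3 → ℤ) :
    -hB c1 r y (pp x) (qq x) ≤ UU c1 r y x := by
  have hR := RR_nn x
  unfold UU
  by_cases hQ : keyQ x = 0
  · have h1 : qq x = 0 := by rw [qq_key, hQ]; simp
    rw [if_neg (by omega), if_neg (by omega), if_neg (by omega), if_neg (by omega), h1]
    have : hB c1 r y (pp x) 0 = 0 := by unfold hB; ring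
    rw [this]
    linarith
  · by_cases hS : keyP x + keyQ x < 16
    · rcases key_small hQ hS with h | h | h | h | h | h
      · rw [if_pos h, if_neg (by omega), if_neg (by omega), if_neg (by omega), pp_key, qq_key,
          h.1, h.2]
        norm_num
        linarith
      · rw [if_neg (by omega), if_pos h, if_neg (by omega), if_neg (by omega), pp_key, qq_key,
          h.1, h.2]
        norm_num
        linarith
      · rw [if_neg (by omega), if_neg (by omega), if_pos h, if_neg (by omega), pp_key, qq_key,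
          h.1, h.2]
        norm_num
        linarith
      · rw [if_neg (by omega), if_neg (by omega), if_neg (by omega), if_pos h, pp_key, qq_key,
          h.1, h.2]
        norm_num
        linarith
      · rw [if_neg (by omega), if_neg (by omega), if_neg (by omega), if_neg (by omega), pp_key,
          qq_key, h.1, h.2]
        have e1 : ((10 : ℕ) : ℝ) / 4 = 5 / 2 := by norm_num
        have e2 : ((1 : ℕ) : ℝ) / 4 = 1 / 4 := by norm_num
        rw [e1, e2]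
        have := keyG hr hy hyr hc
        linarith
      · rw [if_neg (by omega), if_neg (by omega), if_neg (by omega), if_neg (by omega), pp_key,
          qq_key, h.1, h.2]
        have e1 : ((8 : ℕ) : ℝ) / 4 = 2 := by norm_num
        have e2 : ((4 : ℕ) : ℝ) / 4 = 1 := by norm_num
        rw [e1, e2]
        have := keyH hr hyr hc
        linarith
    · rw [if_neg (by omega), if_neg (by omega), if_neg (by omega), if_neg (by omega)]
      have := long hr hy hc hc' (x := x) (by omega)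
      linarith

private theorem UU_sum (c1 r y : ℝ) : ∑ i, UU c1 r y (bx i) ≤ -mB c1 r y + 37 / 800 := by
  have h1 := sum_class (p := fun i => keyP (bx i) = 2 ∧ keyQ (bx i) = 1)
    (-hB c1 r y (1 / 2) (1 / 4))
  have h2 := sum_class (p := fun i => keyP (bx i) = 0 ∧ keyQ (bx i) = 4) (-hB c1 r y 0 1)
  have h3 := sum_class (p := fun i => keyP (bx i) = 4 ∧ keyQ (bx i) = 4) (-hB c1 r y 1 1)
  have h4 := sum_class (p := fun i => keyP (bx i) = 2 ∧ keyQ (bx i) = 9)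
    (-hB c1 r y (1 / 2) (9 / 4))
  rw [card_A] at h1
  rw [card_C] at h2
  rw [card_D] at h3
  rw [card_F] at h4
  unfold UU
  rw [Finset.sum_add_distrib, Finset.sum_add_distrib, Finset.sum_add_distrib,
    Finset.sum_add_distrib, h1, h2, h3, h4, ← Finset.mul_sum]
  have := RR_sum
  unfold mB
  push_cast
  linarith

end TailBAux

open TailBAux in
theorem tail_bcc {c1 r y : ℝ} (hr : 43 / 10 ≤ r) (hy : 0 ≤ y) (hyr : 2 * y ≤ r)
    (hc : -(1 / 4) ≤ c1) (hc' : c1 ≤ 29 / 4)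
    (hs : Summable fun x : Fin 3 → ℤ => hB c1 r y (pp x) (qq x)) :
    mB c1 r y - 1 / 10 ≤ ∑' x : Fin 3 → ℤ, hB c1 r y (pp x) (qq x) := by
  have h := tsum_le_box (f := fun x => -hB c1 r y (pp x) (qq x)) (U := UU c1 r y) hs.neg
    (ε := 1 / 10000) (by norm_num) (fun i => le_UU hr hy hyr hc hc' (bx i))
    (fun x hx => far hr hy hc hc' (key_ge hx))
  rw [tsum_neg] at h
  have := UU_sum c1 r y
  linarith

end Pool.Agent.Lib.EPC
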