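import Pool.Agent.Lib.EPC.RepD
import Pool.Agent.Lib.EPC.Fn
import Pool.Agent.Lib.EPC.BoxS

/-!
# The fcc side: main terms and tail

PROOF. `f x = hF m1 r z (pp x) (qq x)`, apply `tsum_le_box`. Write `p = pp x = P/4`, `q = qq x = Q/4`,
`N = p + 2 q`, `A = p - 4 q`, `v = q z ≥ 0`. For `v ≥ 0` (`ph_neg`, `ka_neg`, `ta_neg`): `ph (-v) = e^v ph v`,
`v ka (-v) = e^v - ph (-v) = e^v (1 - ph v)`, `v ta (-v) = e^v (v ta v)`; so all three are in `[0, e^v]`,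
the last one in `[0, 3/20 e^v]` (`th_le`).
1. `Q = 0`: `hF = 0`.
2. Keys `(2,1), (0,4), (4,4)` are the main terms (cardinalities 8, 2, 8).
3. Key `(10,1)` (16 vectors; `p = 5/2`, `q = 1/4`, `N = 3`, `A = 3/2`): the `m1` part is `≤ 0`, so
   `hF ≤ 1/4 e^{-2r} e^v (3/2 r² (5/2) + 3 r + 5/2 r + 2 v)`, `v ≤ r/8`, `e^{-2r + r/8}`; at `r = 3.95`:
   `16 hF ≤ .20` (decreasing in `r`). Wanted: `16 hF ≤ .21`.
4. All other keys with `Q > 0` have `P + 2 Q ≥ 16` (`key_smallF`), i.e. `N ≥ 4`. Upper bound of the bracket divided by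
   `e^v`: if `A < 0` (`0 < -A ≤ 2 N`): `m1 |A| r + |A| r² 2 q (3/20) + p r + 2 v`; if `A ≥ 0` (`A ≤ N`): `A r² p + 2 A r + p r + 2 v`;
   `m1 ≤ 19/4`, `q ≤ N/2`, `v ≤ q r/2 ≤ N r/4`: in both cases `≤ N² r² + 13 N r ≤ 1.83 N² r²` (`N r ≥ 15.8`). Hence
   `hF ≤ 1.83 q N² r² e^{-(N - 1 - q/2) r}`, `N - 1 - q/2 ≥ 3 N/4 - 1 ≥ 2`, decreasing in `r ≥ 3.95`:
   `≤ 1.83 (3.95)²/64 * Q (P+2Q)² (e^{-3.95/8})^(2P+3Q-8)`, `e^{-.49375} ≤ 0.611` (true .61033).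
5. In the box: `∑ i, Q > 0, P + 2Q ≥ 16: Q (P+2Q)² (611/1000)^(2P+3Q-8)` is a rational number; with the factor
`1.83 (3.95)²/64` the total is `.348` (wanted: `≤ .37`), `decide +kernel` on natural numbers (e.g. a table
`up k` with `(611/1000)^k ≤ up k / 10^12`, `up (k+1) = up k * 611 / 1000 + 1`).
6. Outside the box `P + Q = n ≥ 32`, so `2P + 3Q - 8 ≥ 2 n - 8`, `Q ≤ n`, `P + 2 Q ≤ 2 n`: the bound of 4. is
`≤ 1.83*15.61/64 * n (2n)² (.611)^(2n-8) ≤ ε e^{-n/4} ≤ ε e^{-|x|²/4}` (`key_norm`) with `ε = 1/5000`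
(at `n = 32` the quotient is `.00018`, it decreases), `45 ε ≤ .009`.
Total: `.21 + .37 + .009 ≤ .6`. The statement has been tested numerically (true tail `≤ .137`).
-/

namespace Pool.Agent.Lib.EPC

open Pool.Agent.Lib.EpZ Pool.Agent.Lib.EPS Pool.Agent.Lib.EPL

namespace TailFAux

/-- the natural number of a box -/
private def TN (i : Fin 7 × Fin 7 × Fin 7) : ℕ :=
  if 16 ≤ keyP (bx i) + 2 * keyQ (bx i) then
    keyQ (bx i) * (keyP (bx i) + 2 * keyQ (bx i)) ^ 2 *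
      8 ^ (2 * keyP (bx i) + 3 * keyQ (bx i) - 8) *
      13 ^ (300 - (2 * keyP (bx i) + 3 * keyQ (bx i))) else 0

private theorem key_le_300 : ∀ i, 2 * keyP (bx i) + 3 * keyQ (bx i) ≤ 300 := by
  decide +kernel

private theorem TN_sum : (∑ i, TN i) * 25 ≤ 23 * 13 ^ 292 := by
  decide +kernel

/-- the bound for long vectors -/
private noncomputable def RR (x : Fin 3 → ℤ) : ℝ :=
  if 16 ≤ keyP x + 2 * keyQ x then
    (keyQ x : ℝ) * ((keyP x : ℝ) + 2 * keyQ x) ^ 2 * (8 / 13) ^ (2 * keyP x + 3 * keyQ x - 8)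
  else 0

private theorem RR_nn (x : Fin 3 → ℤ) : 0 ≤ RR x := by
  unfold RR; split_ifs <;> positivity

private theorem RR_TN (i : Fin 7 × Fin 7 × Fin 7) : RR (bx i) * 13 ^ 292 = (TN i : ℝ) := by
  unfold RR TN
  split_ifs with h
  · have h2 := key_le_300 i
    obtain ⟨k, hk⟩ : ∃ k, 2 * keyP (bx i) + 3 * keyQ (bx i) = 8 + k :=
      ⟨2 * keyP (bx i) + 3 * keyQ (bx i) - 8, by omega⟩
    have h3 : (13 : ℝ) ^ 292 = 13 ^ k * 13 ^ (300 - (8 + k)) := by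
      rw [← pow_add]; congr 1; omega
    rw [hk]
    have h5 : 8 + k - 8 = k := by omega
    rw [h5]
    push_cast
    rw [h3, div_pow]
    field_simp
  · simp

private theorem RR_sum : ∑ i, RR (bx i) ≤ 23 / 25 := by
  have h1 : (∑ i, RR (bx i)) * 13 ^ 292 = ((∑ i, TN i : ℕ) : ℝ) := by
    rw [Finset.sum_mul, Nat.cast_sum]
    exact Finset.sum_congr rfl fun i _ => RR_TN i
  have h2 : ((∑ i, TN i : ℕ) : ℝ) * 25 ≤ 23 * 13 ^ 292 := by exact_mod_cast TN_sum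
  rw [← h1] at h2
  have h3 : (0 : ℝ) < 13 ^ 292 := by positivity
  have h4 : (∑ i, RR (bx i)) * 25 * 13 ^ 292 ≤ 23 * 13 ^ 292 := by
    rw [mul_right_comm]
    exact h2
  exact (le_div_iff₀ (by norm_num)).2 (le_of_mul_le_mul_right h4 h3)

private theorem e160 : Real.exp (-(79 / 160)) ≤ 8 / 13 := by
  have h1 := Real.quadratic_le_exp_of_nonneg (show (0 : ℝ) ≤ 79 / 320 by norm_num)
  have h2 : Real.exp (79 / 160) = Real.exp (79 / 320) ^ 2 := by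
    rw [← Real.exp_nat_mul]; congr 1; norm_num
  have h3 : (13 / 8 : ℝ) ≤ Real.exp (79 / 160) := by
    rw [h2]
    have h4 : (1 + 79 / 320 + (79 / 320) ^ 2 / 2 : ℝ) ^ 2 ≤ Real.exp (79 / 320) ^ 2 :=
      pow_le_pow_left₀ (by norm_num) h1 2
    norm_num at h4 ⊢
    linarith
  rw [Real.exp_neg, inv_le_comm₀ (Real.exp_pos _) (by norm_num)]
  linarith

private theorem e14 : 7 / 9 ≤ Real.exp (-(1 / 4)) := by
  have h1 : Real.exp (1 / 4) ≤ 9 / 7 := by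
    have h2 : Real.exp (1 / 4) ^ 4 = Real.exp 1 := by
      rw [← Real.exp_nat_mul]; norm_num
    have h3 := Real.exp_one_lt_d9
    by_contra hc
    push Not at hc
    have h4 : (9 / 7 : ℝ) ^ 4 ≤ Real.exp (1 / 4) ^ 4 := pow_le_pow_left₀ (by norm_num) hc.le 4
    rw [h2] at h4
    norm_num at h4 h3
    linarith
  rw [Real.exp_neg]
  rw [le_inv_comm₀ (by norm_num) (Real.exp_pos _)]
  linarith

/-- the size of the bracket -/
private theorem bracket {m1 r z p q : ℝ} (hr : 79 / 20 ≤ r) (hz : 0 ≤ z) (hzr : 2 * z ≤ r)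
    (hm : 1 / 4 ≤ m1) (hm' : m1 ≤ 19 / 4) (hp : 0 ≤ p) (hq : 0 ≤ q) (hN : 4 ≤ p + 2 * q) :
    -(m1 * ((p - 4 * q) * r * ph (-(q * z)) + 2 * Real.exp (q * z))) +
      (p - 4 * q) * r ^ 2 * (p * ph (-(q * z)) - 2 * q * (q * z * ta (-(q * z)))) +
      2 * (p - 4 * q) * r * (q * z * ka (-(q * z))) +
      (p * r + 2 * (q * z)) * Real.exp (q * z) ≤
      5 / 4 * ((p + 2 * q) * r) ^ 2 * Real.exp (q * z) := by
  obtain ⟨v, hv⟩ : ∃ v, v = q * z := ⟨_, rfl⟩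
  rw [← hv]
  have v0 : 0 ≤ v := by rw [hv]; positivity
  have vq : v ≤ q * r / 2 := by
    rw [hv]
    have := mul_le_mul_of_nonneg_left hzr hq
    linarith
  obtain ⟨f, hf⟩ : ∃ f, f = ph v := ⟨_, rfl⟩
  obtain ⟨e, he⟩ : ∃ e, e = Real.exp v := ⟨_, rfl⟩
  obtain ⟨s, hs⟩ : ∃ s, s = v * ta v := ⟨_, rfl⟩
  have f0 : 0 ≤ f := by rw [hf]; exact (ph_pos v).le
  have f1 : f ≤ 1 := by rw [hf, ← ph_zero]; exact ph_anti v0
  have e0 : 0 ≤ e := by rw [he]; exact (Real.exp_pos _).le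
  have s0 : 0 ≤ s := by rw [hs]; exact mul_nonneg v0 (ta_pos v).le
  have s1 : s ≤ 3 / 20 := by rw [hs]; exact th_le v0
  have g1 : ph (-v) = e * f := by rw [ph_neg, he, hf]
  have g2 : v * ta (-v) = e * s := by rw [ta_neg, he, hs]; ring
  have g3 : v * ka (-v) = e * (1 - f) := by
    rw [ka_neg, ← he]
    have h1 := ph_mul v
    have h2 := ka_mul v
    have h3 : v * (ph v - ka v) = 1 - ph v := by linarith
    calc v * (e * (ph v - ka v)) = e * (v * (ph v - ka v)) := by ring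
      _ = _ := by rw [h3, hf]
  rw [g1, g2, g3, ← he]
  have r0 : 0 < r := by linarith
  obtain ⟨N, hN'⟩ : ∃ N, N = p + 2 * q := ⟨_, rfl⟩
  obtain ⟨u, hu⟩ : ∃ u, u = N * r := ⟨_, rfl⟩
  have N4 : 4 ≤ N := by rw [hN']; exact hN
  have u1 : 158 / 10 ≤ u := by rw [hu]; nlinarith
  have hqN : q ≤ N / 2 := by rw [hN']; linarith
  have hpN : p ≤ N := by rw [hN']; linarith
  have pr : p * r ≤ u := by rw [hu]; exact mul_le_mul_of_nonneg_right hpN r0.le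
  have vu : v ≤ u / 4 := by
    have := mul_le_mul_of_nonneg_right hqN r0.le
    rw [hu]; linarith
  have e5 : -(m1 * ((p - 4 * q) * r * (e * f) + 2 * e)) +
      (p - 4 * q) * r ^ 2 * (p * (e * f) - 2 * q * (e * s)) +
      2 * (p - 4 * q) * r * (e * (1 - f)) + (p * r + 2 * v) * e =
      (-(m1 * ((p - 4 * q) * r * f + 2)) + (p - 4 * q) * r ^ 2 * (p * f - 2 * q * s) +
      2 * (p - 4 * q) * r * (1 - f) + (p * r + 2 * v)) * e := by ring
  rw [e5, ← hN', ← hu]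
  refine mul_le_mul_of_nonneg_right ?_ e0
  have m0 : 0 ≤ m1 := by linarith
  rcases le_total 0 (p - 4 * q) with hA | hA
  · -- nonnegative coefficient
    have a1 : 0 ≤ m1 * ((p - 4 * q) * r * f + 2) := by positivity
    have a2 : (p - 4 * q) * r ^ 2 * (p * f - 2 * q * s) ≤ u ^ 2 := by
      have b1 : p * f - 2 * q * s ≤ N := by
        have c1 : p * f ≤ p * 1 := mul_le_mul_of_nonneg_left f1 hp
        have c2 : 0 ≤ 2 * q * s := by positivity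
        linarith
      have b2 : (p - 4 * q) * r ^ 2 * (p * f - 2 * q * s) ≤ (p - 4 * q) * r ^ 2 * N :=
        mul_le_mul_of_nonneg_left b1 (by positivity)
      have b3 : (p - 4 * q) * (r ^ 2 * N) ≤ N * (r ^ 2 * N) :=
        mul_le_mul_of_nonneg_right (by linarith) (by positivity)
      calc (p - 4 * q) * r ^ 2 * (p * f - 2 * q * s) ≤ (p - 4 * q) * r ^ 2 * N := b2
        _ = (p - 4 * q) * (r ^ 2 * N) := by ring
        _ ≤ N * (r ^ 2 * N) := b3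
        _ = u ^ 2 := by rw [hu]; ring
    have a3 : 2 * (p - 4 * q) * r * (1 - f) ≤ 2 * u := by
      have b1 : (p - 4 * q) * r ≤ u := by
        rw [hu]; exact mul_le_mul_of_nonneg_right (by linarith) r0.le
      have b2 : 0 ≤ (p - 4 * q) * r := by positivity
      have b3 : (p - 4 * q) * r * (1 - f) ≤ (p - 4 * q) * r * 1 :=
        mul_le_mul_of_nonneg_left (by linarith) b2
      linarith
    nlinarith
  · have hA' : 4 * q - p ≤ 2 * N := by rw [hN']; linarith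
    have hA0 : 0 ≤ 4 * q - p := by linarith
    have hAr : (4 * q - p) * r ≤ 2 * u := by
      have := mul_le_mul_of_nonneg_right hA' r0.le
      rw [hu]; linarith
    have hAr0 : 0 ≤ (4 * q - p) * r := by positivity
    have a1 : -(m1 * ((p - 4 * q) * r * f + 2)) ≤ 19 / 2 * u := by
      have b1 : (4 * q - p) * r * f ≤ 2 * u := by
        have : (4 * q - p) * r * f ≤ (4 * q - p) * r * 1 := mul_le_mul_of_nonneg_left f1 hAr0
        linarith
      have b0 : 0 ≤ (4 * q - p) * r * f := by positivity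
      have b2 : m1 * ((4 * q - p) * r * f) ≤ 19 / 4 * (2 * u) :=
        mul_le_mul hm' b1 b0 (by norm_num)
      have b3 : -(m1 * ((p - 4 * q) * r * f + 2)) = m1 * ((4 * q - p) * r * f) - 2 * m1 := by ring
      rw [b3]
      linarith
    have a2 : (p - 4 * q) * r ^ 2 * (p * f - 2 * q * s) ≤ 3 / 10 * u ^ 2 := by
      have b1 : 2 * q * s - p * f ≤ 3 / 20 * N := by
        have c1 : 0 ≤ p * f := by positivity
        have c2 : 2 * q * s ≤ 2 * q * (3 / 20) := mul_le_mul_of_nonneg_left s1 (by positivity)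
        linarith
      have b2 : (4 * q - p) * r ^ 2 * (2 * q * s - p * f) ≤ (4 * q - p) * r ^ 2 * (3 / 20 * N) :=
        mul_le_mul_of_nonneg_left b1 (by positivity)
      have b3 : (4 * q - p) * (r ^ 2 * (3 / 20 * N)) ≤ 2 * N * (r ^ 2 * (3 / 20 * N)) :=
        mul_le_mul_of_nonneg_right hA' (by positivity)
      calc (p - 4 * q) * r ^ 2 * (p * f - 2 * q * s)
          = (4 * q - p) * r ^ 2 * (2 * q * s - p * f) := by ring
        _ ≤ (4 * q - p) * r ^ 2 * (3 / 20 * N) := b2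
        _ = (4 * q - p) * (r ^ 2 * (3 / 20 * N)) := by ring
        _ ≤ 2 * N * (r ^ 2 * (3 / 20 * N)) := b3
        _ = 3 / 10 * u ^ 2 := by rw [hu]; ring
    have a3 : 2 * (p - 4 * q) * r * (1 - f) ≤ 0 := by
      have b1 : 0 ≤ (4 * q - p) * r * (1 - f) := mul_nonneg hAr0 (by linarith)
      linarith
    nlinarith

/-- the bound for long vectors -/
private theorem long {m1 r z : ℝ} (hr : 79 / 20 ≤ r) (hz : 0 ≤ z) (hzr : 2 * z ≤ r)
    (hm : 1 / 4 ≤ m1) (hm' : m1 ≤ 19 / 4) {x : Fin 3 → ℤ} (hx : 16 ≤ keyP x + 2 * keyQ x) :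
    hF m1 r z (pp x) (qq x) ≤ 61 / 200 * RR x := by
  have hp := pp_key x
  have hq := qq_key x
  obtain ⟨P, hP⟩ : ∃ P, P = keyP x := ⟨_, rfl⟩
  obtain ⟨Q, hQ⟩ : ∃ Q, Q = keyQ x := ⟨_, rfl⟩
  unfold RR
  rw [if_pos hx]
  rw [← hP, ← hQ] at hx
  rw [← hP] at hp
  rw [← hQ] at hq
  rw [← hP, ← hQ, hp, hq]
  have hS : (16 : ℝ) ≤ (P : ℝ) + 2 * Q := by exact_mod_cast hx
  have P0 : (0 : ℝ) ≤ P := Nat.cast_nonneg _
  have Q0 : (0 : ℝ) ≤ Q := Nat.cast_nonneg _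
  have hb := bracket (m1 := m1) (r := r) (z := z) (p := (P : ℝ) / 4) (q := (Q : ℝ) / 4) hr hz hzr
    hm hm' (by positivity) (by positivity) (by linarith)
  obtain ⟨X, hX⟩ : ∃ X, X = -(m1 * (((P : ℝ) / 4 - 4 * ((Q : ℝ) / 4)) * r *
      ph (-((Q : ℝ) / 4 * z)) + 2 * Real.exp ((Q : ℝ) / 4 * z))) +
      ((P : ℝ) / 4 - 4 * ((Q : ℝ) / 4)) * r ^ 2 * ((P : ℝ) / 4 * ph (-((Q : ℝ) / 4 * z)) -
        2 * ((Q : ℝ) / 4) * ((Q : ℝ) / 4 * z * ta (-((Q : ℝ) / 4 * z)))) +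
      2 * ((P : ℝ) / 4 - 4 * ((Q : ℝ) / 4)) * r * ((Q : ℝ) / 4 * z * ka (-((Q : ℝ) / 4 * z))) +
      ((P : ℝ) / 4 * r + 2 * ((Q : ℝ) / 4 * z)) * Real.exp ((Q : ℝ) / 4 * z) := ⟨_, rfl⟩
  rw [← hX] at hb
  have hh : hF m1 r z ((P : ℝ) / 4) ((Q : ℝ) / 4) =
      (Q : ℝ) / 4 * Real.exp (-(((P : ℝ) / 4 + 2 * ((Q : ℝ) / 4) - 1) * r)) * X := by
    rw [hX]; rfl
  rw [hh]
  obtain ⟨N, hN⟩ : ∃ N : ℝ, N = (P : ℝ) / 4 + 2 * ((Q : ℝ) / 4) := ⟨_, rfl⟩
  rw [← hN] at hb ⊢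
  have N4 : 4 ≤ N := by rw [hN]; linarith
  obtain ⟨κ, hκ⟩ : ∃ κ : ℝ, κ = N - 1 - (Q : ℝ) / 8 := ⟨_, rfl⟩
  have κ2 : 2 ≤ κ := by rw [hκ, hN]; linarith
  have g1 : r * Real.exp (-(κ / 2 * r)) ≤ 79 / 20 * Real.exp (-(κ / 2 * (79 / 20))) :=
    EPH.mul_exp_anti (by norm_num) (by linarith) hr
  have g2 := pow_le_pow_left₀ (by positivity) g1 2
  have g3 : (r * Real.exp (-(κ / 2 * r))) ^ 2 = r ^ 2 * Real.exp (-(κ * r)) := by
    rw [mul_pow, ← Real.exp_nat_mul]; congr 2; push_cast; ring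
  have g4 : (79 / 20 * Real.exp (-(κ / 2 * (79 / 20)))) ^ 2 =
      (79 / 20) ^ 2 * Real.exp (-(79 / 160)) ^ (2 * P + 3 * Q - 8) := by
    obtain ⟨k, hk⟩ : ∃ k, 2 * P + 3 * Q = 8 + k := ⟨2 * P + 3 * Q - 8, by omega⟩
    have hk' : 2 * (P : ℝ) + 3 * Q = 8 + k := by exact_mod_cast hk
    have h5 : 2 * P + 3 * Q - 8 = k := by omega
    rw [mul_pow, ← Real.exp_nat_mul, h5, ← Real.exp_nat_mul]
    congr 2
    have : κ = (k : ℝ) / 8 := by rw [hκ, hN]; linarith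
    rw [this]
    push_cast
    ring
  rw [g3, g4] at g2
  have g5 : Real.exp (-(79 / 160)) ^ (2 * P + 3 * Q - 8) ≤ (8 / 13) ^ (2 * P + 3 * Q - 8) :=
    pow_le_pow_left₀ (Real.exp_pos _).le e160 _
  have g6 : r ^ 2 * Real.exp (-(κ * r)) ≤ (79 / 20) ^ 2 * (8 / 13) ^ (2 * P + 3 * Q - 8) :=
    g2.trans (mul_le_mul_of_nonneg_left g5 (by norm_num))
  have q0 : 0 ≤ (Q : ℝ) / 4 * Real.exp (-((N - 1) * r)) := by positivity
  have g7 := mul_le_mul_of_nonneg_left hb q0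
  have g8 : Real.exp (-((N - 1) * r)) * Real.exp ((Q : ℝ) / 4 * z) ≤ Real.exp (-(κ * r)) := by
    rw [← Real.exp_add]
    apply Real.exp_le_exp.2
    rw [hκ]
    have := mul_le_mul_of_nonneg_left hzr Q0
    linarith
  have g9 : (Q : ℝ) / 4 * Real.exp (-((N - 1) * r)) *
      (5 / 4 * (N * r) ^ 2 * Real.exp ((Q : ℝ) / 4 * z)) =
      (Q : ℝ) / 4 * (5 / 4 * N ^ 2) * (r ^ 2 * (Real.exp (-((N - 1) * r)) *
        Real.exp ((Q : ℝ) / 4 * z))) := by ring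
  rw [g9] at g7
  have g10 : (Q : ℝ) / 4 * (5 / 4 * N ^ 2) * (r ^ 2 * (Real.exp (-((N - 1) * r)) *
        Real.exp ((Q : ℝ) / 4 * z))) ≤
      (Q : ℝ) / 4 * (5 / 4 * N ^ 2) * (r ^ 2 * Real.exp (-(κ * r))) :=
    mul_le_mul_of_nonneg_left (mul_le_mul_of_nonneg_left g8 (by positivity)) (by positivity)
  have g11 : (Q : ℝ) / 4 * (5 / 4 * N ^ 2) * (r ^ 2 * Real.exp (-(κ * r))) ≤
      (Q : ℝ) / 4 * (5 / 4 * N ^ 2) * ((79 / 20) ^ 2 * (8 / 13) ^ (2 * P + 3 * Q - 8)) :=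
    mul_le_mul_of_nonneg_left g6 (by positivity)
  have hN' : N = ((P : ℝ) + 2 * Q) / 4 := by rw [hN]; ring
  have g12 : (Q : ℝ) / 4 * (5 / 4 * N ^ 2) * ((79 / 20) ^ 2 * (8 / 13) ^ (2 * P + 3 * Q - 8)) =
      6241 / 20480 * ((Q : ℝ) * ((P : ℝ) + 2 * Q) ^ 2 * (8 / 13) ^ (2 * P + 3 * Q - 8)) := by
    rw [hN']; ring
  have g13 : 0 ≤ (Q : ℝ) * ((P : ℝ) + 2 * Q) ^ 2 * (8 / 13) ^ (2 * P + 3 * Q - 8) := by positivity
  linarith

private theorem cube_pow {n : ℕ} (hn : 32 ≤ n) : (n : ℝ) ^ 3 * (49 / 100) ^ n ≤ 1 / 10 ^ 5 := by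
  induction n, hn using Nat.le_induction with
  | base => norm_num
  | succ n hn ih =>
    have h1 : (32 : ℝ) ≤ n := by exact_mod_cast hn
    have h2 : ((n : ℝ) + 1) ^ 3 ≤ 100 / 49 * (n : ℝ) ^ 3 := by
      nlinarith [sq_nonneg ((n : ℝ) - 32)]
    push_cast
    rw [pow_succ (49 / 100 : ℝ) n]
    have h3 : (0 : ℝ) ≤ (49 / 100) ^ n := by positivity
    have h4 := mul_le_mul_of_nonneg_right h2 h3
    linarith

private theorem far {m1 r z : ℝ} (hr : 79 / 20 ≤ r) (hz : 0 ≤ z) (hzr : 2 * z ≤ r)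
    (hm : 1 / 4 ≤ m1) (hm' : m1 ≤ 19 / 4) {x : Fin 3 → ℤ} (hx : 32 ≤ keyP x + keyQ x) :
    hF m1 r z (pp x) (qq x) ≤
      1 / 1000 * Real.exp (-(((x 0 : ℝ) ^ 2 + (x 1 : ℝ) ^ 2 + (x 2 : ℝ) ^ 2) / 4)) := by
  have h1 := long hr hz hzr hm hm' (x := x) (by omega)
  have h2 := key_norm x
  obtain ⟨S, hS⟩ : ∃ S : ℕ, S = keyP x + keyQ x := ⟨_, rfl⟩
  have hS' : (keyP x : ℝ) + keyQ x = (S : ℝ) := by rw [hS]; push_cast; rfl
  have P0 : (0 : ℝ) ≤ keyP x := Nat.cast_nonneg _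
  have Q0 : (0 : ℝ) ≤ keyQ x := Nat.cast_nonneg _
  have h3 : RR x ≤ 200 * ((S : ℝ) ^ 3 * (49 / 100) ^ S * Real.exp (-(1 / 4)) ^ S) := by
    unfold RR
    rw [if_pos (by omega)]
    have a1 : (keyQ x : ℝ) ≤ S := by linarith
    have a2 : (keyP x : ℝ) + 2 * keyQ x ≤ 2 * S := by linarith
    have a3 : ((8 : ℝ) / 13) ^ (2 * keyP x + 3 * keyQ x - 8) ≤ 50 * (64 / 169) ^ S := by
      have b1 : ((8 : ℝ) / 13) ^ (2 * keyP x + 3 * keyQ x - 8) ≤ (8 / 13) ^ (2 * S - 8) :=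
        pow_le_pow_of_le_one (by norm_num) (by norm_num) (by omega)
      obtain ⟨k, hk⟩ : ∃ k, S = 4 + k := ⟨S - 4, by omega⟩
      have b2 : ((8 : ℝ) / 13) ^ (2 * S - 8) = (64 / 169) ^ k := by
        have : 2 * S - 8 = 2 * k := by omega
        rw [this, pow_mul]
        norm_num
      have b3 : (64 / 169 : ℝ) ^ k ≤ 50 * (64 / 169) ^ S := by
        rw [hk, pow_add]
        have : (0 : ℝ) ≤ (64 / 169) ^ k := by positivity
        have c : (1 : ℝ) ≤ 50 * (64 / 169) ^ 4 := by norm_num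
        nlinarith
      linarith
    have a4 : (64 / 169 : ℝ) ^ S ≤ (49 / 100) ^ S * Real.exp (-(1 / 4)) ^ S := by
      rw [← mul_pow]
      refine pow_le_pow_left₀ (by norm_num) ?_ _
      have := e14
      linarith
    have a5 : ((keyP x : ℝ) + 2 * keyQ x) ^ 2 ≤ (2 * S) ^ 2 := pow_le_pow_left₀ (by linarith) a2 2
    calc (keyQ x : ℝ) * ((keyP x : ℝ) + 2 * keyQ x) ^ 2 * (8 / 13) ^ (2 * keyP x + 3 * keyQ x - 8)
        ≤ (S : ℝ) * (2 * S) ^ 2 * (50 * (64 / 169) ^ S) :=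
          mul_le_mul (mul_le_mul a1 a5 (by positivity) (by positivity)) a3 (by positivity)
            (by positivity)
      _ = 200 * (S : ℝ) ^ 3 * (64 / 169) ^ S := by ring
      _ ≤ 200 * (S : ℝ) ^ 3 * ((49 / 100) ^ S * Real.exp (-(1 / 4)) ^ S) :=
          mul_le_mul_of_nonneg_left a4 (by positivity)
      _ = _ := by ring
  have h4 := cube_pow (n := S) (by omega)
  have h5 : Real.exp (-(1 / 4)) ^ S ≤
      Real.exp (-(((x 0 : ℝ) ^ 2 + (x 1 : ℝ) ^ 2 + (x 2 : ℝ) ^ 2) / 4)) := by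
    rw [← Real.exp_nat_mul]
    apply Real.exp_le_exp.2
    linarith
  have e0 : 0 ≤ Real.exp (-(1 / 4)) ^ S := by positivity
  have h6 := mul_le_mul_of_nonneg_right h4 e0
  have e1 : 0 ≤ Real.exp (-(((x 0 : ℝ) ^ 2 + (x 1 : ℝ) ^ 2 + (x 2 : ℝ) ^ 2) / 4)) := by positivity
  nlinarith

/-- the key `(10, 1)` -/
private theorem keyG {m1 r z : ℝ} (hr : 79 / 20 ≤ r) (hz : 0 ≤ z) (hzr : 2 * z ≤ r)
    (hm : 1 / 4 ≤ m1) : 16 * hF m1 r z (5 / 2) (1 / 4) ≤ 1 / 5 := by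
  unfold hF
  obtain ⟨v, hv⟩ : ∃ v, v = 1 / 4 * z := ⟨_, rfl⟩
  rw [← hv]
  have v0 : 0 ≤ v := by rw [hv]; positivity
  have vr : v ≤ r / 8 := by rw [hv]; linarith
  obtain ⟨f, hf⟩ : ∃ f, f = ph v := ⟨_, rfl⟩
  obtain ⟨e, he⟩ : ∃ e, e = Real.exp v := ⟨_, rfl⟩
  obtain ⟨s, hs⟩ : ∃ s, s = v * ta v := ⟨_, rfl⟩
  have f0 : 0 ≤ f := by rw [hf]; exact (ph_pos v).le
  have f1 : f ≤ 1 := by rw [hf, ← ph_zero]; exact ph_anti v0
  have e0 : 0 ≤ e := by rw [he]; exact (Real.exp_pos _).le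
  have s0 : 0 ≤ s := by rw [hs]; exact mul_nonneg v0 (ta_pos v).le
  have g1 : ph (-v) = e * f := by rw [ph_neg, he, hf]
  have g2 : v * ta (-v) = e * s := by rw [ta_neg, he, hs]; ring
  have g3 : v * ka (-v) = e * (1 - f) := by
    rw [ka_neg, ← he]
    have h1 := ph_mul v
    have h2 := ka_mul v
    have h3 : v * (ph v - ka v) = 1 - ph v := by linarith
    calc v * (e * (ph v - ka v)) = e * (v * (ph v - ka v)) := by ring
      _ = _ := by rw [h3, hf]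
  rw [g1, g2, g3, ← he]
  have r0 : 0 < r := by linarith
  have m0 : 0 ≤ m1 := by linarith
  have e5 : -(m1 * ((5 / 2 - 4 * (1 / 4)) * r * (e * f) + 2 * e)) +
      (5 / 2 - 4 * (1 / 4)) * r ^ 2 * (5 / 2 * (e * f) - 2 * (1 / 4) * (e * s)) +
      2 * (5 / 2 - 4 * (1 / 4)) * r * (e * (1 - f)) + (5 / 2 * r + 2 * v) * e =
      (-(m1 * (3 / 2 * r * f + 2)) + 3 / 2 * r ^ 2 * (5 / 2 * f - 1 / 2 * s) +
      3 * r * (1 - f) + (5 / 2 * r + 2 * v)) * e := by ring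
  rw [e5]
  have h1 : -(m1 * (3 / 2 * r * f + 2)) + 3 / 2 * r ^ 2 * (5 / 2 * f - 1 / 2 * s) +
      3 * r * (1 - f) + (5 / 2 * r + 2 * v) ≤ 15 / 4 * r ^ 2 + 11 / 4 * r := by
    have b1 : 0 ≤ m1 * (3 / 2 * r * f + 2) := by positivity
    have b2 : 0 ≤ r ^ 2 * s := by positivity
    have b3 : 0 ≤ (15 / 4 * r ^ 2 - 3 * r) * (1 - f) :=
      mul_nonneg (by nlinarith) (by linarith)
    nlinarith
  have h2 := mul_le_mul_of_nonneg_right h1 e0
  have h3 : (0 : ℝ) ≤ 1 / 4 * Real.exp (-((5 / 2 + 2 * (1 / 4) - 1) * r)) := by positivity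
  have h4 := mul_le_mul_of_nonneg_left h2 h3
  have h5 : Real.exp (-((5 / 2 + 2 * (1 / 4) - 1) * r)) * e ≤ Real.exp (-(15 / 8 * r)) := by
    rw [he, ← Real.exp_add]
    apply Real.exp_le_exp.2
    linarith
  have g4 : r * Real.exp (-(15 / 16 * r)) ≤ 79 / 20 * Real.exp (-(15 / 16 * (79 / 20))) :=
    EPH.mul_exp_anti (by norm_num) (by norm_num) hr
  have g5 := pow_le_pow_left₀ (by positivity) g4 2
  have g6 : (r * Real.exp (-(15 / 16 * r))) ^ 2 = r ^ 2 * Real.exp (-(15 / 8 * r)) := by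
    rw [mul_pow, ← Real.exp_nat_mul]; congr 2; push_cast; ring
  have g7 : (79 / 20 * Real.exp (-(15 / 16 * (79 / 20)))) ^ 2 =
      (79 / 20) ^ 2 * Real.exp (-(79 / 160)) ^ 15 := by
    rw [mul_pow, ← Real.exp_nat_mul, ← Real.exp_nat_mul]; congr 2; push_cast; ring
  rw [g6, g7] at g5
  have g8 : Real.exp (-(79 / 160)) ^ 15 ≤ (8 / 13) ^ 15 :=
    pow_le_pow_left₀ (Real.exp_pos _).le e160 _
  have g9 : r ^ 2 * Real.exp (-(15 / 8 * r)) ≤ 1073 / 100000 := by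
    have : (79 / 20 : ℝ) ^ 2 * (8 / 13) ^ 15 ≤ 1073 / 100000 := by norm_num
    have := mul_le_mul_of_nonneg_left g8 (show (0 : ℝ) ≤ (79 / 20) ^ 2 by norm_num)
    linarith
  have g10 : r * Real.exp (-(15 / 8 * r)) ≤ 20 / 79 * (1073 / 100000) := by
    have : 79 / 20 * (r * Real.exp (-(15 / 8 * r))) ≤ r * (r * Real.exp (-(15 / 8 * r))) :=
      mul_le_mul_of_nonneg_right hr (by positivity)
    nlinarith
  have h6 : 1 / 4 * Real.exp (-((5 / 2 + 2 * (1 / 4) - 1) * r)) *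
      ((15 / 4 * r ^ 2 + 11 / 4 * r) * e) =
      1 / 4 * (15 / 4 * r ^ 2 + 11 / 4 * r) *
        (Real.exp (-((5 / 2 + 2 * (1 / 4) - 1) * r)) * e) := by ring
  rw [h6] at h4
  have h7 := mul_le_mul_of_nonneg_left h5
    (show 0 ≤ 1 / 4 * (15 / 4 * r ^ 2 + 11 / 4 * r) by positivity)
  have h8 : 1 / 4 * (15 / 4 * r ^ 2 + 11 / 4 * r) * Real.exp (-(15 / 8 * r)) =
      15 / 16 * (r ^ 2 * Real.exp (-(15 / 8 * r))) + 11 / 16 * (r * Real.exp (-(15 / 8 * r))) := by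
    ring
  rw [h8] at h7
  linarith

/-- the upper bound on the box -/
private noncomputable def UU (m1 r z : ℝ) (x : Fin 3 → ℤ) : ℝ :=
  (((if keyP x = 2 ∧ keyQ x = 1 then hF m1 r z (1 / 2) (1 / 4) else 0) +
    (if keyP x = 0 ∧ keyQ x = 4 then hF m1 r z 0 1 else 0)) +
    (if keyP x = 4 ∧ keyQ x = 4 then hF m1 r z 1 1 else 0)) +
    (if keyP x = 10 ∧ keyQ x = 1 then hF m1 r z (5 / 2) (1 / 4) else 0) + 61 / 200 * RR x

private theorem le_UU {m1 r z : ℝ} (hr : 79 / 20 ≤ r) (hz : 0 ≤ z) (hzr : 2 * z ≤ r)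
    (hm : 1 / 4 ≤ m1) (hm' : m1 ≤ 19 / 4) (x : Fin 3 → ℤ) :
    hF m1 r z (pp x) (qq x) ≤ UU m1 r z x := by
  have hR := RR_nn x
  unfold UU
  by_cases hQ : keyQ x = 0
  · have h1 : qq x = 0 := by rw [qq_key, hQ]; simp
    rw [if_neg (by omega), if_neg (by omega), if_neg (by omega), if_neg (by omega), h1]
    have : hF m1 r z (pp x) 0 = 0 := by unfold hF; ring
    rw [this]
    linarith
  · by_cases hS : keyP x + 2 * keyQ x < 16
    · rcases key_smallF hQ hS with h | h | h | h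
      · rw [if_pos h, if_neg (by omega), if_neg (by omega), if_neg (by omega), pp_key, qq_key,
          h.1, h.2]
        norm_num
        linarith
      · rw [if_neg (by omega), if_pos h, if_neg (by omega), if_neg (by omega), pp_key, qq_key,
          h.1, h.2]
        norm_num
        linarith
      · rw [if_neg (by omega), if_neg (by omega), if_pos h, if_neg (by omega), pp_key, qq_key,
          h.1, h.2]
        norm_num
        linarith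
      · rw [if_neg (by omega), if_neg (by omega), if_neg (by omega), if_pos h, pp_key, qq_key,
          h.1, h.2]
        norm_num
        linarith
    · rw [if_neg (by omega), if_neg (by omega), if_neg (by omega), if_neg (by omega)]
      have := long hr hz hzr hm hm' (x := x) (by omega)
      linarith

private theorem UU_sum (m1 r z : ℝ) : ∑ i, UU m1 r z (bx i) ≤
    mF m1 r z + 16 * hF m1 r z (5 / 2) (1 / 4) + 61 / 200 * (23 / 25) := by
  have h1 := sum_class (p := fun i => keyP (bx i) = 2 ∧ keyQ (bx i) = 1)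
    (hF m1 r z (1 / 2) (1 / 4))
  have h2 := sum_class (p := fun i => keyP (bx i) = 0 ∧ keyQ (bx i) = 4) (hF m1 r z 0 1)
  have h3 := sum_class (p := fun i => keyP (bx i) = 4 ∧ keyQ (bx i) = 4) (hF m1 r z 1 1)
  have h4 := sum_class (p := fun i => keyP (bx i) = 10 ∧ keyQ (bx i) = 1)
    (hF m1 r z (5 / 2) (1 / 4))
  rw [card_A] at h1
  rw [card_C] at h2
  rw [card_D] at h3
  rw [card_G] at h4
  unfold UU
  rw [Finset.sum_add_distrib, Finset.sum_add_distrib, Finset.sum_add_distrib,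
    Finset.sum_add_distrib, h1, h2, h3, h4, ← Finset.mul_sum]
  have := RR_sum
  unfold mF
  push_cast
  linarith

end TailFAux

open TailFAux in
theorem tail_fcc {m1 r z : ℝ} (hr : 79 / 20 ≤ r) (hz : 0 ≤ z) (hzr : 2 * z ≤ r)
    (hm : 1 / 4 ≤ m1) (hm' : m1 ≤ 19 / 4)
    (hs : Summable fun x : Fin 3 → ℤ => hF m1 r z (pp x) (qq x)) :
    ∑' x : Fin 3 → ℤ, hF m1 r z (pp x) (qq x) ≤ mF m1 r z + 3 / 5 := by
  have h := tsum_le_box (f := fun x => hF m1 r z (pp x) (qq x)) (U := UU m1 r z) hs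
    (ε := 1 / 1000) (by norm_num) (fun i => le_UU hr hz hzr hm hm' (bx i))
    (fun x hx => far hr hz hzr hm hm' (key_ge hx))
  have := UU_sum m1 r z
  have := keyG (m1 := m1) hr hz hzr hm
  linarith

end Pool.Agent.Lib.EPC
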