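import Pool.Agent.Lib.EPC.Far
import Pool.Agent.Lib.EPC.Rep
import Pool.Agent.Lib.EPC.TailB
import Pool.Agent.Lib.EPC.TailF
import Pool.Agent.Lib.EPC.Dual

/-!
# The second order function is negative
-/

namespace Pool.Agent.Lib.EPC

open Pool.Agent.Lib.EpZ Pool.Agent.Lib.EPS Pool.Agent.Lib.EPL

theorem GG_neg_bcc {r y : ℝ} (hr : 0 < r) (hy : 0 < y) (hyr : 2 * y ≤ r)
    (hreg : 124 ≤ r ^ 2 * (r + y)) : GG (cc ((r + y) / r)) r (r + y) < 0 := by
  have hr43 : 43 / 10 ≤ r := by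
    by_contra hc
    push Not at hc
    have h1 : r ^ 2 * (r + y) ≤ r ^ 2 * (3 / 2 * r) :=
      mul_le_mul_of_nonneg_left (by linarith) (by positivity)
    have h2 : r ^ 3 ≤ (43 / 10) ^ 3 := pow_le_pow_left₀ hr.le hc.le 3
    nlinarith
  have h1 := tail_bcc (c1 := cB r y - 1 / 4) hr43 hy.le hyr
    (by have := cB_nonneg hr hy.le (by linarith : y < r); linarith)
    (by have := cB_le hr hy.le hyr; linarith) (summable_hB hr hy (by linarith))
  have h2 := mainB hr hy.le hyr hreg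
  rw [rep_bcc hr hy (by linarith)]
  have h3 : 0 < y * Real.exp (-r) := by positivity
  have h4 : 0 < ∑' x : Fin 3 → ℤ, hB (cB r y - 1 / 4) r y (pp x) (qq x) := by linarith
  have := mul_pos h3 h4
  linarith

theorem GG_neg_fcc {r z : ℝ} (hr : 0 < r) (hz : 0 < z) (hzr : 2 * z ≤ r)
    (hreg : 124 ≤ r ^ 2 * (2 * r - z)) : GG (cc ((2 * r - z) / r)) r (2 * r - z) < 0 := by
  have hr39 : 79 / 20 ≤ r := by
    by_contra hc
    push Not at hc
    have h1 : r ^ 2 * (2 * r - z) ≤ r ^ 2 * (2 * r) :=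
      mul_le_mul_of_nonneg_left (by linarith) (by positivity)
    have h2 : r ^ 3 ≤ (79 / 20) ^ 3 := pow_le_pow_left₀ hr.le hc.le 3
    nlinarith
  have h1 := tail_fcc (m1 := cF r z + 1 / 4) hr39 hz.le hzr
    (by have := cF_nonneg hr hz.le (by linarith : z < r); linarith)
    (by have := cF_le hr hzr; linarith) (summable_hF hr hz (by linarith))
  have h2 := mainF hr hz.le hzr hreg
  rw [rep_fcc hr hz (by linarith)]
  have h3 : 0 < z * Real.exp (-r) := by positivity
  have h4 : ∑' x : Fin 3 → ℤ, hF (cF r z + 1 / 4) r z (pp x) (qq x) < 0 := by linarith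
  exact mul_neg_of_pos_of_neg h3 h4

theorem GG_neg_large {r g : ℝ} (hr : 0 < r) (h1 : r < g) (h2 : g < 2 * r)
    (hreg : 124 ≤ r ^ 2 * g) : GG (cc (g / r)) r g < 0 := by
  rcases le_total (2 * (g - r)) r with h | h
  · have := GG_neg_bcc (y := g - r) hr (by linarith) h (by rw [add_sub_cancel]; exact hreg)
    rwa [add_sub_cancel] at this
  · have e : 2 * r - (2 * r - g) = g := by ring
    have := GG_neg_fcc (z := 2 * r - g) hr (by linarith) (by linarith) (by rw [e]; exact hreg)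
    rwa [e] at this

theorem cc_dual {x : ℝ} (h1 : 1 < x) (h2 : x < 2) : 1 / 2 - cc x = cc (2 / x) := by
  unfold cc
  have a1 : x - 1 ≠ 0 := by linarith
  have a2 : 2 - x ≠ 0 := by linarith
  have a3 : x ≠ 0 := by linarith
  have a4 : 2 / x - 1 = (2 - x) / x := by field_simp
  have a5 : 2 - 2 / x = 2 * (x - 1) / x := by field_simp
  rw [a4, a5]
  field_simp
  ring

theorem pi_cube : (124 : ℝ) ≤ 4 * Real.pi ^ 3 := by
  have h := Real.pi_gt_d4
  have h2 : (3.1415 : ℝ) ^ 3 ≤ Real.pi ^ 3 := pow_le_pow_left₀ (by norm_num) h.le 3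
  have h3 : (124 : ℝ) ≤ 4 * 3.1415 ^ 3 := by norm_num
  linarith

/-- the second order function is negative between bcc and fcc -/
theorem GG_neg {r g : ℝ} (hr : 0 < r) (h1 : r < g) (h2 : g < 2 * r) :
    GG (cc (g / r)) r g < 0 := by
  have hg : 0 < g := by linarith
  have hπ := Real.pi_pos
  rcases le_total (4 * Real.pi ^ 3) (r ^ 2 * g) with h | h
  · exact GG_neg_large hr h1 h2 (pi_cube.trans h)
  · obtain ⟨P, hP, hPe⟩ := GG_dual hr hg (cc (g / r))
    have hx1 : 1 < g / r := by rw [one_lt_div hr]; exact h1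
    have hx2 : g / r < 2 := by rw [div_lt_iff₀ hr]; exact h2
    have e1 : 4 * Real.pi ^ 2 / g / (2 * Real.pi ^ 2 / r) = 2 / (g / r) := by
      field_simp
      ring
    rw [hPe, cc_dual hx1 hx2, ← e1]
    refine mul_neg_of_pos_of_neg hP (GG_neg_large (by positivity) ?_ ?_ ?_)
    · rw [div_lt_div_iff₀ hr hg]
      have : 0 < Real.pi ^ 2 := by positivity
      nlinarith
    · have e2 : 2 * (2 * Real.pi ^ 2 / r) = 4 * Real.pi ^ 2 / r := by ring
      rw [e2, div_lt_div_iff₀ hg hr]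
      have : 0 < Real.pi ^ 2 := by positivity
      nlinarith
    · have e3 : (2 * Real.pi ^ 2 / r) ^ 2 * (4 * Real.pi ^ 2 / g) =
          (4 * Real.pi ^ 3) ^ 2 / (r ^ 2 * g) := by
        field_simp
        ring
      rw [e3]
      have hrg : 0 < r ^ 2 * g := by positivity
      rw [le_div_iff₀ hrg]
      have h3 := pi_cube
      have h4 : 0 < 4 * Real.pi ^ 3 := by positivity
      nlinarith

end Pool.Agent.Lib.EPC
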