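import Pool.Agent.Lib.EPC.Defs
import Pool.Agent.Lib.EPC.FnD

/-!
# The summands of the two representations
-/

namespace Pool.Agent.Lib.EPC

/-- the coefficient of the bcc side, as a function of `r`, `y = g - r`: `c̃ = c1 + 1/4` -/
noncomputable def cB (r y : ℝ) : ℝ := 3 * (y / r) + 4 * (y / (r - y)) + 6 * (y / (r + y))

/-- the coefficient of the fcc side, as a function of `r`, `z = 2 r - g`: `m̃ = m1 - 1/4` -/
noncomputable def cF (r z : ℝ) : ℝ := 3 * (z / r) + 2 * (z / (r - z)) + 3 * (z / (2 * r - z))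

/-- summand of the bcc representation -/
noncomputable def hB (c1 r y p q : ℝ) : ℝ :=
  q * Real.exp (-((p + q - 1) * r)) *
    (c1 * ((p - 2 * q) * r * ph (q * y) + 2 * Real.exp (-(q * y))) +
      (p - 2 * q) * r ^ 2 * (p * ph (q * y) + q * (q * y * ta (q * y))) -
      2 * (p - 2 * q) * r * (q * y * ka (q * y)) +
      (p * r - 2 * (q * y)) * Real.exp (-(q * y)))

/-- summand of the fcc representation -/
noncomputable def hF (m1 r z p q : ℝ) : ℝ :=
  q * Real.exp (-((p + 2 * q - 1) * r)) *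
    (-(m1 * ((p - 4 * q) * r * ph (-(q * z)) + 2 * Real.exp (q * z))) +
      (p - 4 * q) * r ^ 2 * (p * ph (-(q * z)) - 2 * q * (q * z * ta (-(q * z)))) +
      2 * (p - 4 * q) * r * (q * z * ka (-(q * z))) +
      (p * r + 2 * (q * z)) * Real.exp (q * z))

/-- the main part of the bcc side -/
noncomputable def mB (c1 r y : ℝ) : ℝ :=
  8 * hB c1 r y (1 / 2) (1 / 4) + 2 * hB c1 r y 0 1 + 8 * hB c1 r y 1 1 +
    8 * hB c1 r y (1 / 2) (9 / 4)

/-- the main part of the fcc side -/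
noncomputable def mF (m1 r z : ℝ) : ℝ :=
  8 * hF m1 r z (1 / 2) (1 / 4) + 2 * hF m1 r z 0 1 + 8 * hF m1 r z 1 1

end Pool.Agent.Lib.EPC
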