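import Pool.Agent.Lib.EPC.At
import Pool.Agent.Lib.EPC.RepD

/-!
# Leaves of the bcc side
-/

namespace Pool.Agent.Lib.EPC

/-- lower bound of the positive part of the coefficient -/
def uPB (i0 i1 j1 : ℕ) : ℕ :=
  4 * gL (i0 - j1) + 4 * eL (4 * j1) + mL (8 * eL (4 * i1)) (2 * eL (4 * j1))

/-- upper bound of the negative part of the coefficient -/
def uNB (i0 i1 j0 : ℕ) : ℕ :=
  4 * rU i1 (phU (4 * j0)) + mU (8 * eU (4 * i0)) (rU i1 (phU (4 * j0))) +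
    mU (18 * eU (7 * i0)) (4 * rU i1 (phU (9 * j0)))

/-- lower bound of the positive part -/
def PB (i0 i1 j0 j1 : ℕ) : ℕ :=
  rL (i0 - j1 - 32) (gL (i0 - j1)) + 9 * rL i0 (rL j0 (kaL (4 * j1))) + rL i0 (eL (4 * j1)) +
    mL (8 * eL (4 * i1)) (9 * rL i0 (rL j0 (kaL (4 * j1))) / 4 + 5 * rL i0 (eL (4 * j1)) / 4)

/-- upper bound of the negative part -/
def NB (i0 i1 j0 j1 : ℕ) : ℕ :=
  4 * rU i1 (rU i1 (rU j1 (taU (4 * j0)))) + eU (4 * j0) + 4 * rU j1 (eU (4 * j0)) +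
    mU (8 * eU (4 * i0)) (rU i1 (rU i1 (phU (4 * j0) + rU j1 (taU (4 * j0)))) +
      2 * rU j1 (eU (4 * j0)) + (eU (4 * j0) / 2 + 1)) +
    mU (18 * eU (7 * i0)) (rU i1 (rU i1 (2 * phU (9 * j0) + (27 * ONE / 20 + 1))) +
      (9 * rU j1 (eU (4 * j0)) / 2 + 1) + (eU (4 * j0) / 2 + 1)) + (ONE / 10 + 1)

/-- lower bound of the coefficient -/
def clB (i1 j0 : ℕ) : ℕ := 3 * (j0 * ONE / i1) + 4 * (j0 * ONE / (i1 - j0)) + 6 * (j0 * ONE / (i1 + j0))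

/-- upper bound of the coefficient -/
def chB (i0 j1 : ℕ) : ℕ :=
  3 * (j1 * ONE / i0 + 1) + 4 * (j1 * ONE / (i0 - j1) + 1) + 6 * (j1 * ONE / (i0 + j1) + 1)

/-- the test of a cell -/
def okB (i0 i1 j0 j1 : ℕ) : Bool :=
  Nat.ble (j1 + 32) i0 && Nat.ble i1 1024 && Nat.ble (2 * j0) i1 && Nat.ble 1 j1 &&
    Nat.ble (NB i0 i1 j0 j1 + mU (chB i0 j1) (uNB i0 i1 j0 - uPB i0 i1 j1) + 1)
      (PB i0 i1 j0 j1 + mL (clB i1 j0) (uPB i0 i1 j1 - uNB i0 i1 j0))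

end Pool.Agent.Lib.EPC
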