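import Pool.Agent.Lib.EPC.LeafB

/-!
# Soundness of the leaves of the bcc side
-/

namespace Pool.Agent.Lib.EPC

/-- `y κ(y) = φ(y) - e^{-y}` -/
theorem rho_eq (y : ℝ) : y * ka y = ph y - Real.exp (-y) := ka_mul y

theorem cB_nonneg {r y : ℝ} (hr : 0 < r) (hy : 0 ≤ y) (hyr : y < r) : 0 ≤ cB r y := by
  unfold cB
  have h1 : 0 < r - y := by linarith
  have h2 : 0 < r + y := by linarith
  positivity

/-- the main part, written with the functions of one variable -/
theorem mB_ge {c r y : ℝ} (hc : 0 ≤ c) (hr : 0 < r) (hy : 0 ≤ y) :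
    c * ((4 * Real.exp ((r - y) / 4) + 4 * Real.exp (-y) +
        8 * Real.exp (-r) * (2 * Real.exp (-y))) -
      (4 * (r * ph y) + 8 * Real.exp (-r) * (r * ph y) +
        18 * Real.exp (-(7 / 4 * r)) * (4 * (r * ph (9 / 4 * y))))) +
    ((r - y - 1) * Real.exp ((r - y) / 4) + 9 * (r * (y * ka y)) + r * Real.exp (-y) +
      8 * Real.exp (-r) * (9 * (r * (y * ka y)) / 4 + 5 * (r * Real.exp (-y)) / 4)) -
    (4 * (r * (r * (y * ta y))) + Real.exp (-y) + 4 * (y * Real.exp (-y)) +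
      8 * Real.exp (-r) * (r * (r * (ph y + y * ta y)) + 2 * (y * Real.exp (-y)) +
        Real.exp (-y) / 2) +
      18 * Real.exp (-(7 / 4 * r)) * (r * (r * (2 * ph (9 / 4 * y) + 27 / 20)) +
        9 * (y * Real.exp (-y)) / 2 + Real.exp (-y) / 2)) ≤ mB (c - 1 / 4) r y := by
  have e1 : 8 * hB (c - 1 / 4) r y (1 / 2) (1 / 4) =
      Real.exp ((r - y) / 4) * (4 * c - 1 + (r - y)) := by
    unfold hB
    have h1 : Real.exp (-((1 / 2 + 1 / 4 - 1) * r)) * Real.exp (-(1 / 4 * y)) =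
        Real.exp ((r - y) / 4) := by
      rw [← Real.exp_add]; congr 1; ring
    rw [← h1]
    ring
  have e2 : 2 * hB (c - 1 / 4) r y 0 1 =
      (c - 1 / 4) * (-(4 * (r * ph y)) + 4 * Real.exp (-y)) - 4 * (r * (r * (y * ta y))) +
        8 * (r * (y * ka y)) - 4 * (y * Real.exp (-y)) := by
    unfold hB
    have h1 : Real.exp (-((0 + 1 - 1) * r)) = 1 := by
      rw [← Real.exp_zero]; congr 1; ring
    rw [h1, one_mul (a := y)]
    ring
  have e3 : 8 * hB (c - 1 / 4) r y 1 1 =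
      8 * Real.exp (-r) * ((c - 1 / 4) * (-(r * ph y) + 2 * Real.exp (-y)) -
        r * (r * (ph y + y * ta y)) + 2 * (r * (y * ka y)) + (r - 2 * y) * Real.exp (-y)) := by
    unfold hB
    have h1 : Real.exp (-((1 + 1 - 1) * r)) = Real.exp (-r) := by congr 1; ring
    rw [h1, one_mul (a := y)]
    ring
  have e4 : 8 * hB (c - 1 / 4) r y (1 / 2) (9 / 4) =
      18 * Real.exp (-(7 / 4 * r)) * ((c - 1 / 4) * (-(4 * (r * ph (9 / 4 * y))) +
        2 * Real.exp (-(9 / 4 * y))) -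
        4 * (r * (r * (1 / 2 * ph (9 / 4 * y) + 9 / 4 * (9 / 4 * y * ta (9 / 4 * y))))) +
        8 * (r * (9 / 4 * y * ka (9 / 4 * y))) +
        (1 / 2 * r - 9 / 2 * y) * Real.exp (-(9 / 4 * y))) := by
    unfold hB
    have h1 : Real.exp (-((1 / 2 + 9 / 4 - 1) * r)) = Real.exp (-(7 / 4 * r)) := by
      congr 1; ring
    rw [h1]
    ring
  unfold mB
  rw [e1, e2, e3, e4]
  have hρ := rho_eq y
  have h9 : Real.exp (-(9 / 4 * y)) ≤ Real.exp (-y) := Real.exp_le_exp.mpr (by linarith)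
  have h90 := Real.exp_pos (-(9 / 4 * y))
  have hth : 9 / 4 * y * ta (9 / 4 * y) ≤ 3 / 20 := th_le (by positivity)
  have hρ9 : 0 ≤ 9 / 4 * y * ka (9 / 4 * y) := mul_nonneg (by positivity) (ka_pos _).le
  have hph9 := ph_pos (9 / 4 * y)
  have hph := ph_pos y
  have hw7 := Real.exp_pos (-(7 / 4 * r))
  have hw := Real.exp_pos (-r)
  have hey := Real.exp_pos (-y)
  -- the fourth shell
  have hF : 18 * Real.exp (-(7 / 4 * r)) * (-(c * (4 * (r * ph (9 / 4 * y)))) -
        (r * (r * (2 * ph (9 / 4 * y) + 27 / 20)) + 9 * (y * Real.exp (-y)) / 2 +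
          Real.exp (-y) / 2)) ≤
      18 * Real.exp (-(7 / 4 * r)) * ((c - 1 / 4) * (-(4 * (r * ph (9 / 4 * y))) +
        2 * Real.exp (-(9 / 4 * y))) -
        4 * (r * (r * (1 / 2 * ph (9 / 4 * y) + 9 / 4 * (9 / 4 * y * ta (9 / 4 * y))))) +
        8 * (r * (9 / 4 * y * ka (9 / 4 * y))) +
        (1 / 2 * r - 9 / 2 * y) * Real.exp (-(9 / 4 * y))) := by
    refine mul_le_mul_of_nonneg_left ?_ (by positivity)
    have g1 : 0 ≤ c * (2 * Real.exp (-(9 / 4 * y))) := by positivity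
    have g2 : 0 ≤ r * ph (9 / 4 * y) := by positivity
    have g3 : r * (r * (9 / 4 * y * ta (9 / 4 * y))) ≤ r * (r * (3 / 20)) :=
      mul_le_mul_of_nonneg_left (mul_le_mul_of_nonneg_left hth hr.le) hr.le
    have g4 : 0 ≤ 8 * (r * (9 / 4 * y * ka (9 / 4 * y))) := by positivity
    have g5 : 0 ≤ 1 / 2 * r * Real.exp (-(9 / 4 * y)) := by positivity
    have g6 : y * Real.exp (-(9 / 4 * y)) ≤ y * Real.exp (-y) :=
      mul_le_mul_of_nonneg_left h9 hy
    nlinarith
  have hφ : ph y = y * ka y + Real.exp (-y) := by linarith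
  -- everything else is an identity
  have hid : c * ((4 * Real.exp ((r - y) / 4) + 4 * Real.exp (-y) +
        8 * Real.exp (-r) * (2 * Real.exp (-y))) -
      (4 * (r * ph y) + 8 * Real.exp (-r) * (r * ph y))) +
    ((r - y - 1) * Real.exp ((r - y) / 4) + 9 * (r * (y * ka y)) + r * Real.exp (-y) +
      8 * Real.exp (-r) * (9 * (r * (y * ka y)) / 4 + 5 * (r * Real.exp (-y)) / 4)) -
    (4 * (r * (r * (y * ta y))) + Real.exp (-y) + 4 * (y * Real.exp (-y)) +
      8 * Real.exp (-r) * (r * (r * (ph y + y * ta y)) + 2 * (y * Real.exp (-y)) +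
        Real.exp (-y) / 2)) =
      Real.exp ((r - y) / 4) * (4 * c - 1 + (r - y)) +
      ((c - 1 / 4) * (-(4 * (r * ph y)) + 4 * Real.exp (-y)) - 4 * (r * (r * (y * ta y))) +
        8 * (r * (y * ka y)) - 4 * (y * Real.exp (-y))) +
      8 * Real.exp (-r) * ((c - 1 / 4) * (-(r * ph y) + 2 * Real.exp (-y)) -
        r * (r * (ph y + y * ta y)) + 2 * (r * (y * ka y)) + (r - 2 * y) * Real.exp (-y)) := by
    rw [hφ]
    ring
  linarith

theorem q_lo {a b : ℕ} {x : ℝ} (h : (a : ℝ) / b ≤ x) : L x (a * ONE / b) := by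
  unfold L
  refine (div_lo (a * ONE) b).trans ?_
  push_cast
  have := mul_le_mul_of_nonneg_right h ONE_pos.le
  rw [mul_div_right_comm]
  exact this

theorem q_up {a b : ℕ} {x : ℝ} (hb : 0 < b) (h : x ≤ (a : ℝ) / b) : U x (a * ONE / b + 1) := by
  unfold U
  refine le_trans ?_ (div_up (a * ONE) b hb)
  push_cast
  have := mul_le_mul_of_nonneg_right h ONE_pos.le
  rw [mul_div_right_comm]
  exact this

/-- soundness of a leaf -/
theorem okB_sound {i0 i1 j0 j1 : ℕ} (h : okB i0 i1 j0 j1 = true) {r y : ℝ}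
    (hr0 : (i0 : ℝ) / 32 ≤ r) (hr1 : r ≤ (i1 : ℝ) / 32) (hy0 : (j0 : ℝ) / 32 ≤ y)
    (hy1 : y ≤ (j1 : ℝ) / 32) : 1 / 10 < mB (cB r y - 1 / 4) r y := by
  unfold okB at h
  simp only [Bool.and_eq_true, Nat.ble_eq] at h
  obtain ⟨⟨⟨⟨ha, hb⟩, hc⟩, hd⟩, he⟩ := h
  have hJ0 : j0 ≤ 512 := by omega
  have hJI : j1 ≤ i0 := by omega
  have hII : (i0 : ℝ) ≤ i1 := by
    have : (i0 : ℝ) / 32 ≤ i1 / 32 := hr0.trans hr1
    linarith
  have hII' : i0 ≤ i1 := by exact_mod_cast hII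
  have hJJ : (j0 : ℝ) ≤ j1 := by
    have : (j0 : ℝ) / 32 ≤ j1 / 32 := hy0.trans hy1
    linarith
  have hJJ' : j0 ≤ j1 := by exact_mod_cast hJJ
  have ha' : (j1 : ℝ) + 32 ≤ i0 := by exact_mod_cast ha
  have hd' : (1 : ℝ) ≤ j1 := by exact_mod_cast hd
  have hy : 0 ≤ y := le_trans (by positivity) hy0
  have hr : 0 < r := by
    have : (0 : ℝ) < i0 / 32 := by
      have : (0 : ℝ) < i0 := by linarith
      positivity
    linarith
  have hyr : y < r := by
    have : (j1 : ℝ) / 32 < i0 / 32 := by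
      have : (j1 : ℝ) < i0 := by linarith
      linarith
    linarith
  -- the basic bounds
  have bE : L (Real.exp ((r - y) / 4)) (gL (i0 - j1)) := by
    refine gL_at (by omega) ?_
    rw [Nat.cast_sub hJI]
    linarith
  have be0 : U (Real.exp (-y)) (eU (4 * j0)) := eU_at (by omega) (by push_cast; linarith)
  have be1 : L (Real.exp (-y)) (eL (4 * j1)) := eL_at (by omega) (by push_cast; linarith)
  have bw0 : U (Real.exp (-r)) (eU (4 * i0)) := eU_at (by omega) (by push_cast; linarith)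
  have bw1 : L (Real.exp (-r)) (eL (4 * i1)) := eL_at (by omega) (by push_cast; linarith)
  have bw7 : U (Real.exp (-(7 / 4 * r))) (eU (7 * i0)) := eU_at (by omega) (by push_cast; linarith)
  have bph : U (ph y) (phU (4 * j0)) := phU_at (by omega) (by push_cast; linarith)
  have bph9 : U (ph (9 / 4 * y)) (phU (9 * j0)) := phU_at (by omega) (by push_cast; linarith)
  have bka : L (ka y) (kaL (4 * j1)) := kaL_at (by omega) (by omega) (by push_cast; linarith)
  have bta : U (ta y) (taU (4 * j0)) := taU_at (by omega) (by push_cast; linarith)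
  have pph := (ph_pos y).le
  have pph9 := (ph_pos (9 / 4 * y)).le
  have pta := (ta_pos y).le
  have pe := (Real.exp_pos (-y)).le
  -- derived bounds
  have brho : L (r * (y * ka y)) (rL i0 (rL j0 (kaL (4 * j1)))) := L.rmul hr0 (L.rmul hy0 bka)
  have bre : L (r * Real.exp (-y)) (rL i0 (eL (4 * j1))) := L.rmul hr0 be1
  have bth : U (y * ta y) (rU j1 (taU (4 * j0))) := U.rmul pta hy1 bta
  have brth : U (r * (r * (y * ta y))) (rU i1 (rU i1 (rU j1 (taU (4 * j0))))) :=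
    U.rmul (by positivity) hr1 (U.rmul (by positivity) hr1 bth)
  have brph : U (r * ph y) (rU i1 (phU (4 * j0))) := U.rmul pph hr1 bph
  have bye : U (y * Real.exp (-y)) (rU j1 (eU (4 * j0))) := U.rmul pe hy1 be0
  have h1 : L (4 * Real.exp ((r - y) / 4) + 4 * Real.exp (-y) +
        8 * Real.exp (-r) * (2 * Real.exp (-y))) (uPB i0 i1 j1) :=
    ((bE.nmul 4).add (be1.nmul 4)).add ((bw1.nmul 8).mul (be1.nmul 2))
  have h2 : U (4 * (r * ph y) + 8 * Real.exp (-r) * (r * ph y) +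
        18 * Real.exp (-(7 / 4 * r)) * (4 * (r * ph (9 / 4 * y)))) (uNB i0 i1 j0) :=
    ((brph.nmul 4).add (U.mul (by positivity) (bw0.nmul 8) brph)).add
      (U.mul (by positivity) (bw7.nmul 18) ((U.rmul pph9 hr1 bph9).nmul 4))
  have h3 : L ((r - y - 1) * Real.exp ((r - y) / 4) + 9 * (r * (y * ka y)) + r * Real.exp (-y) +
      8 * Real.exp (-r) * (9 * (r * (y * ka y)) / 4 + 5 * (r * Real.exp (-y)) / 4))
      (PB i0 i1 j0 j1) := by
    refine (((L.rmul ?_ bE).add (brho.nmul 9)).add bre).add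
      ((bw1.nmul 8).mul (((brho.nmul 9).div 4).add ((bre.nmul 5).div 4)))
    rw [Nat.cast_sub (by omega), Nat.cast_sub hJI]
    push_cast
    linarith
  have h4 : U (4 * (r * (r * (y * ta y))) + Real.exp (-y) + 4 * (y * Real.exp (-y)) +
      8 * Real.exp (-r) * (r * (r * (ph y + y * ta y)) + 2 * (y * Real.exp (-y)) +
        Real.exp (-y) / 2) +
      18 * Real.exp (-(7 / 4 * r)) * (r * (r * (2 * ph (9 / 4 * y) + 27 / 20)) +
        9 * (y * Real.exp (-y)) / 2 + Real.exp (-y) / 2) + 1 / 10) (NB i0 i1 j0 j1) := by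
    refine (((((brth.nmul 4).add be0).add (bye.nmul 4)).add
      (U.mul (by positivity) (bw0.nmul 8) (((U.rmul (by positivity) hr1
        (U.rmul (by positivity) hr1 (bph.add bth))).add (bye.nmul 2)).add
          (be0.div (n := 2) (by norm_num))))).add
      (U.mul (by positivity) (bw7.nmul 18) (((U.rmul (by positivity) hr1
        (U.rmul (by positivity) hr1 ((bph9.nmul 2).add ?_))).add
          ((bye.nmul 9).div (n := 2) (by norm_num))).add
            (be0.div (n := 2) (by norm_num))))).add ?_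
    · unfold U ONE; norm_num
    · unfold U ONE; norm_num
  have hc1 : L (cB r y) (clB i1 j0) := by
    unfold cB clB
    have d1 : (j0 : ℝ) / i1 ≤ y / r := by
      rw [div_le_div_iff₀ (by linarith) hr]
      have e1 : (j0 : ℝ) * r ≤ j0 * (i1 / 32) := mul_le_mul_of_nonneg_left hr1 (Nat.cast_nonneg _)
      have e2 : (j0 : ℝ) / 32 * i1 ≤ y * i1 := mul_le_mul_of_nonneg_right hy0 (Nat.cast_nonneg _)
      linarith
    have d2 : (j0 : ℝ) / ((i1 - j0 : ℕ) : ℝ) ≤ y / (r - y) := by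
      rw [Nat.cast_sub (by omega), div_le_div_iff₀ (by linarith) (by linarith)]
      have e1 : (j0 : ℝ) * r ≤ j0 * (i1 / 32) := mul_le_mul_of_nonneg_left hr1 (Nat.cast_nonneg _)
      have e2 : (j0 : ℝ) / 32 * i1 ≤ y * i1 := mul_le_mul_of_nonneg_right hy0 (Nat.cast_nonneg _)
      linarith
    have d3 : (j0 : ℝ) / ((i1 + j0 : ℕ) : ℝ) ≤ y / (r + y) := by
      rw [Nat.cast_add, div_le_div_iff₀ (by linarith) (by linarith)]
      have e1 : (j0 : ℝ) * r ≤ j0 * (i1 / 32) := mul_le_mul_of_nonneg_left hr1 (Nat.cast_nonneg _)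
      have e2 : (j0 : ℝ) / 32 * i1 ≤ y * i1 := mul_le_mul_of_nonneg_right hy0 (Nat.cast_nonneg _)
      linarith
    exact (((q_lo d1).nmul 3).add ((q_lo d2).nmul 4)).add ((q_lo d3).nmul 6)
  have hc2 : U (cB r y) (chB i0 j1) := by
    unfold cB chB
    have d1 : y / r ≤ (j1 : ℝ) / i0 := by
      rw [div_le_div_iff₀ hr (by linarith)]
      have e1 : (j1 : ℝ) * (i0 / 32) ≤ j1 * r := mul_le_mul_of_nonneg_left hr0 (Nat.cast_nonneg _)
      have e2 : y * i0 ≤ (j1 : ℝ) / 32 * i0 := mul_le_mul_of_nonneg_right hy1 (Nat.cast_nonneg _)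
      linarith
    have d2 : y / (r - y) ≤ (j1 : ℝ) / ((i0 - j1 : ℕ) : ℝ) := by
      rw [Nat.cast_sub hJI, div_le_div_iff₀ (by linarith) (by linarith)]
      have e1 : (j1 : ℝ) * (i0 / 32) ≤ j1 * r := mul_le_mul_of_nonneg_left hr0 (Nat.cast_nonneg _)
      have e2 : y * i0 ≤ (j1 : ℝ) / 32 * i0 := mul_le_mul_of_nonneg_right hy1 (Nat.cast_nonneg _)
      linarith
    have d3 : y / (r + y) ≤ (j1 : ℝ) / ((i0 + j1 : ℕ) : ℝ) := by
      rw [Nat.cast_add, div_le_div_iff₀ (by linarith) (by linarith)]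
      have e1 : (j1 : ℝ) * (i0 / 32) ≤ j1 * r := mul_le_mul_of_nonneg_left hr0 (Nat.cast_nonneg _)
      have e2 : y * i0 ≤ (j1 : ℝ) / 32 * i0 := mul_le_mul_of_nonneg_right hy1 (Nat.cast_nonneg _)
      linarith
    exact (((q_up (by omega) d1).nmul 3).add ((q_up (by omega) d2).nmul 4)).add
      ((q_up (by omega) d3).nmul 6)
  have hfin := final_lt hc1 hc2 h1 h2 h3 h4 (by omega)
  have hge := mB_ge (c := cB r y) (cB_nonneg hr hy hyr) hr hy
  linarith

end Pool.Agent.Lib.EPC
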