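import Pool.Agent.Lib.EPC.LeafBS

/-!
# Leaves of the fcc side
-/

namespace Pool.Agent.Lib.EPC

/-- lower bound of the positive part of the coefficient -/
def uPF (i1 j0 : ℕ) : ℕ :=
  4 * gL j0 + mL (2 * eL (4 * i1)) (2 * gL (4 * j0)) + mL (8 * eL (8 * i1)) (2 * gL (4 * j0))

/-- upper bound of the negative part of the coefficient -/
def uNF (i0 i1 j1 : ℕ) : ℕ :=
  rU i1 (psU j1) + mU (2 * eU (4 * i0)) (4 * rU i1 (psU (4 * j1))) +
    mU (8 * eU (8 * i0)) (3 * rU i1 (psU (4 * j1)))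

/-- lower bound of the negative part -/
def PF (i0 i1 j0 : ℕ) : ℕ :=
  rL i0 (rL i0 (chL j0)) + rL i0 (gL j0) +
    mL (2 * eL (4 * i1)) (8 * rL i0 (rL j0 (kmL (4 * j0)))) +
    mL (8 * eL (8 * i1)) (3 * rL i0 (rL i0 (psL (4 * j0))) + 6 * rL i0 (rL j0 (kmL (4 * j0))))

/-- upper bound of the positive part -/
def NF (i0 i1 j1 : ℕ) : ℕ :=
  2 * rU i1 (psU j1) + rU j1 (gU j1) +
    mU (2 * eU (4 * i0)) (8 * rU i1 (rU i1 (rU j1 (tmU (4 * j1)))) + 2 * rU j1 (gU (4 * j1))) +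
    mU (8 * eU (8 * i0)) (6 * rU i1 (rU i1 (rU j1 (tmU (4 * j1)))) +
      (rU i1 (gU (4 * j1)) + 2 * rU j1 (gU (4 * j1)))) + (3 * ONE / 5 + 1)

/-- lower bound of the coefficient -/
def clF (i1 j0 : ℕ) : ℕ :=
  3 * (j0 * ONE / i1) + 2 * (j0 * ONE / (i1 - j0)) + 3 * (j0 * ONE / (2 * i1 - j0)) + ONE / 4

/-- upper bound of the coefficient -/
def chF (i0 j1 : ℕ) : ℕ :=
  3 * (j1 * ONE / i0 + 1) + 2 * (j1 * ONE / (i0 - j1) + 1) + 3 * (j1 * ONE / (2 * i0 - j1) + 1) +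
    (ONE / 4 + 1)

/-- the test of a cell -/
def okF (i0 i1 j0 j1 : ℕ) : Bool :=
  Nat.ble (j1 + 1) i0 && Nat.ble i1 1024 &&
    Nat.ble (NF i0 i1 j1 + mU (chF i0 j1) (uNF i0 i1 j1 - uPF i1 j0) + 1)
      (PF i0 i1 j0 + mL (clF i1 j0) (uPF i1 j0 - uNF i0 i1 j1))

theorem cF_nonneg {r z : ℝ} (hr : 0 < r) (hz : 0 ≤ z) (hzr : z < r) : 0 ≤ cF r z := by
  unfold cF
  have h1 : 0 < r - z := by linarith
  have h2 : 0 < 2 * r - z := by linarith
  positivity

/-- the main part, written with the functions of one variable -/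
theorem mF_eq (c r z : ℝ) :
    mF c r z = -(c * ((4 * Real.exp (z / 4) + 2 * Real.exp (-r) * (2 * Real.exp z) +
        8 * Real.exp (-(2 * r)) * (2 * Real.exp z)) -
      (r * ph (-(z / 4)) + 2 * Real.exp (-r) * (4 * (r * ph (-z))) +
        8 * Real.exp (-(2 * r)) * (3 * (r * ph (-z))))) +
    (r * (r * (ph (-(z / 4)) - ka (-(z / 4)))) + r * Real.exp (z / 4) +
      2 * Real.exp (-r) * (8 * (r * (z * ka (-z)))) +
      8 * Real.exp (-(2 * r)) * (3 * (r * (r * ph (-z))) + 6 * (r * (z * ka (-z))))) -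
    (2 * (r * ph (-(z / 4))) + z * Real.exp (z / 4) +
      2 * Real.exp (-r) * (8 * (r * (r * (z * ta (-z)))) + 2 * (z * Real.exp z)) +
      8 * Real.exp (-(2 * r)) * (6 * (r * (r * (z * ta (-z)))) +
        (r * Real.exp z + 2 * (z * Real.exp z))))) := by
  have t1 : z / 4 * ta (-(z / 4)) = 2 * ka (-(z / 4)) - ph (-(z / 4)) := by
    have := ta_mul (-(z / 4))
    linarith
  have t2 : z / 4 * ka (-(z / 4)) = Real.exp (z / 4) - ph (-(z / 4)) := by
    have := ka_mul (-(z / 4))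
    rw [neg_neg] at this
    linarith
  have e1 : 8 * hF c r z (1 / 2) (1 / 4) =
      -(c * (4 * Real.exp (z / 4) - r * ph (-(z / 4)))) -
        r * (r * (ph (-(z / 4)) - ka (-(z / 4)))) + 2 * (r * ph (-(z / 4))) -
        r * Real.exp (z / 4) + z * Real.exp (z / 4) := by
    unfold hF
    have h1 : Real.exp (-((1 / 2 + 2 * (1 / 4) - 1) * r)) = 1 := by
      rw [← Real.exp_zero]; congr 1; ring
    have h2 : 1 / 4 * z = z / 4 := by ring
    rw [h1, h2, t1, t2]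
    ring
  have e2 : 2 * hF c r z 0 1 =
      2 * Real.exp (-r) * (-(c * (-(4 * (r * ph (-z))) + 2 * Real.exp z)) +
        8 * (r * (r * (z * ta (-z)))) - 8 * (r * (z * ka (-z))) + 2 * (z * Real.exp z)) := by
    unfold hF
    have h1 : Real.exp (-((0 + 2 * 1 - 1) * r)) = Real.exp (-r) := by congr 1; ring
    rw [h1, one_mul (a := z)]
    ring
  have e3 : 8 * hF c r z 1 1 =
      8 * Real.exp (-(2 * r)) * (-(c * (-(3 * (r * ph (-z))) + 2 * Real.exp z)) -
        3 * (r * (r * ph (-z))) + 6 * (r * (r * (z * ta (-z)))) - 6 * (r * (z * ka (-z))) +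
        (r * Real.exp z + 2 * (z * Real.exp z))) := by
    unfold hF
    have h1 : Real.exp (-((1 + 2 * 1 - 1) * r)) = Real.exp (-(2 * r)) := by congr 1; ring
    rw [h1, one_mul (a := z)]
    ring
  unfold mF
  rw [e1, e2, e3]
  ring

/-- soundness of a leaf -/
theorem okF_sound {i0 i1 j0 j1 : ℕ} (h : okF i0 i1 j0 j1 = true) {r z : ℝ}
    (hr0 : (i0 : ℝ) / 32 ≤ r) (hr1 : r ≤ (i1 : ℝ) / 32) (hz0 : (j0 : ℝ) / 32 ≤ z)
    (hz1 : z ≤ (j1 : ℝ) / 32) : mF (cF r z + 1 / 4) r z < -(3 / 5) := by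
  unfold okF at h
  simp only [Bool.and_eq_true, Nat.ble_eq] at h
  obtain ⟨⟨ha, hb⟩, he⟩ := h
  have hJI : j1 ≤ i0 := by omega
  have hII : (i0 : ℝ) ≤ i1 := by
    have : (i0 : ℝ) / 32 ≤ i1 / 32 := hr0.trans hr1
    linarith
  have hII' : i0 ≤ i1 := by exact_mod_cast hII
  have hJJ : (j0 : ℝ) ≤ j1 := by
    have : (j0 : ℝ) / 32 ≤ j1 / 32 := hz0.trans hz1
    linarith
  have hJJ' : j0 ≤ j1 := by exact_mod_cast hJJ
  have ha' : (j1 : ℝ) + 1 ≤ i0 := by exact_mod_cast ha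
  have hj1 : (0 : ℝ) ≤ j1 := Nat.cast_nonneg _
  have hj0 : (0 : ℝ) ≤ j0 := Nat.cast_nonneg _
  have hz : 0 ≤ z := le_trans (by positivity) hz0
  have hr : 0 < r := by
    have : (0 : ℝ) < i0 / 32 := by
      have : (0 : ℝ) < i0 := by linarith
      positivity
    linarith
  have hzr : z < r := by
    have : (j1 : ℝ) / 32 < i0 / 32 := by
      have : (j1 : ℝ) < i0 := by linarith
      linarith
    linarith
  -- the basic bounds
  have bv0 : L (Real.exp (z / 4)) (gL j0) := gL_at (by omega) (by linarith)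
  have bv1 : U (Real.exp (z / 4)) (gU j1) := gU_at (by omega) (by linarith)
  have bz0 : L (Real.exp z) (gL (4 * j0)) := gL_at (by omega) (by push_cast; linarith)
  have bz1 : U (Real.exp z) (gU (4 * j1)) := gU_at (by omega) (by push_cast; linarith)
  have bw0 : U (Real.exp (-r)) (eU (4 * i0)) := eU_at (by omega) (by push_cast; linarith)
  have bw1 : L (Real.exp (-r)) (eL (4 * i1)) := eL_at (by omega) (by push_cast; linarith)
  have bW0 : U (Real.exp (-(2 * r))) (eU (8 * i0)) := eU_at (by omega) (by push_cast; linarith)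
  have bW1 : L (Real.exp (-(2 * r))) (eL (8 * i1)) := eL_at (by omega) (by push_cast; linarith)
  have bpv : U (ph (-(z / 4))) (psU j1) := psU_at (by omega) (by linarith)
  have bpz : U (ph (-z)) (psU (4 * j1)) := psU_at (by omega) (by push_cast; linarith)
  have bpz0 : L (ph (-z)) (psL (4 * j0)) := psL_at (by omega) (by push_cast; linarith)
  have bch : L (ph (-(z / 4)) - ka (-(z / 4))) (chL j0) := chL_at (by omega) (by linarith)
  have bkm : L (ka (-z)) (kmL (4 * j0)) := kmL_at (by omega) (by push_cast; linarith)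
  have btm : U (ta (-z)) (tmU (4 * j1)) := tmU_at (by omega) (by push_cast; linarith)
  have ppv := (ph_pos (-(z / 4))).le
  have ppz := (ph_pos (-z)).le
  have pta := (ta_pos (-z)).le
  have pez := (Real.exp_pos z).le
  have pev := (Real.exp_pos (z / 4)).le
  -- derived bounds
  have brk : L (r * (z * ka (-z))) (rL i0 (rL j0 (kmL (4 * j0)))) := L.rmul hr0 (L.rmul hz0 bkm)
  have brt : U (r * (r * (z * ta (-z)))) (rU i1 (rU i1 (rU j1 (tmU (4 * j1))))) :=
    U.rmul (by positivity) hr1 (U.rmul (by positivity) hr1 (U.rmul pta hz1 btm))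
  have brpv : U (r * ph (-(z / 4))) (rU i1 (psU j1)) := U.rmul ppv hr1 bpv
  have brpz : U (r * ph (-z)) (rU i1 (psU (4 * j1))) := U.rmul ppz hr1 bpz
  have bze : U (z * Real.exp z) (rU j1 (gU (4 * j1))) := U.rmul pez hz1 bz1
  have bre : U (r * Real.exp z) (rU i1 (gU (4 * j1))) := U.rmul pez hr1 bz1
  have h1 : L (4 * Real.exp (z / 4) + 2 * Real.exp (-r) * (2 * Real.exp z) +
        8 * Real.exp (-(2 * r)) * (2 * Real.exp z)) (uPF i1 j0) :=
    ((bv0.nmul 4).add ((bw1.nmul 2).mul (bz0.nmul 2))).add ((bW1.nmul 8).mul (bz0.nmul 2))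
  have h2 : U (r * ph (-(z / 4)) + 2 * Real.exp (-r) * (4 * (r * ph (-z))) +
        8 * Real.exp (-(2 * r)) * (3 * (r * ph (-z)))) (uNF i0 i1 j1) :=
    (brpv.add (U.mul (by positivity) (bw0.nmul 2) (brpz.nmul 4))).add
      (U.mul (by positivity) (bW0.nmul 8) (brpz.nmul 3))
  have h3 : L (r * (r * (ph (-(z / 4)) - ka (-(z / 4)))) + r * Real.exp (z / 4) +
      2 * Real.exp (-r) * (8 * (r * (z * ka (-z)))) +
      8 * Real.exp (-(2 * r)) * (3 * (r * (r * ph (-z))) + 6 * (r * (z * ka (-z)))))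
      (PF i0 i1 j0) :=
    (((L.rmul hr0 (L.rmul hr0 bch)).add (L.rmul hr0 bv0)).add
      ((bw1.nmul 2).mul (brk.nmul 8))).add
      ((bW1.nmul 8).mul (((L.rmul hr0 (L.rmul hr0 bpz0)).nmul 3).add (brk.nmul 6)))
  have h4 : U (2 * (r * ph (-(z / 4))) + z * Real.exp (z / 4) +
      2 * Real.exp (-r) * (8 * (r * (r * (z * ta (-z)))) + 2 * (z * Real.exp z)) +
      8 * Real.exp (-(2 * r)) * (6 * (r * (r * (z * ta (-z)))) +
        (r * Real.exp z + 2 * (z * Real.exp z))) + 3 / 5) (NF i0 i1 j1) := by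
    refine ((((brpv.nmul 2).add (U.rmul pev hz1 bv1)).add
      (U.mul (by positivity) (bw0.nmul 2) ((brt.nmul 8).add (bze.nmul 2)))).add
      (U.mul (by positivity) (bW0.nmul 8) ((brt.nmul 6).add (bre.add (bze.nmul 2))))).add ?_
    unfold U ONE; norm_num
  have hc1 : L (cF r z + 1 / 4) (clF i1 j0) := by
    unfold cF clF
    have d1 : (j0 : ℝ) / i1 ≤ z / r := by
      rw [div_le_div_iff₀ (by linarith) hr]
      have e1 : (j0 : ℝ) * r ≤ j0 * (i1 / 32) := mul_le_mul_of_nonneg_left hr1 (Nat.cast_nonneg _)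
      have e2 : (j0 : ℝ) / 32 * i1 ≤ z * i1 := mul_le_mul_of_nonneg_right hz0 (Nat.cast_nonneg _)
      linarith
    have d2 : (j0 : ℝ) / ((i1 - j0 : ℕ) : ℝ) ≤ z / (r - z) := by
      rw [Nat.cast_sub (by omega), div_le_div_iff₀ (by linarith) (by linarith)]
      have e1 : (j0 : ℝ) * r ≤ j0 * (i1 / 32) := mul_le_mul_of_nonneg_left hr1 (Nat.cast_nonneg _)
      have e2 : (j0 : ℝ) / 32 * i1 ≤ z * i1 := mul_le_mul_of_nonneg_right hz0 (Nat.cast_nonneg _)
      linarith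
    have d3 : (j0 : ℝ) / ((2 * i1 - j0 : ℕ) : ℝ) ≤ z / (2 * r - z) := by
      rw [Nat.cast_sub (by omega)]
      push_cast
      rw [div_le_div_iff₀ (by linarith) (by linarith)]
      have e1 : (j0 : ℝ) * r ≤ j0 * (i1 / 32) := mul_le_mul_of_nonneg_left hr1 (Nat.cast_nonneg _)
      have e2 : (j0 : ℝ) / 32 * i1 ≤ z * i1 := mul_le_mul_of_nonneg_right hz0 (Nat.cast_nonneg _)
      linarith
    refine ((((q_lo d1).nmul 3).add ((q_lo d2).nmul 2)).add ((q_lo d3).nmul 3)).add ?_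
    unfold L ONE; norm_num
  have hc2 : U (cF r z + 1 / 4) (chF i0 j1) := by
    unfold cF chF
    have d1 : z / r ≤ (j1 : ℝ) / i0 := by
      rw [div_le_div_iff₀ hr (by linarith)]
      have e1 : (j1 : ℝ) * (i0 / 32) ≤ j1 * r := mul_le_mul_of_nonneg_left hr0 (Nat.cast_nonneg _)
      have e2 : z * i0 ≤ (j1 : ℝ) / 32 * i0 := mul_le_mul_of_nonneg_right hz1 (Nat.cast_nonneg _)
      linarith
    have d2 : z / (r - z) ≤ (j1 : ℝ) / ((i0 - j1 : ℕ) : ℝ) := by
      rw [Nat.cast_sub hJI, div_le_div_iff₀ (by linarith) (by linarith)]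
      have e1 : (j1 : ℝ) * (i0 / 32) ≤ j1 * r := mul_le_mul_of_nonneg_left hr0 (Nat.cast_nonneg _)
      have e2 : z * i0 ≤ (j1 : ℝ) / 32 * i0 := mul_le_mul_of_nonneg_right hz1 (Nat.cast_nonneg _)
      linarith
    have d3 : z / (2 * r - z) ≤ (j1 : ℝ) / ((2 * i0 - j1 : ℕ) : ℝ) := by
      rw [Nat.cast_sub (by omega)]
      push_cast
      rw [div_le_div_iff₀ (by linarith) (by linarith)]
      have e1 : (j1 : ℝ) * (i0 / 32) ≤ j1 * r := mul_le_mul_of_nonneg_left hr0 (Nat.cast_nonneg _)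
      have e2 : z * i0 ≤ (j1 : ℝ) / 32 * i0 := mul_le_mul_of_nonneg_right hz1 (Nat.cast_nonneg _)
      linarith
    refine ((((q_up (by omega) d1).nmul 3).add ((q_up (by omega) d2).nmul 2)).add
      ((q_up (by omega) d3).nmul 3)).add ?_
    unfold U ONE; norm_num
  have hfin := final_lt hc1 hc2 h1 h2 h3 h4 (by omega)
  rw [mF_eq]
  linarith

end Pool.Agent.Lib.EPC
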