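import Pool.Agent.Lib.EPL.Sec

/-!
# The second order condition along a path

Variant of `second_of_locMin` / `notMin_second` (EPL/Second.lean, EPL/Sec.lean) in which only the
one-variable function `e ↦ En s (P e)` is known to have a local minimum at `0`.
-/

open MeasureTheory Set Filter Topology Matrix
open scoped Matrix.Norms.Elementwise

namespace Pool.Agent.Lib.EPC

open Pool.Agent.Lib.EpZ Pool.Agent.Lib.EPS Pool.Agent.Lib.EPL

namespace SecPAux

/-- expansion of the energy along a path -/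
theorem expand {Q : Mx 3} (hQ : PD Q) {H K : Mx 3} {P : ℝ → Mx 3} {C r : ℝ} (hr : 0 < r)
    (hPe : ∀ e : ℝ, |e| ≤ r → (P e).IsSymm ∧ (P e).det = Q.det ∧
      ‖P e - (Q + e • H + e ^ 2 • K)‖ ≤ C * |e| ^ 3) {s : ℝ} (hs : 3 / 2 < s) :
    ∃ E > 0, ∃ δ > 0, ∀ e : ℝ, 0 < e → e ≤ δ → PD (P e) ∧ F s (P e) ≤ F s Q -
      s * e * (∑' x : NZ 3, qf Q x.1 ^ (-s) * (qf H x.1 / qf Q x.1)) +
      e ^ 2 * (∑' x : NZ 3, (s * (s + 1) / 2 * (qf Q x.1 ^ (-s) * (qf H x.1 / qf Q x.1) ^ 2) -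
      s * (qf Q x.1 ^ (-s) * (qf K x.1 / qf Q x.1)))) + E * e ^ 3 := by
  obtain ⟨c, hc, hl⟩ := hQ.low
  obtain ⟨D, hD, ρ, hρ, hρ1, hexp⟩ := rpow_expand (s := s) (by linarith)
  obtain ⟨q, hq, hpd⟩ := pd_near hQ
  have hC : 0 ≤ |C| := abs_nonneg _
  -- constants
  set A : ℝ := 3 * ‖H‖ / c + 3 * ‖K‖ / c + 3 * |C| / c + 1 with hA
  have hA0 : 0 < A := by positivity
  set S0 : ℝ := ∑' x : NZ 3, qf Q x.1 ^ (-s) with hS0
  have hsm : (3 : ℝ) / 2 < s := hs
  have hd : ((3 : ℕ) : ℝ) / 2 < s := by norm_num; exact hs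
  have hS := hQ.summable hd
  have hS2 := hl.summable_mul_sq hc hd H
  have hS1 := hl.summable_mul hc hd H
  have hS3 := hl.summable_mul hc hd K
  have hS00 : 0 ≤ S0 := tsum_nonneg fun x => Real.rpow_nonneg (hQ.pos x).le _
  have hT : Summable fun x : NZ 3 => (s * (s + 1) / 2 * (qf Q x.1 ^ (-s) *
      (qf H x.1 / qf Q x.1) ^ 2) - s * (qf Q x.1 ^ (-s) * (qf K x.1 / qf Q x.1))) :=
    (hS2.mul_left _).sub (hS3.mul_left _)
  set T : ℝ := ∑' x : NZ 3, (s * (s + 1) / 2 * (qf Q x.1 ^ (-s) * (qf H x.1 / qf Q x.1) ^ 2) -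
      s * (qf Q x.1 ^ (-s) * (qf K x.1 / qf Q x.1))) with hTd
  set S1 : ℝ := ∑' x : NZ 3, qf Q x.1 ^ (-s) * (qf H x.1 / qf Q x.1) with hS1d
  -- the ratios
  have hrH : ∀ x : NZ 3, |qf H x.1 / qf Q x.1| ≤ A := fun x => by
    have := hl.ratio hc H x
    have h1 : (((3 : ℕ) : ℝ)) * ‖H‖ / c ≤ A := by
      rw [hA]; push_cast
      have : 0 ≤ 3 * ‖K‖ / c := by positivity
      have : 0 ≤ 3 * |C| / c := by positivity
      linarith
    linarith
  have hrK : ∀ x : NZ 3, |qf K x.1 / qf Q x.1| ≤ A := fun x => by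
    have := hl.ratio hc K x
    have h1 : (((3 : ℕ) : ℝ)) * ‖K‖ / c ≤ A := by
      rw [hA]; push_cast
      have : 0 ≤ 3 * ‖H‖ / c := by positivity
      have : 0 ≤ 3 * |C| / c := by positivity
      linarith
    linarith
  -- the key estimate
  refine ⟨(s * A + s * (s + 1) / 2 * (8 * A ^ 2) +
    D * (3 * A) ^ 3 + 1) * (S0 + 1), by positivity, min 1 (min r (min (ρ / (3 * A))
      (q / (2 * ((‖H‖ + ‖K‖ + |C|) + 1))))),
    by positivity, ?_⟩
  intro e he hle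
  have he1 : e ≤ 1 := hle.trans (min_le_left _ _)
  have he2 : e ≤ r := (hle.trans (min_le_right _ _)).trans (min_le_left _ _)
  have he3 : e ≤ ρ / (3 * A) :=
    ((hle.trans (min_le_right _ _)).trans (min_le_right _ _)).trans (min_le_left _ _)
  have he5 : e ≤ q / (2 * ((‖H‖ + ‖K‖ + |C|) + 1)) :=
    ((hle.trans (min_le_right _ _)).trans (min_le_right _ _)).trans (min_le_right _ _)
  obtain ⟨hsym, hdet, hnorm⟩ := hPe e (by rw [abs_of_pos he]; exact he2)
  rw [abs_of_pos he] at hnorm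
  have hCle : C ≤ |C| := le_abs_self C
  have hnorm' : ‖P e - (Q + e • H + e ^ 2 • K)‖ ≤ |C| * e ^ 3 :=
    hnorm.trans (mul_le_mul_of_nonneg_right hCle (by positivity))
  have he23 : e ^ 2 ≤ e := by nlinarith
  have he33 : e ^ 3 ≤ e := by nlinarith [mul_nonneg he.le (sub_nonneg.mpr he23)]
  have hdist : ‖P e - Q‖ ≤ e * (‖H‖ + ‖K‖ + |C|) := by
    have h1 : P e - Q = (P e - (Q + e • H + e ^ 2 • K)) + (e • H + e ^ 2 • K) := by abel
    rw [h1]
    refine (norm_add_le _ _).trans ?_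
    have h2 : ‖e • H + e ^ 2 • K‖ ≤ e * ‖H‖ + e * ‖K‖ := by
      refine (norm_add_le _ _).trans (add_le_add ?_ ?_)
      · rw [norm_smul, Real.norm_of_nonneg he.le]
      · rw [norm_smul, Real.norm_of_nonneg (by positivity)]
        exact mul_le_mul_of_nonneg_right he23 (norm_nonneg _)
    have h3 : |C| * e ^ 3 ≤ |C| * e := mul_le_mul_of_nonneg_left he33 hC
    nlinarith
  have hN : 0 ≤ ‖H‖ + ‖K‖ + |C| := by positivity
  have hPD : PD (P e) := by
    refine hpd _ hsym (hdist.trans ?_)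
    calc e * (‖H‖ + ‖K‖ + |C|) ≤ q / (2 * ((‖H‖ + ‖K‖ + |C|) + 1)) * ((‖H‖ + ‖K‖ + |C|) + 1) :=
          mul_le_mul he5 (by linarith) hN (by positivity)
      _ = q / 2 := by field_simp
      _ ≤ q := by linarith
  -- termwise
  set B : ℝ := s * A + s * (s + 1) / 2 * (8 * A ^ 2) + D * (3 * A) ^ 3 + 1 with hB
  have hterm : ∀ x : NZ 3, qf (P e) x.1 ^ (-s) ≤ qf Q x.1 ^ (-s) -
      s * e * (qf Q x.1 ^ (-s) * (qf H x.1 / qf Q x.1)) +
      e ^ 2 * (s * (s + 1) / 2 * (qf Q x.1 ^ (-s) * (qf H x.1 / qf Q x.1) ^ 2) -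
        s * (qf Q x.1 ^ (-s) * (qf K x.1 / qf Q x.1))) + B * e ^ 3 * qf Q x.1 ^ (-s) := by
    intro x
    have hp := hQ.pos x
    set h : ℝ := qf H x.1 / qf Q x.1 with hh
    set k : ℝ := qf K x.1 / qf Q x.1 with hk
    set R : ℝ := (qf (P e) x.1 - (qf Q x.1 + e * qf H x.1 + e ^ 2 * qf K x.1)) / qf Q x.1 with hR
    have hRb : |R| ≤ A * e ^ 3 := by
      have h1 : qf (P e) x.1 - (qf Q x.1 + e * qf H x.1 + e ^ 2 * qf K x.1) =
          qf (P e - (Q + e • H + e ^ 2 • K)) x.1 := by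
        rw [qf_sub, qf_add, qf_add, qf_smul, qf_smul]
      rw [hR, h1]
      refine (hl.ratio hc _ x).trans ?_
      rw [div_le_iff₀ hc]
      push_cast
      have h2 : 3 * ‖P e - (Q + e • H + e ^ 2 • K)‖ ≤ 3 * (|C| * e ^ 3) :=
        mul_le_mul_of_nonneg_left hnorm' (by norm_num)
      refine h2.trans ?_
      have h3 : 3 * |C| ≤ A * c := by
        rw [hA]
        have h4 : 3 * |C| / c * c = 3 * |C| := by field_simp
        have h5 : 0 ≤ 3 * ‖H‖ / c * c := by positivity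
        have h6 : 0 ≤ 3 * ‖K‖ / c * c := by positivity
        nlinarith
      have h4 : 0 ≤ e ^ 3 := by positivity
      nlinarith
    set y : ℝ := e * h + e ^ 2 * k + R with hy
    have hval : qf (P e) x.1 = qf Q x.1 * (1 + y) := by
      rw [hy, hh, hk, hR]
      field_simp
      ring
    have hh1 : |h| ≤ A := hrH x
    have hk1 : |k| ≤ A := hrK x
    have hyb : |y| ≤ 3 * A * e := by
      have h1 : |y| ≤ |e * h| + |e ^ 2 * k| + |R| := by
        rw [hy]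
        exact (abs_add_le _ _).trans (by linarith [abs_add_le (e * h) (e ^ 2 * k)])
      rw [abs_mul, abs_mul, abs_of_pos he, abs_of_nonneg (by positivity : 0 ≤ e ^ 2)] at h1
      have h2 : e * |h| ≤ e * A := mul_le_mul_of_nonneg_left hh1 he.le
      have h3 : e ^ 2 * |k| ≤ e * A := mul_le_mul he23 hk1 (abs_nonneg _) he.le
      have h4 : A * e ^ 3 ≤ A * e := mul_le_mul_of_nonneg_left he33 hA0.le
      linarith
    have hyρ : |y| ≤ ρ := by
      refine hyb.trans ?_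
      calc 3 * A * e ≤ 3 * A * (ρ / (3 * A)) := mul_le_mul_of_nonneg_left he3 (by positivity)
        _ = ρ := by field_simp
    have hx := hexp y hyρ
    have h1y : 0 ≤ 1 + y := by
      have := (abs_le.mp (hyρ.trans hρ1)).1
      linarith
    have hy3 : |y| ^ 3 ≤ (3 * A) ^ 3 * e ^ 3 := by
      calc |y| ^ 3 ≤ (3 * A * e) ^ 3 := pow_le_pow_left₀ (abs_nonneg _) hyb 3
        _ = _ := by ring
    have hy1 : -y ≤ -(e * h) - e ^ 2 * k + A * e ^ 3 := by
      have := (abs_le.mp hRb).1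
      rw [hy]; linarith
    have hy2 : y ^ 2 ≤ e ^ 2 * h ^ 2 + 8 * A ^ 2 * e ^ 3 := by
      have h1 : |y - e * h| ≤ 2 * A * e ^ 2 := by
        have h2 : y - e * h = e ^ 2 * k + R := by rw [hy]; ring
        rw [h2]
        refine (abs_add_le _ _).trans ?_
        rw [abs_mul, abs_of_nonneg (by positivity : 0 ≤ e ^ 2)]
        have h3 : e ^ 2 * |k| ≤ e ^ 2 * A := mul_le_mul_of_nonneg_left hk1 (by positivity)
        have h4 : A * e ^ 3 ≤ A * e ^ 2 := by
          refine mul_le_mul_of_nonneg_left ?_ hA0.le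
          nlinarith [sq_nonneg e]
        linarith
      have h2 : y ^ 2 = e ^ 2 * h ^ 2 + (y - e * h) * (y + e * h) := by ring
      have h3 : |y + e * h| ≤ 4 * A * e := by
        refine (abs_add_le _ _).trans ?_
        rw [abs_mul e h, abs_of_pos he]
        have := mul_le_mul_of_nonneg_left hh1 he.le
        linarith
      have h4 : (y - e * h) * (y + e * h) ≤ 2 * A * e ^ 2 * (4 * A * e) := by
        refine (le_abs_self _).trans ?_
        rw [abs_mul]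
        exact mul_le_mul h1 h3 (abs_nonneg _) (by positivity)
      rw [h2]
      have h5 : 2 * A * e ^ 2 * (4 * A * e) = 8 * A ^ 2 * e ^ 3 := by ring
      linarith
    rw [hval, Real.mul_rpow hp.le h1y]
    have hQs : 0 ≤ qf Q x.1 ^ (-s) := Real.rpow_nonneg hp.le _
    have hfin : (1 + y) ^ (-s) ≤ 1 - s * e * h + e ^ 2 * (s * (s + 1) / 2 * h ^ 2 - s * k) +
        B * e ^ 3 := by
      have g1 : s * -y ≤ s * (-(e * h) - e ^ 2 * k + A * e ^ 3) :=
        mul_le_mul_of_nonneg_left hy1 (by linarith)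
      have g2 : s * (s + 1) / 2 * y ^ 2 ≤ s * (s + 1) / 2 * (e ^ 2 * h ^ 2 +
          8 * A ^ 2 * e ^ 3) := mul_le_mul_of_nonneg_left hy2 (by positivity)
      have g3 : D * |y| ^ 3 ≤ D * ((3 * A) ^ 3 * e ^ 3) := mul_le_mul_of_nonneg_left hy3 hD.le
      have g4 : 0 ≤ e ^ 3 := by positivity
      rw [hB]
      linarith
    calc qf Q x.1 ^ (-s) * (1 + y) ^ (-s) ≤ qf Q x.1 ^ (-s) * (1 - s * e * h +
          e ^ 2 * (s * (s + 1) / 2 * h ^ 2 - s * k) + B * e ^ 3) :=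
          mul_le_mul_of_nonneg_left hfin hQs
      _ = _ := by ring
  have hsum := (hPD.summable hd).tsum_le_tsum hterm
    ((((hS.sub (hS1.mul_left (s * e))).add (hT.mul_left (e ^ 2)))).add (hS.mul_left (B * e ^ 3)))
  rw [((hS.sub (hS1.mul_left (s * e))).add (hT.mul_left (e ^ 2))).tsum_add
    (hS.mul_left (B * e ^ 3)), (hS.sub (hS1.mul_left (s * e))).tsum_add (hT.mul_left (e ^ 2)),
    hS.tsum_sub (hS1.mul_left (s * e)), tsum_mul_left, tsum_mul_left, tsum_mul_left,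
    ← hTd, ← hS0, ← hS1d] at hsum
  refine ⟨hPD, ?_⟩
  have hF' : F s (P e) = ∑' x : NZ 3, qf (P e) x.1 ^ (-s) := rfl
  have hBpos : 0 ≤ B := by positivity
  have g4 : 0 ≤ e ^ 3 := by positivity
  have hFQ : F s Q = S0 := rfl
  rw [hF', hFQ]
  nlinarith [mul_nonneg hBpos g4]

/-- first and second order conditions -/
theorem conds {Q : Mx 3} (hQ : PD Q) {H K : Mx 3} {P : ℝ → Mx 3} {C r : ℝ} (hr : 0 < r)
    (hPe : ∀ e : ℝ, |e| ≤ r → (P e).IsSymm ∧ (P e).det = Q.det ∧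
      ‖P e - (Q + e • H + e ^ 2 • K)‖ ≤ C * |e| ^ 3) {s : ℝ} (hs : 3 / 2 < s)
    (hm : ∀ᶠ e in 𝓝 (0 : ℝ), En s (P 0) ≤ En s (P e)) :
    (∑' x : NZ 3, qf Q x.1 ^ (-s) * (qf H x.1 / qf Q x.1) ≤ 0) ∧
    (∑' x : NZ 3, qf Q x.1 ^ (-s) * (qf H x.1 / qf Q x.1) = 0 →
      0 ≤ ∑' x : NZ 3, (s * (s + 1) / 2 * (qf Q x.1 ^ (-s) * (qf H x.1 / qf Q x.1) ^ 2) -
      s * (qf Q x.1 ^ (-s) * (qf K x.1 / qf Q x.1)))) := by
  obtain ⟨E, hE, δ, hδ, hk⟩ := expand hQ hr hPe hs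
  have hs0 : 0 < s := by linarith
  have hP0 : P 0 = Q := by
    have h := (hPe 0 (by simp [hr.le])).2.2
    have h1 : ‖P 0 - Q‖ ≤ 0 := by simpa using h
    have h2 := norm_le_zero_iff.mp h1
    exact sub_eq_zero.mp h2
  rw [hP0] at hm
  obtain ⟨ε, hε, hmin⟩ := Metric.eventually_nhds_iff.mp hm
  set S1 : ℝ := ∑' x : NZ 3, qf Q x.1 ^ (-s) * (qf H x.1 / qf Q x.1) with hS1d
  set T : ℝ := ∑' x : NZ 3, (s * (s + 1) / 2 * (qf Q x.1 ^ (-s) * (qf H x.1 / qf Q x.1) ^ 2) -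
      s * (qf Q x.1 ^ (-s) * (qf K x.1 / qf Q x.1))) with hTd
  have key : ∀ e : ℝ, 0 < e → e ≤ min δ (min r (ε / 2)) →
      0 ≤ -(s * S1) + e * T + E * e ^ 2 := by
    intro e he hle
    have h1 : e ≤ δ := hle.trans (min_le_left _ _)
    have h2 : e ≤ r := (hle.trans (min_le_right _ _)).trans (min_le_left _ _)
    have h3 : e ≤ ε / 2 := (hle.trans (min_le_right _ _)).trans (min_le_right _ _)
    obtain ⟨_, hF⟩ := hk e he h1
    have hdet := (hPe e (by rw [abs_of_pos he]; exact h2)).2.1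
    have hEn := hmin (y := e) (by rw [Real.dist_eq, sub_zero, abs_of_pos he]; linarith)
    have hF2 : F s Q ≤ F s (P e) := by
      unfold En at hEn
      rw [hdet] at hEn
      exact le_of_mul_le_mul_right hEn (Real.rpow_pos_of_pos hQ.det_pos _)
    have h4 : 0 ≤ e * (-(s * S1) + e * T + E * e ^ 2) := by nlinarith
    exact nonneg_of_mul_nonneg_right h4 he
  set δ' : ℝ := min δ (min r (ε / 2)) with hδ'
  have hδ'0 : 0 < δ' := lt_min hδ (lt_min hr (by positivity))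
  constructor
  · by_contra hneg
    push Not at hneg
    have hM : 0 < |T| + E + 1 := by positivity
    set e : ℝ := min (min δ' 1) (s * S1 / (2 * (|T| + E + 1))) with he
    have hx : 0 < s * S1 := mul_pos hs0 hneg
    have he0 : 0 < e := lt_min (lt_min hδ'0 one_pos) (by positivity)
    have he1 : e ≤ 1 := (min_le_left _ _).trans (min_le_right _ _)
    have h1 := key e he0 ((min_le_left _ _).trans (min_le_left _ _))
    have h2 : e * (2 * (|T| + E + 1)) ≤ s * S1 := by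
      have := min_le_right (min δ' 1) (s * S1 / (2 * (|T| + E + 1)))
      rw [← he] at this
      rwa [le_div_iff₀ (by positivity)] at this
    have h3 : e * T ≤ e * |T| := mul_le_mul_of_nonneg_left (le_abs_self T) he0.le
    have h4 : E * e ^ 2 ≤ e * E := by nlinarith [mul_pos hE he0]
    nlinarith
  · intro h0
    by_contra hneg
    push Not at hneg
    have hT0 : T < 0 := hneg
    set e : ℝ := min δ' (-T / (2 * E)) with he
    have he0 : 0 < e := lt_min hδ'0 (by have : 0 < -T := by linarith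
                                        positivity)
    have h1 := key e he0 (min_le_left _ _)
    rw [h0] at h1
    have h2 : e * (2 * E) ≤ -T := by
      have := min_le_right δ' (-T / (2 * E))
      rw [← he] at this
      rwa [le_div_iff₀ (by positivity)] at this
    have h3 : 0 < e ^ 2 := by positivity
    nlinarith

end SecPAux

open SecPAux in
theorem not_isLocalMin_second {Q : Mx 3} (hQ : PD Q) {H K : Mx 3} (hH : H.IsSymm)
    {P : ℝ → Mx 3} {C r : ℝ} (hr : 0 < r)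
    (hP : ∀ e : ℝ, |e| ≤ r → (P e).IsSymm ∧ (P e).det = Q.det ∧
      ‖P e - (Q + e • H + e ^ 2 • K)‖ ≤ C * |e| ^ 3) {b c : ℝ}
    (hneg : ∀ t : ℝ, 0 < t → t ^ 2 / 2 * Tw Q (fun x => EpZ.qf H x * EpZ.qf H x) t -
      t * Tw Q (fun x => EpZ.qf K x) t + c * (t * Tw Q (fun x => EpZ.qf H x) t) +
        b * (t ^ 2 * Tw Q (fun x => EpZ.qf H x * EpZ.qf Q x) t) < 0)
    {s : ℝ} (hs : 3 / 2 < s) : ¬ IsLocalMin (fun e : ℝ => En s (P e)) 0 := by
  intro hm
  have hs0 : 0 < s := by linarith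
  have hm1 : ∀ᶠ e in 𝓝 (0 : ℝ), En s (P 0) ≤ En s (P e) := hm
  obtain ⟨a1, a2⟩ := conds hQ hr hP hs hm1
  have hPr : ∀ e : ℝ, |e| ≤ r → (P (-e)).IsSymm ∧ (P (-e)).det = Q.det ∧
      ‖P (-e) - (Q + e • (-H) + e ^ 2 • K)‖ ≤ C * |e| ^ 3 := by
    intro e he
    obtain ⟨h1, h2, h3⟩ := hP (-e) (by rw [abs_neg]; exact he)
    refine ⟨h1, h2, ?_⟩
    have e1 : Q + e • (-H) + e ^ 2 • K = Q + (-e) • H + (-e) ^ 2 • K := by
      rw [smul_neg, neg_smul, neg_sq]
    rw [e1]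
    rwa [abs_neg] at h3
  have hm2 : ∀ᶠ e in 𝓝 (0 : ℝ), En s (P (-0)) ≤ En s (P (-e)) := by
    have h : Tendsto (fun e : ℝ => -e) (𝓝 0) (𝓝 0) := by
      have := (continuous_neg (G := ℝ)).tendsto 0
      simpa using this
    have := h.eventually hm1
    simpa using this
  obtain ⟨b1, _⟩ := conds (P := fun e => P (-e)) hQ hr hPr hs hm2
  have hS0 : ∑' x : NZ 3, EpZ.qf Q x.1 ^ (-s) * (EpZ.qf H x.1 / EpZ.qf Q x.1) = 0 := by
    have e1 : ∑' x : NZ 3, EpZ.qf Q x.1 ^ (-s) * (EpZ.qf (-H) x.1 / EpZ.qf Q x.1) =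
        -∑' x : NZ 3, EpZ.qf Q x.1 ^ (-s) * (EpZ.qf H x.1 / EpZ.qf Q x.1) := by
      rw [← tsum_neg]
      refine tsum_congr fun x => ?_
      rw [qf_neg]; ring
    rw [e1] at b1
    linarith
  have h2 := a2 hS0
  have hcrit : ∑' x : NZ 3, EpZ.qf H x.1 / EpZ.qf Q x.1 ^ (s + 1) = 0 := by
    rw [← hS0]
    refine tsum_congr fun x => ?_
    have hp := hQ.pos x
    rw [Real.rpow_add hp, Real.rpow_one, Real.rpow_neg hp.le]
    field_simp
  have hcrit2 : ∑' x : NZ 3, EpZ.qf H x.1 * EpZ.qf Q x.1 / EpZ.qf Q x.1 ^ (s + 2) = 0 := by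
    rw [← hcrit]
    refine tsum_congr fun x => ?_
    have hp := hQ.pos x
    rw [show s + 2 = (s + 1) + 1 by ring, Real.rpow_add hp (s + 1), Real.rpow_one]
    field_simp
  obtain ⟨i1, v1⟩ := ((Pg.qf H).mul (Pg.qf H)).mel hQ (p := s + 2) (by norm_num; linarith)
  obtain ⟨i2, v2⟩ := (Pg.qf K).mel hQ (p := s + 1) (by norm_num; linarith)
  obtain ⟨i3, v3⟩ := (Pg.qf H).mel hQ (p := s + 1) (by norm_num; linarith)
  obtain ⟨i4, v4⟩ := ((Pg.qf H).mul (Pg.qf Q)).mel hQ (p := s + 2) (by norm_num; linarith)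
  rw [hcrit, mul_zero] at v3
  rw [hcrit2, mul_zero] at v4
  set f1 : ℝ → ℝ := fun t => t ^ (s + 2 - 1) *
    ∑' x : Fin 3 → ℤ, EpZ.qf H x * EpZ.qf H x * Real.exp (-(t * EpZ.qf Q x)) with hf1
  set f2 : ℝ → ℝ := fun t => t ^ (s + 1 - 1) *
    ∑' x : Fin 3 → ℤ, EpZ.qf K x * Real.exp (-(t * EpZ.qf Q x)) with hf2
  set f3 : ℝ → ℝ := fun t => t ^ (s + 1 - 1) *
    ∑' x : Fin 3 → ℤ, EpZ.qf H x * Real.exp (-(t * EpZ.qf Q x)) with hf3
  set f4 : ℝ → ℝ := fun t => t ^ (s + 2 - 1) *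
    ∑' x : Fin 3 → ℤ, EpZ.qf H x * EpZ.qf Q x * Real.exp (-(t * EpZ.qf Q x)) with hf4
  have j1 : IntegrableOn (fun t => 1 / 2 * f1 t) (Ioi 0) := Integrable.const_mul i1 (1 / 2)
  have j2 : IntegrableOn (fun t => 1 / 2 * f1 t - f2 t) (Ioi 0) := Integrable.sub j1 i2
  have j3 : IntegrableOn (fun t => c * f3 t) (Ioi 0) := Integrable.const_mul i3 c
  have j4 : IntegrableOn (fun t => 1 / 2 * f1 t - f2 t + c * f3 t) (Ioi 0) := Integrable.add j2 j3
  have j5 : IntegrableOn (fun t => b * f4 t) (Ioi 0) := Integrable.const_mul i4 b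
  have iA : IntegrableOn (fun t => 1 / 2 * f1 t - f2 t + c * f3 t + b * f4 t) (Ioi 0) :=
    Integrable.add j4 j5
  have vA : ∫ t in Ioi (0 : ℝ), (1 / 2 * f1 t - f2 t + c * f3 t + b * f4 t) =
      Real.Gamma s * ∑' x : NZ 3, (s * (s + 1) / 2 * (EpZ.qf Q x.1 ^ (-s) *
        (EpZ.qf H x.1 / EpZ.qf Q x.1) ^ 2) - s * (EpZ.qf Q x.1 ^ (-s) *
          (EpZ.qf K x.1 / EpZ.qf Q x.1))) := by
    obtain ⟨c₀, hc₀, hl⟩ := hQ.low
    have hd : ((3 : ℕ) : ℝ) / 2 < s := by norm_num; exact hs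
    rw [integral_add j4 j5, integral_add j2 j3, integral_sub j1 i2,
      integral_const_mul, integral_const_mul, integral_const_mul, v1, v2, v3, v4,
      ((hl.summable_mul_sq hc₀ hd H).mul_left _).tsum_sub
        ((hl.summable_mul hc₀ hd K).mul_left _), tsum_mul_left, tsum_mul_left]
    have g1 : Real.Gamma (s + 1) = s * Real.Gamma s := Real.Gamma_add_one hs0.ne'
    have g2 : Real.Gamma (s + 2) = (s + 1) * (s * Real.Gamma s) := by
      rw [show s + 2 = (s + 1) + 1 by ring, Real.Gamma_add_one (by linarith), g1]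
    have e1 : ∑' x : NZ 3, EpZ.qf H x.1 * EpZ.qf H x.1 / EpZ.qf Q x.1 ^ (s + 2) =
        ∑' x : NZ 3, EpZ.qf Q x.1 ^ (-s) * (EpZ.qf H x.1 / EpZ.qf Q x.1) ^ 2 := by
      refine tsum_congr fun x => ?_
      have hp := hQ.pos x
      rw [Real.rpow_add hp, Real.rpow_neg hp.le]
      norm_num
      field_simp
    have e2 : ∑' x : NZ 3, EpZ.qf K x.1 / EpZ.qf Q x.1 ^ (s + 1) =
        ∑' x : NZ 3, EpZ.qf Q x.1 ^ (-s) * (EpZ.qf K x.1 / EpZ.qf Q x.1) := by
      refine tsum_congr fun x => ?_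
      have hp := hQ.pos x
      rw [Real.rpow_add hp, Real.rpow_one, Real.rpow_neg hp.le]
      field_simp
    rw [e1, e2, g1, g2]
    ring
  have hlt : ∀ t ∈ Ioi (0 : ℝ), 1 / 2 * f1 t - f2 t + c * f3 t + b * f4 t < 0 := by
    intro t ht
    have ht0 : (0 : ℝ) < t := ht
    have h1 := hneg t ht0
    have e1 : t ^ (s + 2 - 1) = t ^ (s - 1) * t ^ 2 := by
      rw [← Real.rpow_natCast t 2, ← Real.rpow_add ht0]; congr 1; norm_num; ring
    have e2 : t ^ (s + 1 - 1) = t ^ (s - 1) * t := by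
      nth_rewrite 3 [← Real.rpow_one t]
      rw [← Real.rpow_add ht0]; congr 1; ring
    have e3 : 1 / 2 * f1 t - f2 t + c * f3 t + b * f4 t = t ^ (s - 1) *
        (t ^ 2 / 2 * Tw Q (fun x => EpZ.qf H x * EpZ.qf H x) t -
      t * Tw Q (fun x => EpZ.qf K x) t + c * (t * Tw Q (fun x => EpZ.qf H x) t) +
        b * (t ^ 2 * Tw Q (fun x => EpZ.qf H x * EpZ.qf Q x) t)) := by
      simp only [hf1, hf2, hf3, hf4, Tw]
      rw [e1, e2]
      ring
    rw [e3]
    exact mul_neg_of_pos_of_neg (Real.rpow_pos_of_pos ht0 _) h1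
  have hI : ∫ t in Ioi (0 : ℝ), -(1 / 2 * f1 t - f2 t + c * f3 t + b * f4 t) ≤ 0 := by
    rw [integral_neg, vA]
    have := mul_nonneg (Real.Gamma_pos_of_pos hs0).le h2
    linarith
  have hp : 0 < ∫ t in Ioi (0 : ℝ), -(1 / 2 * f1 t - f2 t + c * f3 t + b * f4 t) := by
    rw [setIntegral_pos_iff_support_of_nonneg_ae]
    · have : Function.support (fun t : ℝ => -(1 / 2 * f1 t - f2 t + c * f3 t + b * f4 t)) ∩ Ioi 0 =
          Ioi 0 := by
        refine inter_eq_right.mpr fun t ht => ?_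
        have := hlt t ht
        exact (neg_pos.mpr this).ne'
      rw [this, Real.volume_Ioi]
      exact ENNReal.coe_lt_top
    · refine (ae_restrict_iff' measurableSet_Ioi).mpr (Filter.Eventually.of_forall fun t ht => ?_)
      exact (neg_pos.mpr (hlt t ht)).le
    · exact iA.neg
  linarith

end Pool.Agent.Lib.EPC
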