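import Pool.Agent.Lib.EPC.GNeg
import Pool.Agent.Lib.EPC.SecP

/-!
# No local minimum between bcc and fcc

The body-centred tetragonal forms `Qt a c` with `a < c < 2 a` are not local minima of the Epstein
zeta function for any `s > 3/2`, not even along their own one-parameter family.
-/

open MeasureTheory Set Filter Topology Matrix
open scoped Matrix.Norms.Elementwise

namespace Pool.Agent.Lib.EPC

open Pool.Agent.Lib.EpZ Pool.Agent.Lib.EPS Pool.Agent.Lib.EPL

theorem Qt_inv {a c : ℝ} (ha : a ≠ 0) (hc : c ≠ 0) : (Qt a c)⁻¹ =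
    !![1 / (4 * a) + 1 / (4 * c), 1 / (4 * c), 1 / (4 * a);
       1 / (4 * c), 1 / (4 * a) + 1 / (4 * c), 1 / (4 * a);
       1 / (4 * a), 1 / (4 * a), 1 / (2 * a)] := by
  refine Matrix.inv_eq_right_inv ?_
  ext i j
  fin_cases i <;> fin_cases j <;>
    simp [Qt, Matrix.mul_apply, Fin.sum_univ_three] <;> field_simp <;> ring

theorem Qt_trace {a c b d : ℝ} (ha : a ≠ 0) (hc : c ≠ 0) :
    ((Qt a c)⁻¹ * Qt b d).trace = 2 * (b / a) + d / c := by
  rw [Qt_inv ha hc, Matrix.trace_fin_three]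
  simp [Qt, Matrix.mul_apply, Fin.sum_univ_three]
  field_simp
  ring

/-- the path of tetragonal forms with the same determinant -/
noncomputable def Pt (a c e : ℝ) : Mx 3 := Qt (a * Real.exp (-e)) (c * Real.exp (2 * e))

theorem Pt_det (a c e : ℝ) : (Pt a c e).det = (Qt a c).det := by
  unfold Pt
  rw [Qt_det, Qt_det]
  have h : Real.exp (-e) ^ 2 * Real.exp (2 * e) = 1 := by
    rw [← Real.exp_nat_mul, ← Real.exp_add]
    simp
  calc 16 * (a * Real.exp (-e)) ^ 2 * (c * Real.exp (2 * e)) =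
      16 * a ^ 2 * c * (Real.exp (-e) ^ 2 * Real.exp (2 * e)) := by ring
    _ = 16 * a ^ 2 * c := by rw [h, mul_one]

theorem exp3 {x : ℝ} (hx : |x| ≤ 1) : |Real.exp x - (1 + x + x ^ 2 / 2)| ≤ |x| ^ 3 / 4 := by
  have h := Real.exp_bound hx (n := 3) (by norm_num)
  have e : ∑ m ∈ Finset.range 3, x ^ m / (m.factorial : ℝ) = 1 + x + x ^ 2 / 2 := by
    simp [Finset.sum_range_succ, Nat.factorial]
  rw [e] at h
  refine h.trans ?_
  have h3 : 0 ≤ |x| ^ 3 := by positivity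
  norm_num [Nat.factorial]
  linarith

theorem Pt_norm {a c : ℝ} (ha : 0 < a) (hc : 0 < c) {e : ℝ} (he : |e| ≤ 1 / 2) :
    ‖Pt a c e - (Qt a c + e • Qt (-a) (2 * c) + e ^ 2 • Qt (a / 2) (2 * c))‖ ≤
      (2 * a + 2 * c) * |e| ^ 3 := by
  have h1 := exp3 (x := -e) (by rw [abs_neg]; linarith)
  have h2 := exp3 (x := 2 * e) (by rw [abs_mul, abs_of_pos (by norm_num : (0 : ℝ) < 2)]; linarith)
  rw [abs_neg] at h1
  rw [abs_mul 2 e, abs_of_pos (by norm_num : (0 : ℝ) < 2)] at h2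
  set u : ℝ := Real.exp (-e) - (1 + -e + (-e) ^ 2 / 2) with hu
  set v : ℝ := Real.exp (2 * e) - (1 + 2 * e + (2 * e) ^ 2 / 2) with hv
  have e1 : Pt a c e - (Qt a c + e • Qt (-a) (2 * c) + e ^ 2 • Qt (a / 2) (2 * c)) =
      Qt (a * u) (c * v) := by
    have e2 : Pt a c e = Qt (a * u) (c * v) + (Qt a c + e • Qt (-a) (2 * c) +
        e ^ 2 • Qt (a / 2) (2 * c)) := by
      unfold Pt
      rw [Qt_smul, Qt_smul, Qt_add, Qt_add, Qt_add]
      congr 1
      · rw [hu]; ring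
      · rw [hv]; ring
    rw [e2]
    abel
  rw [e1]
  have h3 : 0 ≤ |e| ^ 3 := by positivity
  have hu1 : |a * u| ≤ a * (|e| ^ 3 / 4) := by
    rw [abs_mul, abs_of_pos ha]
    exact mul_le_mul_of_nonneg_left h1 ha.le
  have hv1 : |c * v| ≤ c * (2 * |e| ^ 3) := by
    rw [abs_mul, abs_of_pos hc]
    refine mul_le_mul_of_nonneg_left (h2.trans (le_of_eq (by ring))) hc.le
  have ha3 : 0 ≤ a * |e| ^ 3 := by positivity
  obtain ⟨a1, a2⟩ := abs_le.mp hu1
  obtain ⟨b1, b2⟩ := abs_le.mp hv1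
  rw [Matrix.norm_le_iff (by positivity)]
  intro i j
  rw [Real.norm_eq_abs, abs_le]
  fin_cases i <;> fin_cases j <;> simp [Qt] <;> constructor <;> nlinarith

theorem Pt_path {a c : ℝ} (ha : 0 < a) (hc : 0 < c) :
    ∀ e : ℝ, |e| ≤ 1 / 2 → (Pt a c e).IsSymm ∧ (Pt a c e).det = (Qt a c).det ∧
      ‖Pt a c e - (Qt a c + e • Qt (-a) (2 * c) + e ^ 2 • Qt (a / 2) (2 * c))‖ ≤
        (2 * a + 2 * c) * |e| ^ 3 :=
  fun e he => ⟨Qt_symm _ _, Pt_det a c e, Pt_norm ha hc he⟩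

/-- the second order function in terms of `GG` -/
theorem second_eq {a c : ℝ} (ha : 0 < a) (hc : 0 < c) (k : ℝ) {t : ℝ} (ht : 0 < t) :
    t ^ 2 / 2 * Tw (Qt a c) (fun x => EpZ.qf (Qt (-a) (2 * c)) x * EpZ.qf (Qt (-a) (2 * c)) x) t -
      t * Tw (Qt a c) (fun x => EpZ.qf (Qt (a / 2) (2 * c)) x) t +
      (3 / 4 * k + 1 / 4) * (t * Tw (Qt a c) (fun x => EpZ.qf (Qt (-a) (2 * c)) x) t) +
        (-(1 / 4)) * (t ^ 2 * Tw (Qt a c)
          (fun x => EpZ.qf (Qt (-a) (2 * c)) x * EpZ.qf (Qt a c) x) t) =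
      3 / 4 * GG k (4 * (t * a)) (4 * (t * c)) := by
  have hpd := Qt_pd ha hc
  have s1 := ((Pg.qf (Qt (-a) (2 * c))).mul (Pg.qf (Qt (-a) (2 * c)))).summable hpd ht
  have s2 := (Pg.qf (Qt (a / 2) (2 * c))).summable hpd ht
  have s3 := (Pg.qf (Qt (-a) (2 * c))).summable hpd ht
  have s4 := ((Pg.qf (Qt (-a) (2 * c))).mul (Pg.qf (Qt a c))).summable hpd ht
  unfold Tw GG
  rw [← tsum_mul_left, ← tsum_mul_left, ← tsum_mul_left, ← tsum_mul_left, ← tsum_mul_left,
    ← tsum_mul_left, ← tsum_mul_left,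
    ← (s1.mul_left _).tsum_sub (s2.mul_left _),
    ← ((s1.mul_left _).sub (s2.mul_left _)).tsum_add ((s3.mul_left _).mul_left _),
    ← (((s1.mul_left _).sub (s2.mul_left _)).add ((s3.mul_left _).mul_left _)).tsum_add
      ((s4.mul_left _).mul_left _)]
  refine tsum_congr fun x => ?_
  rw [qf_Qt, qf_Qt, qf_Qt]
  unfold ex
  have e1 : -(4 * (t * a) * pp x + 4 * (t * c) * qq x) = -(t * (4 * (a * pp x + c * qq x))) := by
    ring
  rw [e1]
  ring

theorem second_neg {a c : ℝ} (ha : 0 < a) (h1 : a < c) (h2 : c < 2 * a) {t : ℝ} (ht : 0 < t) :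
    t ^ 2 / 2 * Tw (Qt a c) (fun x => EpZ.qf (Qt (-a) (2 * c)) x * EpZ.qf (Qt (-a) (2 * c)) x) t -
      t * Tw (Qt a c) (fun x => EpZ.qf (Qt (a / 2) (2 * c)) x) t +
      (3 / 4 * cc (c / a) + 1 / 4) * (t * Tw (Qt a c) (fun x => EpZ.qf (Qt (-a) (2 * c)) x) t) +
        (-(1 / 4)) * (t ^ 2 * Tw (Qt a c)
          (fun x => EpZ.qf (Qt (-a) (2 * c)) x * EpZ.qf (Qt a c) x) t) < 0 := by
  have hc : 0 < c := by linarith
  rw [second_eq ha hc _ ht]
  have hta : 0 < t * a := by positivity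
  have e : c / a = 4 * (t * c) / (4 * (t * a)) := by
    field_simp
  rw [e]
  have h3 : t * a < t * c := mul_lt_mul_of_pos_left h1 ht
  have h4 : t * c < 2 * (t * a) := by
    have := mul_lt_mul_of_pos_left h2 ht
    linarith
  have := GG_neg (r := 4 * (t * a)) (g := 4 * (t * c)) (by positivity) (by linarith) (by linarith)
  linarith

/-- NO LOCAL MINIMUM BETWEEN BCC AND FCC -/
theorem seg_notMin {a c s : ℝ} (ha : 0 < a) (h1 : a < c) (h2 : c < 2 * a) (hs : 3 / 2 < s) :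
    ¬ LocMin s (Qt a c) := by
  have hc : 0 < c := by linarith
  have htr : ((Qt a c)⁻¹ * Qt (-a) (2 * c)).trace = 0 := by
    rw [Qt_trace ha.ne' hc.ne']
    field_simp
    ring
  exact notMin_second (Qt_pd ha hc) (Qt_symm _ _) htr
    ⟨Pt a c, 2 * a + 2 * c, 1 / 2, by norm_num, Pt_path ha hc⟩ (Qt_symm _ _) htr
    (b := -(1 / 4)) (c := 3 / 4 * cc (c / a) + 1 / 4)
    (fun t ht => second_neg ha h1 h2 ht) hs

/-- the segment of the classification -/
theorem seg_formOf {p q s : ℝ} (hp : 0 < p) (hpq : p < q) (hs : 3 / 2 < s) :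
    ¬ LocMin s (FCC.formOf ![p, p, q, q, q, q]) := by
  rw [formOf_eq]
  exact seg_notMin (by linarith) (by linarith) (by linarith) hs

/-- no point of the open segment is a local minimum along the segment -/
theorem seg_not_isLocalMin {x s : ℝ} (h1 : 1 < x) (h2 : x < 2) (hs : 3 / 2 < s) :
    ¬ IsLocalMin (fun x : ℝ => En s (Qt 1 x)) x := by
  intro hm
  have hx : 0 < x := by linarith
  refine not_isLocalMin_second (Q := Qt 1 x) (H := Qt (-1) (2 * x)) (K := Qt (1 / 2) (2 * x))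
    (P := Pt 1 x) (C := 2 * 1 + 2 * x) (r := 1 / 2) (Qt_pd one_pos hx) (Qt_symm _ _) (by norm_num)
    (Pt_path one_pos hx) (b := -(1 / 4)) (c := 3 / 4 * cc (x / 1) + 1 / 4)
    (fun t ht => second_neg one_pos h1 (by linarith) ht) hs ?_
  have hE : ∀ e : ℝ, En s (Pt 1 x e) = En s (Qt 1 (x * Real.exp (3 * e))) := by
    intro e
    have h3 : Pt 1 x e = Real.exp (-e) • Qt 1 (x * Real.exp (3 * e)) := by
      unfold Pt
      rw [Qt_smul]
      congr 1
      · ring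
      · have : Real.exp (2 * e) = Real.exp (-e) * Real.exp (3 * e) := by
          rw [← Real.exp_add]; congr 1; ring
        rw [this]; ring
    rw [h3, En_smul (by norm_num) (Qt_pd one_pos (by positivity)) (Real.exp_pos _)]
  have hfun : (fun e : ℝ => En s (Pt 1 x e)) =
      (fun x : ℝ => En s (Qt 1 x)) ∘ fun e : ℝ => x * Real.exp (3 * e) := by
    funext e
    exact hE e
  rw [hfun]
  have hcont : Tendsto (fun e : ℝ => x * Real.exp (3 * e)) (𝓝 0) (𝓝 x) := by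
    have : Continuous fun e : ℝ => x * Real.exp (3 * e) := by fun_prop
    have h := this.tendsto 0
    simpa using h
  have hx0 : x * Real.exp (3 * 0) = x := by simp
  have hm' : ∀ᶠ y in 𝓝 x, En s (Qt 1 x) ≤ En s (Qt 1 y) := hm
  have h4 := hcont.eventually hm'
  show ∀ᶠ e in 𝓝 (0 : ℝ), _
  refine h4.mono fun e he => ?_
  simp only [Function.comp]
  rw [hx0]
  exact he

end Pool.Agent.Lib.EPC
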