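import Pool.Agent.Lib.EPC.Fix
import Pool.Agent.Lib.EPC.Fn

/-!
# Bounds of the functions `φ`, `κ`, `τ` at `n / 128`
-/

namespace Pool.Agent.Lib.EPC

/-- `φ(n/128)`, upper -/
def phU (n : ℕ) : ℕ := bif Nat.beq n 0 then ONE else (ONE - eL n) * 128 / n + 1

/-- `κ(n/128)`, lower -/
def kaL (n : ℕ) : ℕ := (128 * ONE - (128 + n) * eU n) * 128 / n ^ 2

/-- `τ(n/128)`, upper -/
def taU (n : ℕ) : ℕ :=
  bif Nat.beq n 0 then ONE / 6 + 1 else
    (n * ONE + (n + 256) * eU n - 256 * ONE) * 16384 / n ^ 3 + 1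

/-- `φ(-n/128)`, upper -/
def psU (n : ℕ) : ℕ := bif Nat.beq n 0 then ONE else (gU n - ONE) * 128 / n + 1

/-- `φ(-n/128)`, lower -/
def psL (n : ℕ) : ℕ := bif Nat.beq n 0 then ONE else (gL n - ONE) * 128 / n

/-- `φ(-n/128) - κ(-n/128)`, lower -/
def chL (n : ℕ) : ℕ :=
  bif Nat.beq n 0 then ONE / 2 else (128 * gL n - (128 + n) * ONE) * 128 / n ^ 2

/-- `κ(-n/128)`, lower -/
def kmL (n : ℕ) : ℕ :=
  bif Nat.beq n 0 then ONE / 2 else (n * gL n + 128 * ONE - 128 * gU n) * 128 / n ^ 2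

/-- `τ(-n/128)`, upper -/
def tmU (n : ℕ) : ℕ :=
  bif Nat.beq n 0 then ONE / 6 + 1 else
    (n * gU n + (n + 256) * ONE - 256 * gL n) * 16384 / n ^ 3 + 1

theorem beq_pos {n : ℕ} (hn : 0 < n) : Nat.beq n 0 = false := by
  cases n with
  | zero => omega
  | succ n => rfl

/-- upper bound of a truncated difference -/
theorem cast_sub_ge (b c : ℕ) : (b : ℝ) - c ≤ ((b - c : ℕ) : ℝ) := by
  rcases le_total c b with h | h
  · rw [Nat.cast_sub h]
  · rw [Nat.sub_eq_zero_of_le h]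
    have : (b : ℝ) ≤ c := by exact_mod_cast h
    simp; linarith

/-- lower bound of a truncated difference -/
theorem cast_sub_le {b c : ℕ} {R : ℝ} (h : (b : ℝ) - c ≤ R) (hR : 0 ≤ R) :
    ((b - c : ℕ) : ℝ) ≤ R := by
  rcases le_total c b with h' | h'
  · rw [Nat.cast_sub h']; exact h
  · rw [Nat.sub_eq_zero_of_le h']; simpa using hR

theorem cf_ph {n : ℕ} (hn : 0 < n) :
    ph (n / 128 : ℝ) = (1 - Real.exp (-(n / 128 : ℝ))) * 128 / n := by
  have h := ph_mul (n / 128 : ℝ)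
  have hn' : (0 : ℝ) < n := by exact_mod_cast hn
  field_simp at h ⊢
  linarith

theorem cf_ka {n : ℕ} (hn : 0 < n) :
    ka (n / 128 : ℝ) = (128 - (128 + n) * Real.exp (-(n / 128 : ℝ))) * 128 / n ^ 2 := by
  have h := ka_mul (n / 128 : ℝ)
  rw [cf_ph hn] at h
  have hn' : (0 : ℝ) < n := by exact_mod_cast hn
  field_simp at h ⊢
  linarith

theorem cf_ta {n : ℕ} (hn : 0 < n) :
    ta (n / 128 : ℝ) = (n + (n + 256) * Real.exp (-(n / 128 : ℝ)) - 256) * 16384 / n ^ 3 := by
  have h := ta_mul (n / 128 : ℝ)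
  rw [cf_ph hn, cf_ka hn] at h
  have hn' : (0 : ℝ) < n := by exact_mod_cast hn
  field_simp at h ⊢
  linarith

theorem cf_ps {n : ℕ} (hn : 0 < n) :
    ph (-(n / 128 : ℝ)) = (Real.exp (n / 128 : ℝ) - 1) * 128 / n := by
  have h := ph_mul (-(n / 128 : ℝ))
  rw [neg_neg] at h
  have hn' : (0 : ℝ) < n := by exact_mod_cast hn
  field_simp at h ⊢
  linarith

theorem cf_km {n : ℕ} (hn : 0 < n) :
    ka (-(n / 128 : ℝ)) = (n * Real.exp (n / 128 : ℝ) + 128 - 128 * Real.exp (n / 128 : ℝ)) * 128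
      / n ^ 2 := by
  have h := ka_mul (-(n / 128 : ℝ))
  rw [neg_neg, cf_ps hn] at h
  have hn' : (0 : ℝ) < n := by exact_mod_cast hn
  field_simp at h ⊢
  linarith

theorem cf_tm {n : ℕ} (hn : 0 < n) :
    ta (-(n / 128 : ℝ)) = (n * Real.exp (n / 128 : ℝ) + (n + 256) - 256 * Real.exp (n / 128 : ℝ))
      * 16384 / n ^ 3 := by
  have h := ta_mul (-(n / 128 : ℝ))
  rw [cf_ps hn, cf_km hn] at h
  have hn' : (0 : ℝ) < n := by exact_mod_cast hn
  field_simp at h ⊢
  linarith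

theorem phU_ok {n : ℕ} (hn : n < 16384) : U (ph (n / 128 : ℝ)) (phU n) := by
  rcases Nat.eq_zero_or_pos n with rfl | h0
  · have : (((0 : ℕ) : ℝ) / 128) = 0 := by norm_num
    rw [this, ph_zero]
    simp [U, phU, Nat.beq]
  · have h0' : (0 : ℝ) < n := by exact_mod_cast h0
    have h1 := eL_ok hn
    have e : phU n = (ONE - eL n) * 128 / n + 1 := by
      unfold phU; rw [beq_pos h0]; rfl
    rw [e, cf_ph h0]
    have h2 : U (1 - Real.exp (-(n / 128 : ℝ))) (ONE - eL n) := by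
      unfold U L at *
      refine le_trans ?_ (cast_sub_ge _ _)
      linarith
    have h3 := (U.nmul 128 h2).div h0
    have e2 : (1 - Real.exp (-(n / 128 : ℝ))) * 128 / n =
        ((128 : ℕ) : ℝ) * (1 - Real.exp (-(n / 128 : ℝ))) / (n : ℕ) := by push_cast; ring
    rw [e2, mul_comm (ONE - eL n) 128]
    exact h3

theorem kaL_ok {n : ℕ} (h0 : 0 < n) (hn : n < 16384) : L (ka (n / 128 : ℝ)) (kaL n) := by
  have h0' : (0 : ℝ) < n := by exact_mod_cast h0
  have h1 := eU_ok hn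
  rw [cf_ka h0]
  have hpos : 0 ≤ 128 - (128 + (n : ℝ)) * Real.exp (-(n / 128 : ℝ)) := by
    have h2 := ka_pos (n / 128 : ℝ)
    rw [cf_ka h0] at h2
    by_contra hc
    push Not at hc
    have : (128 - (128 + (n : ℝ)) * Real.exp (-(n / 128 : ℝ))) * 128 / n ^ 2 < 0 := by
      apply div_neg_of_neg_of_pos
      · linarith
      · positivity
    linarith
  have h2 : L (128 - (128 + (n : ℝ)) * Real.exp (-(n / 128 : ℝ)))
      (128 * ONE - (128 + n) * eU n) := by
    unfold L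
    refine cast_sub_le ?_ (mul_nonneg hpos ONE_pos.le)
    unfold U at h1
    push_cast
    have h3 := mul_le_mul_of_nonneg_left h1 (by positivity : 0 ≤ 128 + (n : ℝ))
    linarith
  have h3 := (L.nmul 128 h2).div (n ^ 2)
  have e2 : (128 - (128 + (n : ℝ)) * Real.exp (-(n / 128 : ℝ))) * 128 / n ^ 2 =
      ((128 : ℕ) : ℝ) * (128 - (128 + (n : ℝ)) * Real.exp (-(n / 128 : ℝ))) / ((n ^ 2 : ℕ) : ℝ) := by
    push_cast; ring
  rw [e2]
  unfold kaL
  rw [mul_comm (128 * ONE - (128 + n) * eU n) 128]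
  exact h3

theorem taU_ok {n : ℕ} (hn : n < 16384) : U (ta (n / 128 : ℝ)) (taU n) := by
  rcases Nat.eq_zero_or_pos n with rfl | h0
  · have : (((0 : ℕ) : ℝ) / 128) = 0 := by norm_num
    rw [this, ta_zero]
    simp only [taU, Nat.beq]
    unfold U ONE
    norm_num
  · have h0' : (0 : ℝ) < n := by exact_mod_cast h0
    have h1 := eU_ok hn
    have e : taU n = (n * ONE + (n + 256) * eU n - 256 * ONE) * 16384 / n ^ 3 + 1 := by
      unfold taU; rw [beq_pos h0]; rfl
    rw [e, cf_ta h0]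
    have h2 : U (n + (n + 256) * Real.exp (-(n / 128 : ℝ)) - 256)
        (n * ONE + (n + 256) * eU n - 256 * ONE) := by
      unfold U at *
      refine le_trans ?_ (cast_sub_ge _ _)
      push_cast
      have h3 := mul_le_mul_of_nonneg_left h1 (by positivity : 0 ≤ (n : ℝ) + 256)
      linarith
    have h3 := (U.nmul 16384 h2).div (n := n ^ 3) (by positivity)
    have e2 : ((n : ℝ) + (n + 256) * Real.exp (-(n / 128 : ℝ)) - 256) * 16384 / n ^ 3 =
        ((16384 : ℕ) : ℝ) * ((n : ℝ) + (n + 256) * Real.exp (-(n / 128 : ℝ)) - 256) /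
          ((n ^ 3 : ℕ) : ℝ) := by push_cast; ring
    rw [e2, mul_comm (n * ONE + (n + 256) * eU n - 256 * ONE) 16384]
    exact h3

theorem psU_ok {n : ℕ} (hn : n < 16384) : U (ph (-(n / 128 : ℝ))) (psU n) := by
  rcases Nat.eq_zero_or_pos n with rfl | h0
  · have : -(((0 : ℕ) : ℝ) / 128) = 0 := by norm_num
    rw [this, ph_zero]
    simp [U, psU, Nat.beq]
  · have h0' : (0 : ℝ) < n := by exact_mod_cast h0
    have h1 := gU_ok hn
    have e : psU n = (gU n - ONE) * 128 / n + 1 := by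
      unfold psU; rw [beq_pos h0]; rfl
    rw [e, cf_ps h0]
    have h2 : U (Real.exp (n / 128 : ℝ) - 1) (gU n - ONE) := by
      unfold U at *
      refine le_trans ?_ (cast_sub_ge _ _)
      linarith
    have h3 := (U.nmul 128 h2).div h0
    have e2 : (Real.exp (n / 128 : ℝ) - 1) * 128 / n =
        ((128 : ℕ) : ℝ) * (Real.exp (n / 128 : ℝ) - 1) / (n : ℕ) := by push_cast; ring
    rw [e2, mul_comm (gU n - ONE) 128]
    exact h3

theorem psL_ok {n : ℕ} (hn : n < 16384) : L (ph (-(n / 128 : ℝ))) (psL n) := by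
  rcases Nat.eq_zero_or_pos n with rfl | h0
  · have : -(((0 : ℕ) : ℝ) / 128) = 0 := by norm_num
    rw [this, ph_zero]
    simp [L, psL, Nat.beq]
  · have h0' : (0 : ℝ) < n := by exact_mod_cast h0
    have h1 := gL_ok hn
    have e : psL n = (gL n - ONE) * 128 / n := by
      unfold psL; rw [beq_pos h0]; rfl
    rw [e, cf_ps h0]
    have hg : 1 ≤ Real.exp (n / 128 : ℝ) := Real.one_le_exp (by positivity)
    have h2 : L (Real.exp (n / 128 : ℝ) - 1) (gL n - ONE) := by
      unfold L at *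
      refine cast_sub_le ?_ (mul_nonneg (by linarith) ONE_pos.le)
      linarith
    have h3 := (L.nmul 128 h2).div n
    have e2 : (Real.exp (n / 128 : ℝ) - 1) * 128 / n =
        ((128 : ℕ) : ℝ) * (Real.exp (n / 128 : ℝ) - 1) / (n : ℕ) := by push_cast; ring
    rw [e2, mul_comm (gL n - ONE) 128]
    exact h3

theorem chL_ok {n : ℕ} (hn : n < 16384) :
    L (ph (-(n / 128 : ℝ)) - ka (-(n / 128 : ℝ))) (chL n) := by
  rcases Nat.eq_zero_or_pos n with rfl | h0
  · have : -(((0 : ℕ) : ℝ) / 128) = 0 := by norm_num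
    rw [this, ph_zero, ka_zero]
    simp only [chL, Nat.beq]
    unfold L ONE
    norm_num
  · have h0' : (0 : ℝ) < n := by exact_mod_cast h0
    have h1 := gL_ok hn
    have e : chL n = (128 * gL n - (128 + n) * ONE) * 128 / n ^ 2 := by
      unfold chL; rw [beq_pos h0]; rfl
    have e0 : ph (-(n / 128 : ℝ)) - ka (-(n / 128 : ℝ)) =
        (128 * Real.exp (n / 128 : ℝ) - (128 + n)) * 128 / n ^ 2 := by
      rw [cf_ps h0, cf_km h0]
      field_simp
      ring
    rw [e, e0]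
    have hg : (n / 128 : ℝ) + 1 ≤ Real.exp (n / 128 : ℝ) := Real.add_one_le_exp _
    have h2 : L (128 * Real.exp (n / 128 : ℝ) - (128 + n)) (128 * gL n - (128 + n) * ONE) := by
      unfold L at *
      refine cast_sub_le ?_ (mul_nonneg (by linarith) ONE_pos.le)
      push_cast
      linarith
    have h3 := (L.nmul 128 h2).div (n ^ 2)
    have e2 : (128 * Real.exp (n / 128 : ℝ) - (128 + n)) * 128 / n ^ 2 =
        ((128 : ℕ) : ℝ) * (128 * Real.exp (n / 128 : ℝ) - (128 + n)) / ((n ^ 2 : ℕ) : ℝ) := by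
      push_cast; ring
    rw [e2, mul_comm (128 * gL n - (128 + n) * ONE) 128]
    exact h3

theorem kmL_ok {n : ℕ} (hn : n < 16384) : L (ka (-(n / 128 : ℝ))) (kmL n) := by
  rcases Nat.eq_zero_or_pos n with rfl | h0
  · have : -(((0 : ℕ) : ℝ) / 128) = 0 := by norm_num
    rw [this, ka_zero]
    simp only [kmL, Nat.beq]
    unfold L ONE
    norm_num
  · have h0' : (0 : ℝ) < n := by exact_mod_cast h0
    have h1 := gL_ok hn
    have h1' := gU_ok hn
    have e : kmL n = (n * gL n + 128 * ONE - 128 * gU n) * 128 / n ^ 2 := by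
      unfold kmL; rw [beq_pos h0]; rfl
    have hpos : 0 ≤ n * Real.exp (n / 128 : ℝ) + 128 - 128 * Real.exp (n / 128 : ℝ) := by
      have h2 := ka_pos (-(n / 128 : ℝ))
      rw [cf_km h0] at h2
      by_contra hc
      push Not at hc
      have : (n * Real.exp (n / 128 : ℝ) + 128 - 128 * Real.exp (n / 128 : ℝ)) * 128 / n ^ 2 < 0 := by
        apply div_neg_of_neg_of_pos
        · linarith
        · positivity
      linarith
    rw [e, cf_km h0]
    have h2 : L (n * Real.exp (n / 128 : ℝ) + 128 - 128 * Real.exp (n / 128 : ℝ))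
        (n * gL n + 128 * ONE - 128 * gU n) := by
      unfold L at *
      refine cast_sub_le ?_ (mul_nonneg hpos ONE_pos.le)
      unfold U at h1'
      push_cast
      have h3 := mul_le_mul_of_nonneg_left h1 h0'.le
      linarith
    have h3 := (L.nmul 128 h2).div (n ^ 2)
    have e2 : (n * Real.exp (n / 128 : ℝ) + 128 - 128 * Real.exp (n / 128 : ℝ)) * 128 / n ^ 2 =
        ((128 : ℕ) : ℝ) * (n * Real.exp (n / 128 : ℝ) + 128 - 128 * Real.exp (n / 128 : ℝ)) /
          ((n ^ 2 : ℕ) : ℝ) := by push_cast; ring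
    rw [e2, mul_comm (n * gL n + 128 * ONE - 128 * gU n) 128]
    exact h3

theorem tmU_ok {n : ℕ} (hn : n < 16384) : U (ta (-(n / 128 : ℝ))) (tmU n) := by
  rcases Nat.eq_zero_or_pos n with rfl | h0
  · have : -(((0 : ℕ) : ℝ) / 128) = 0 := by norm_num
    rw [this, ta_zero]
    simp only [tmU, Nat.beq]
    unfold U ONE
    norm_num
  · have h0' : (0 : ℝ) < n := by exact_mod_cast h0
    have h1 := gU_ok hn
    have h1' := gL_ok hn
    have e : tmU n = (n * gU n + (n + 256) * ONE - 256 * gL n) * 16384 / n ^ 3 + 1 := by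
      unfold tmU; rw [beq_pos h0]; rfl
    rw [e, cf_tm h0]
    have h2 : U (n * Real.exp (n / 128 : ℝ) + (n + 256) - 256 * Real.exp (n / 128 : ℝ))
        (n * gU n + (n + 256) * ONE - 256 * gL n) := by
      unfold U at *
      refine le_trans ?_ (cast_sub_ge _ _)
      unfold L at h1'
      push_cast
      have h3 := mul_le_mul_of_nonneg_left h1 h0'.le
      linarith
    have h3 := (U.nmul 16384 h2).div (n := n ^ 3) (by positivity)
    have e2 : (n * Real.exp (n / 128 : ℝ) + (n + 256) - 256 * Real.exp (n / 128 : ℝ)) * 16384 / n ^ 3 =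
        ((16384 : ℕ) : ℝ) * (n * Real.exp (n / 128 : ℝ) + (n + 256) - 256 * Real.exp (n / 128 : ℝ)) /
          ((n ^ 3 : ℕ) : ℝ) := by push_cast; ring
    rw [e2, mul_comm (n * gU n + (n + 256) * ONE - 256 * gL n) 16384]
    exact h3

end Pool.Agent.Lib.EPC
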