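import Pool.Agent.Lib.EPC.LeafF

/-!
# The quad trees of cells
-/

namespace Pool.Agent.Lib.EPC

/-- quad tree over a test of cells -/
def tree (t : ℕ → ℕ → ℕ → ℕ → Bool) : ℕ → ℕ → ℕ → Bool
  | 0, i, j => t i (i + 1) j (j + 1)
  | k + 1, i, j => bif t i (i + 2 ^ (k + 1)) j (j + 2 ^ (k + 1)) then true else
      tree t k i j && tree t k (i + 2 ^ k) j && tree t k i (j + 2 ^ k) &&
        tree t k (i + 2 ^ k) (j + 2 ^ k)

theorem tree_sound {t : ℕ → ℕ → ℕ → ℕ → Bool} {G : ℝ → ℝ → Prop}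
    (ht : ∀ i0 i1 j0 j1, t i0 i1 j0 j1 = true → ∀ r y : ℝ, (i0 : ℝ) / 32 ≤ r → r ≤ (i1 : ℝ) / 32 →
      (j0 : ℝ) / 32 ≤ y → y ≤ (j1 : ℝ) / 32 → G r y) :
    ∀ k i j, tree t k i j = true → ∀ r y : ℝ, (i : ℝ) / 32 ≤ r → r ≤ (i + 2 ^ k : ℝ) / 32 →
      (j : ℝ) / 32 ≤ y → y ≤ (j + 2 ^ k : ℝ) / 32 → G r y := by
  intro k
  induction k with
  | zero =>
    intro i j h r y h1 h2 h3 h4
    exact ht i (i + 1) j (j + 1) h r y h1 (by push_cast; simpa using h2) h3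
      (by push_cast; simpa using h4)
  | succ k ih =>
    intro i j h r y h1 h2 h3 h4
    by_cases hc : t i (i + 2 ^ (k + 1)) j (j + 2 ^ (k + 1)) = true
    · exact ht _ _ _ _ hc r y h1 (by push_cast; exact h2) h3 (by push_cast; exact h4)
    · have hc' : t i (i + 2 ^ (k + 1)) j (j + 2 ^ (k + 1)) = false := by simpa using hc
      have h' : (tree t k i j && tree t k (i + 2 ^ k) j && tree t k i (j + 2 ^ k) &&
        tree t k (i + 2 ^ k) (j + 2 ^ k)) = true := by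
        have e : tree t (k + 1) i j = bif t i (i + 2 ^ (k + 1)) j (j + 2 ^ (k + 1)) then true else
          tree t k i j && tree t k (i + 2 ^ k) j && tree t k i (j + 2 ^ k) &&
          tree t k (i + 2 ^ k) (j + 2 ^ k) := rfl
        rw [e, hc'] at h
        exact h
      simp only [Bool.and_eq_true] at h'
      obtain ⟨⟨⟨a1, a2⟩, a3⟩, a4⟩ := h'
      have e2 : (2 : ℝ) ^ (k + 1) = 2 ^ k + 2 ^ k := by rw [pow_succ]; ring
      rw [e2] at h2 h4
      rcases le_total r ((i + 2 ^ k : ℝ) / 32) with c1 | c1 <;>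
        rcases le_total y ((j + 2 ^ k : ℝ) / 32) with c2 | c2
      · exact ih i j a1 r y h1 c1 h3 c2
      · refine ih i (j + 2 ^ k) a3 r y h1 c1 ?_ ?_
        · push_cast; exact c2
        · push_cast; linarith
      · refine ih (i + 2 ^ k) j a2 r y ?_ ?_ h3 c2
        · push_cast; exact c1
        · push_cast; linarith
      · refine ih (i + 2 ^ k) (j + 2 ^ k) a4 r y ?_ ?_ ?_ ?_
        · push_cast; exact c1
        · push_cast; linarith
        · push_cast; exact c2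
        · push_cast; linarith

/-- the test of the bcc side: outside of the region, or a good cell -/
def tB (i0 i1 j0 j1 : ℕ) : Bool :=
  bif Nat.ble (i1 + 1) (2 * j0) then true else
    bif Nat.ble (i1 ^ 2 * (i1 + j1) + 1) 4063232 then true else okB i0 i1 j0 j1

/-- the test of the fcc side -/
def tF (i0 i1 j0 j1 : ℕ) : Bool :=
  bif Nat.ble (i1 + 1) (2 * j0) then true else
    bif Nat.ble (i1 ^ 2 * (2 * i1 - j0) + 1) 4063232 then true else okF i0 i1 j0 j1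

theorem cube_le {a b c d : ℝ} (ha : 0 ≤ a) (hab : a ≤ b) (hc : 0 ≤ c) (hcd : c ≤ d) :
    a ^ 2 * c ≤ b ^ 2 * d :=
  mul_le_mul (pow_le_pow_left₀ ha hab 2) hcd hc (by positivity)

theorem tB_sound (i0 i1 j0 j1 : ℕ) (h : tB i0 i1 j0 j1 = true) (r y : ℝ)
    (h1 : (i0 : ℝ) / 32 ≤ r) (h2 : r ≤ (i1 : ℝ) / 32) (h3 : (j0 : ℝ) / 32 ≤ y)
    (h4 : y ≤ (j1 : ℝ) / 32) (hyr : 2 * y ≤ r) (hreg : 124 ≤ r ^ 2 * (r + y)) :
    1 / 10 < mB (cB r y - 1 / 4) r y := by
  have hr : 0 ≤ r := le_trans (by positivity) h1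
  have hy : 0 ≤ y := le_trans (by positivity) h3
  unfold tB at h
  by_cases c1 : Nat.ble (i1 + 1) (2 * j0) = true
  · exfalso
    rw [Nat.ble_eq] at c1
    have c2 : (i1 : ℝ) + 1 ≤ 2 * j0 := by exact_mod_cast c1
    linarith
  · rw [Bool.eq_false_iff.mpr c1] at h
    by_cases c2 : Nat.ble (i1 ^ 2 * (i1 + j1) + 1) 4063232 = true
    · exfalso
      rw [Nat.ble_eq] at c2
      have c3 : (i1 : ℝ) ^ 2 * (i1 + j1) + 1 ≤ 4063232 := by exact_mod_cast c2
      have c4 := cube_le hr h2 (by linarith : 0 ≤ r + y) (by linarith : r + y ≤ (i1 + j1 : ℝ) / 32)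
      have c5 : ((i1 : ℝ) / 32) ^ 2 * ((i1 + j1 : ℝ) / 32) = (i1 : ℝ) ^ 2 * (i1 + j1) / 32768 := by
        ring
      rw [c5] at c4
      linarith
    · rw [Bool.eq_false_iff.mpr c2] at h
      exact okB_sound h h1 h2 h3 h4

theorem tF_sound (i0 i1 j0 j1 : ℕ) (h : tF i0 i1 j0 j1 = true) (r z : ℝ)
    (h1 : (i0 : ℝ) / 32 ≤ r) (h2 : r ≤ (i1 : ℝ) / 32) (h3 : (j0 : ℝ) / 32 ≤ z)
    (h4 : z ≤ (j1 : ℝ) / 32) (hzr : 2 * z ≤ r) (hreg : 124 ≤ r ^ 2 * (2 * r - z)) :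
    mF (cF r z + 1 / 4) r z < -(3 / 5) := by
  have hr : 0 ≤ r := le_trans (by positivity) h1
  have hz : 0 ≤ z := le_trans (by positivity) h3
  unfold tF at h
  by_cases c1 : Nat.ble (i1 + 1) (2 * j0) = true
  · exfalso
    rw [Nat.ble_eq] at c1
    have c2 : (i1 : ℝ) + 1 ≤ 2 * j0 := by exact_mod_cast c1
    linarith
  · rw [Bool.eq_false_iff.mpr c1] at h
    have c1' : 2 * j0 ≤ i1 := by
      by_contra hcon
      apply c1
      rw [Nat.ble_eq]
      omega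
    by_cases c2 : Nat.ble (i1 ^ 2 * (2 * i1 - j0) + 1) 4063232 = true
    · exfalso
      rw [Nat.ble_eq] at c2
      have c3 : (i1 : ℝ) ^ 2 * ((2 * i1 - j0 : ℕ) : ℝ) + 1 ≤ 4063232 := by exact_mod_cast c2
      rw [Nat.cast_sub (by omega)] at c3
      push_cast at c3
      have c4 := cube_le hr h2 (by linarith : 0 ≤ 2 * r - z)
        (by linarith : 2 * r - z ≤ (2 * i1 - j0 : ℝ) / 32)
      have c5 : ((i1 : ℝ) / 32) ^ 2 * ((2 * i1 - j0 : ℝ) / 32) =
          (i1 : ℝ) ^ 2 * (2 * i1 - j0) / 32768 := by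
        ring
      rw [c5] at c4
      linarith
    · rw [Bool.eq_false_iff.mpr c2] at h
      exact okF_sound h h1 h2 h3 h4

/-- a block of unit squares -/
def rows (t : ℕ → ℕ → ℕ → ℕ → Bool) : ℕ → ℕ → Bool
  | 0, _ => true
  | n + 1, J => (List.range 32).all (fun I => tree t 5 (32 * I) (32 * J)) && rows t n (J + 1)

end Pool.Agent.Lib.EPC
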